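import Pool.Agent.W_eea520p_h56.AbsP

/-!
# Representatives, and the other points of the line (MP_eea520_nt, theorem P)
-/

set_option autoImplicit false

namespace Pool.Agent.EEAP

variable {B : Type} [CommRing B] {E Et : B →+ ℤ}

/-- `E ((f - g) ^ 2) = 0` (`ae_iff`), so `2 * (Et (f - g)) ^ 2 ≤ 0`. -/
theorem et_ae (hE : ∀ f, 0 ≤ E (f * f)) (h2 : ∀ f, 2 * (Et f) ^ 2 ≤ E (f * f)) {f g : B}
    (h : Ae E f g) : Et f = Et g := by
  have h3 := h2 (f - g)
  rw [(ae_iff hE).1 h] at h3
  have h4 : Et (f - g) = 0 := by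
    by_contra hne
    have h5 : 0 < (Et (f - g)) ^ 2 := by positivity
    linarith
  rw [map_sub] at h4
  linarith

variable {r : ℕ} {I : Fin r → Type} {b : ∀ k, Bas (I k)} {V : ∀ k, I k → B}

/-- The additive group generated by the products over `S`. -/
def SP (V : ∀ k, I k → B) (S : Finset (Fin r)) : AddSubgroup B :=
  AddSubgroup.closure (Set.range fun i : ∀ k, I k => ∏ k ∈ S, V k (i k))

/-- The products over `S` have square mean one. `(∏_{k ∈ S} V k (i k)) ^ 2` is, by `mul`, the sum over `l`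
of `(∏ N (i k) (i k) (l k)) ∏_{k ∈ S} V k (l k)`, and only `l = z` contributes (`hS`, `h1`, `orth_self`).
(For instance by `Fam.pi` for the subtype of `S`.) -/
theorem sp_sq (hV : ∀ k, Fam E (b k) (V k)) (h1 : E 1 = 1) (S : Finset (Fin r))
    (hS : ∀ i : ∀ k, I k, (∀ k, k ∉ S → i k = (b k).z) → i ≠ (fun k => (b k).z) →
      E (∏ k, V k (i k)) = 0) (i : ∀ k, I k) :
    E ((∏ k ∈ S, V k (i k)) * ∏ k ∈ S, V k (i k)) = 1 := by
  classical
  let i' : ∀ k, I k := fun k => if k ∈ S then i k else (b k).z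
  have hi' : ∀ k, k ∉ S → i' k = (b k).z := fun k hk => if_neg hk
  have hprod : ∏ k ∈ S, V k (i k) = ∏ k, V k (i' k) := by
    rw [← Finset.prod_subset (Finset.subset_univ S) (fun k _ hk => by
      rw [hi' k hk, (hV k).one])]
    refine Finset.prod_congr rfl fun k hk => ?_
    show V k (i k) = V k (if k ∈ S then i k else (b k).z)
    rw [if_pos hk]
  have hexp : (∏ k, V k (i' k)) * ∏ k, V k (i' k) =
      ∑ l ∈ Fintype.piFinset (fun k => ((b k).N (i' k) (i' k)).support),
        ∏ k, ((b k).N (i' k) (i' k) (l k)) • V k (l k) := by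
    rw [← Finset.prod_mul_distrib]
    rw [← Finset.prod_univ_sum (fun k => ((b k).N (i' k) (i' k)).support)
      (fun k l => ((b k).N (i' k) (i' k) l) • V k l)]
    exact Finset.prod_congr rfl fun k _ => (hV k).mul _ _
  have hterm : ∀ l : ∀ k, I k, E (∏ k, ((b k).N (i' k) (i' k) (l k)) • V k (l k)) =
      (∏ k, (b k).N (i' k) (i' k) (l k)) * E (∏ k, V k (l k)) := by
    intro l
    have h : (∏ k, ((b k).N (i' k) (i' k) (l k)) • V k (l k)) =
        (∏ k, (b k).N (i' k) (i' k) (l k)) • ∏ k, V k (l k) := by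
      simp only [zsmul_eq_mul, Finset.prod_mul_distrib, Int.cast_prod]
    rw [h, map_zsmul, smul_eq_mul]
  rw [hprod, hexp, map_sum, Finset.sum_congr rfl fun l _ => hterm l,
    Finset.sum_eq_single (fun k => (b k).z)]
  · rw [Finset.prod_eq_one fun k _ => (b k).orth_self (i' k),
      Finset.prod_eq_one fun k _ => (hV k).one, h1, mul_one]
  · intro l hl hne
    rw [hS l (fun k hk => ?_) hne, mul_zero]
    have h2 := (Fintype.mem_piFinset.1 hl) k
    rw [hi' k hk, (b k).one_mul, Finsupp.mem_support_iff] at h2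
    by_contra h3
    exact h2 (Finsupp.single_eq_of_ne h3)
  · intro hl
    have h2 : ∏ k, (b k).N (i' k) (i' k) (b k).z = 0 := by
      rw [Fintype.mem_piFinset] at hl
      push Not at hl
      obtain ⟨k, hk⟩ := hl
      exact Finset.prod_eq_zero (Finset.mem_univ k) (Finsupp.notMem_support_iff.1 hk)
    rw [h2, zero_mul]

/-- `SP V S` is closed under multiplication with `V k j`, `k ∈ S`: by `mul`, for a generator, the factor
`V k (i k) * V k j` is a combination of the `V k l`, and replace `i` by `Function.update i k l`. -/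
theorem sp_mul (hV : ∀ k, Fam E (b k) (V k)) {S : Finset (Fin r)} {k : Fin r} (hk : k ∈ S) (j : I k)
    {f : B} (hf : f ∈ SP V S) : f * V k j ∈ SP V S := by
  classical
  refine AddSubgroup.closure_induction (p := fun f _ => f * V k j ∈ SP V S) ?_ ?_ ?_ ?_ hf
  · rintro _ ⟨i, rfl⟩
    have h1 : (∏ k ∈ S, V k (i k)) * V k j =
        ((b k).N (i k) j).sum fun l a => a • ∏ k' ∈ S, V k' (Function.update i k l k') := by
      have h2 : ∀ l, ∏ k' ∈ S, V k' (Function.update i k l k') =
          V k l * ∏ k' ∈ S.erase k, V k' (i k') := by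
        intro l
        rw [← Finset.mul_prod_erase S (fun k' => V k' (Function.update i k l k')) hk,
          Function.update_self]
        refine congrArg _ (Finset.prod_congr rfl fun k' hk' => ?_)
        rw [Function.update_of_ne (Finset.ne_of_mem_erase hk')]
      rw [← Finset.mul_prod_erase S (fun k' => V k' (i k')) hk, mul_right_comm, (hV k).mul]
      unfold Finsupp.sum
      rw [Finset.sum_mul]
      refine Finset.sum_congr rfl fun l _ => ?_
      show _ • V k l * _ = _ • (∏ k' ∈ S, V k' (Function.update i k l k'))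
      rw [h2, smul_mul_assoc]
    rw [h1]
    refine AddSubgroup.sum_mem _ fun l _ => ?_
    exact AddSubgroup.zsmul_mem _ (AddSubgroup.subset_closure
      (Set.mem_range_self (f := fun i : ∀ k, I k => ∏ k ∈ S, V k (i k))
        (Function.update i k l))) _
  · rw [zero_mul]
    exact zero_mem _
  · intro x y _ _ hx hy
    rw [add_mul]
    exact add_mem hx hy
  · intro x _ hx
    rw [neg_mul]
    exact neg_mem hx

/-- Induction on `T`, for the products over `S ∪ T`, `T` disjoint from `S` (`Ae.mul`, `sp_mul`). -/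
theorem sp_ae (hV : ∀ k, Fam E (b k) (V k)) (S : Finset (Fin r))
    (hm : ∀ k, k ∉ S → ∃ k' ∈ S, ∀ i, ∃ i', Ae E (V k i) (V k' i')) (i : ∀ k, I k) :
    ∃ g ∈ SP V S, Ae E (∏ k, V k (i k)) g := by
  classical
  have key : ∀ T : Finset (Fin r), Disjoint S T →
      ∃ g ∈ SP V S, Ae E (∏ k ∈ S ∪ T, V k (i k)) g := by
    intro T
    induction T using Finset.induction_on with
    | empty =>
      intro _
      rw [Finset.union_empty]
      exact ⟨_, AddSubgroup.subset_closure ⟨i, rfl⟩, Ae.refl _⟩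
    | insert a T ha ih =>
      intro hd
      rw [Finset.disjoint_insert_right] at hd
      obtain ⟨g, hg, hg'⟩ := ih hd.2
      obtain ⟨k', hk', hm'⟩ := hm a hd.1
      obtain ⟨i', hi'⟩ := hm' (i a)
      refine ⟨g * V k' i', sp_mul hV hk' i' hg, ?_⟩
      rw [Finset.union_insert, Finset.prod_insert (by
        rw [Finset.mem_union]
        rintro (h | h)
        · exact hd.1 h
        · exact ha h), mul_comm]
      exact Ae.mul hg' hi'
  obtain ⟨g, hg, hg'⟩ := key (Finset.univ \ S) Finset.disjoint_sdiff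
  rw [Finset.union_sdiff_of_subset (Finset.subset_univ S)] at hg'
  exact ⟨g, hg, hg'⟩

/-- THE LINE. `Et` is zero on the products over `S` by `sp_sq` and `2 (Et f) ^ 2 ≤ E (f ^ 2) = 1`, so on
`SP V S`, and then on all products by `sp_ae` and `et_ae`. -/
theorem line_zero (hE : ∀ f, 0 ≤ E (f * f)) (h2 : ∀ f, 2 * (Et f) ^ 2 ≤ E (f * f)) (h1 : E 1 = 1)
    (hV : ∀ k, Fam E (b k) (V k)) (S : Finset (Fin r))
    (hS : ∀ i : ∀ k, I k, (∀ k, k ∉ S → i k = (b k).z) → i ≠ (fun k => (b k).z) →
      E (∏ k, V k (i k)) = 0)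
    (hm : ∀ k, k ∉ S → ∃ k' ∈ S, ∀ i, ∃ i', Ae E (V k i) (V k' i')) (i : ∀ k, I k) :
    Et (∏ k, V k (i k)) = 0 := by
  obtain ⟨g, hg, hg'⟩ := sp_ae hV S hm i
  rw [et_ae hE h2 hg']
  refine AddSubgroup.closure_induction (p := fun g _ => Et g = 0) ?_ ?_ ?_ ?_ hg
  · rintro _ ⟨i, rfl⟩
    have h3 := h2 (∏ k ∈ S, V k (i k))
    rw [sp_sq hV h1 S hS i] at h3
    by_contra hne
    have h4 : 1 ≤ (Et (∏ k ∈ S, V k (i k))) ^ 2 := by
      have : 0 < (Et (∏ k ∈ S, V k (i k))) ^ 2 := by positivity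
      linarith
    linarith
  · exact map_zero _
  · intro x y _ _ hx hy
    rw [map_add, hx, hy, add_zero]
  · intro x _ hx
    rw [map_neg, hx, neg_zero]

/-- A maximal set of pairwise unrelated indices (for a symmetric relation). -/
theorem exists_maximal {r : ℕ} (Q : Fin r → Fin r → Prop) (hQ : ∀ k l, Q k l → Q l k) :
    ∃ S : Finset (Fin r), (∀ k ∈ S, ∀ l ∈ S, k ≠ l → ¬ Q k l) ∧ ∀ k, k ∉ S → ∃ l ∈ S, Q k l := by
  classical
  obtain ⟨S, hS, hmax⟩ := Finset.exists_max_image
    (Finset.univ.filter fun S : Finset (Fin r) => ∀ k ∈ S, ∀ l ∈ S, k ≠ l → ¬ Q k l) Finset.card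
    ⟨∅, by simp⟩
  have hS' := (Finset.mem_filter.1 hS).2
  refine ⟨S, hS', fun k hk => ?_⟩
  by_contra hno
  push Not at hno
  have h1 : insert k S ∈ Finset.univ.filter fun S : Finset (Fin r) =>
      ∀ k ∈ S, ∀ l ∈ S, k ≠ l → ¬ Q k l := by
    refine Finset.mem_filter.2 ⟨Finset.mem_univ _, fun a ha c hc hac => ?_⟩
    rcases Finset.mem_insert.1 ha with rfl | ha'
    · rcases Finset.mem_insert.1 hc with rfl | hc'
      · exact absurd rfl hac
      · exact hno c hc'
    · rcases Finset.mem_insert.1 hc with rfl | hc'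
      · exact fun h => hno a ha' (hQ _ _ h)
      · exact hS' a ha' c hc' hac
  have h2 := hmax _ h1
  rw [Finset.card_insert_of_notMem hk] at h2
  omega

end Pool.Agent.EEAP
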