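import Pool.Agent.W_eea520p_h56.RepA

/-!
# Characters of `SO_{2n+1}`: orthogonality (MP_eea520_nt, theorem P)
-/

set_option autoImplicit false

namespace Pool.Agent.EEAP

open Pool.Agent.EEA520 Pool.Agent.EEAN

variable {n : ℕ}

/-- Negation is in the Weyl group for `k = 0`: `act (1, univ) w = (w.1, w.1 - w.2)` (`act_apply`), and
`IsCharacter.act`; if `w.1 ≠ 0` both coefficients are zero. -/
theorem Inv0.neg_coeff {f : R n} (hf : Inv0 f) (w : Wt n) : f.coeff (-w) = f.coeff w := by
  classical
  by_cases h : w.1 = 0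
  · have h1 : act (1, Finset.univ) w = -w := by
      rw [act_apply]
      refine Prod.ext ?_ ?_
      · show w.1 = -w.1
        rw [h, neg_zero]
      · funext i
        show (if i ∈ (Finset.univ : Finset (Fin n)) then
          w.1 - w.2 ((1 : Equiv.Perm (Fin n)) i) else w.2 ((1 : Equiv.Perm (Fin n)) i)) = -w.2 i
        rw [if_pos (Finset.mem_univ i), h, zero_sub, Equiv.Perm.one_apply]
    rw [← h1, hf.1.act]
  · have h1 : f.coeff w = 0 := by
      by_contra h2
      exact h (hf.2 w h2)
    have h2 : f.coeff (-w) = 0 := by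
      by_contra h3
      have h4 := hf.2 (-w) h3
      rw [Prod.fst_neg, neg_eq_zero] at h4
      exact h h4
    rw [h1, h2]

private theorem repB_mul_mon (f : R n) (u : Wt n) :
    f * mon u = f.coeff.sum fun w a => a • (mon (w + u) : R n) := by
  have h0 : ∀ x : Wt n →₀ ℤ, (x.sum fun w a => a • (mon (w + u) : R n)) =
      (Finsupp.liftAddHom fun w => ((zmultiplesHom (R n)) (mon (w + u)) : ℤ →+ R n)) x := by
    intro x
    rw [Finsupp.liftAddHom_apply]
    rfl
  rw [h0]
  induction f using AddMonoidAlgebra.induction_linear with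
  | zero => rw [zero_mul, AddMonoidAlgebra.coeff_zero, map_zero]
  | add x y hx hy => rw [add_mul, AddMonoidAlgebra.coeff_add, map_add, hx, hy]
  | single w z =>
    rw [← h0, AddMonoidAlgebra.coeff_single, Finsupp.sum_single_index (by rw [zero_smul]), mon, mon,
      AddMonoidAlgebra.single_mul_single, AddMonoidAlgebra.smul_single]
    simp

private theorem repB_coeff_mul_mon (f : R n) (u v : Wt n) :
    (f * mon v).coeff u = f.coeff (u - v) := by
  induction f using AddMonoidAlgebra.induction_linear with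
  | zero => rw [zero_mul, AddMonoidAlgebra.coeff_zero, Finsupp.zero_apply, Finsupp.zero_apply]
  | add x y hx hy =>
    rw [add_mul, AddMonoidAlgebra.coeff_add, Finsupp.add_apply, hx, hy, AddMonoidAlgebra.coeff_add,
      Finsupp.add_apply]
  | single w z =>
    classical
    rw [mon, AddMonoidAlgebra.single_mul_single, AddMonoidAlgebra.coeff_single,
      AddMonoidAlgebra.coeff_single, Finsupp.single_apply, Finsupp.single_apply, mul_one]
    by_cases h : w + v = u
    · rw [if_pos h, if_pos (by rw [← h, add_sub_cancel_right])]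
    · rw [if_neg h, if_neg (fun h1 => h (by rw [h1, sub_add_cancel]))]

/-- `(f * alt K M).coeff (K, M') = ∑_g sgn g * f.coeff ((K, M') - act g (K, M))`: `alt_eq_sum`, and
`(f * mon v).coeff u = f.coeff (u - v)` (`AddMonoidAlgebra.mul_single_apply`-like). -/
theorem coeff_mul_alt (f : R n) (K : ℤ) (M M' : Fin n → ℤ) :
    (f * alt K M).coeff (K, M') = ∑ g : WG n, sgn g * f.coeff ((K, M') - act g (K, M)) := by
  rw [alt_eq_sum, Finset.mul_sum, AddMonoidAlgebra.coeff_sum, Finsupp.finsetSum_apply]
  refine Finset.sum_congr rfl fun g _ => ?_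
  rw [mul_smul_comm, AddMonoidAlgebra.coeff_smul_apply, smul_eq_mul, repB_coeff_mul_mon]

private theorem repB_sgn (g : WG n) : sgn g * sgn g = 1 := by
  unfold sgn
  rcases Int.units_eq_one_or (Equiv.Perm.sign g.1) with h | h <;>
    rcases neg_one_pow_eq_or ℤ g.2.card with h' | h' <;> rw [h, h'] <;> norm_num

private theorem repB_avg {f : R n} (hf : Inv0 f) (v v' : Wt n) (h : WG n) :
    ∑ g : WG n, sgn g * f.coeff (v' - act g v) =
      ∑ g : WG n, sgn h * sgn g * f.coeff (act h v' - act g v) := by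
  rw [← (B1a_mul_bijective h).sum_comp fun g => sgn h * sgn g * f.coeff (act h v' - act g v)]
  refine Finset.sum_congr rfl fun g _ => ?_
  rw [B1a_sgn_mul, B1a_act_mul, ← map_sub, hf.1.act]
  have h1 := repB_sgn h
  linear_combination (-(sgn g * f.coeff (v' - act g v))) * h1

private theorem repB_card {f : R n} (hf : Inv0 f) (v v' : Wt n) :
    (Fintype.card (WG n) : ℤ) * ∑ g : WG n, sgn g * f.coeff (v' - act g v) =
      ∑ h : WG n, ∑ g : WG n, sgn h * sgn g * f.coeff (act h v' - act g v) := by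
  have h1 : ∑ h : WG n, ∑ g : WG n, sgn h * sgn g * f.coeff (act h v' - act g v) =
      ∑ _h : WG n, ∑ g : WG n, sgn g * f.coeff (v' - act g v) :=
    Finset.sum_congr rfl fun h _ => (repB_avg hf v v' h).symm
  rw [h1, Finset.sum_const, Finset.card_univ, nsmul_eq_mul]

/-- Symmetry. By `coeff_mul_alt` the left side is `∑_g sgn g f ((K, M') - g (K, M))`. By invariance
(`IsCharacter.act`) `f (v' - g v) = f (h v' - (h g) v)` for every `h`, so `|W|` times the left side is the
sum over `h` and `g` of `sgn g f (h v' - (h g) v)`, and (substitute `g` by `h⁻¹ g`: `B1a_mul`,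
`B1a_act_mul`, `B1a_sgn_mul`, `B1a_mul_bijective`; `sgn h ^ 2 = 1`, `B1b_sgn`) this is
`∑_{h, g} sgn h sgn g f (h v' - g v)`, which is symmetric by `Inv0.neg_coeff`. -/
theorem coef_symm {f : R n} (hf : Inv0 f) (K : ℤ) (M M' : Fin n → ℤ) :
    (f * alt K M).coeff (K, M') = (f * alt K M').coeff (K, M) := by
  rw [coeff_mul_alt, coeff_mul_alt]
  have hc : (Fintype.card (WG n) : ℤ) ≠ 0 := by
    have h1 : 0 < Fintype.card (WG n) := Fintype.card_pos_iff.mpr ⟨(1, ∅)⟩
    exact_mod_cast h1.ne'
  refine mul_left_cancel₀ hc ?_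
  rw [repB_card hf, repB_card hf, Finset.sum_comm]
  refine Finset.sum_congr rfl fun g _ => Finset.sum_congr rfl fun h _ => ?_
  rw [← hf.neg_coeff, neg_sub]
  ring

/-- `mult (chi ν * chi μ) 0 = (chi ν * al μ).coeff (1, shf 0) = (chi ν * al 0).coeff (1, shf μ)` by
`chi_al` and `coef_symm`, and this is `mult (chi ν) μ`. -/
theorem orth (μ ν z : Dm n) (hz : z.1 = 0) : mult (chi μ * chi ν) z.1 = if μ = ν then 1 else 0 := by
  have h1 : mult (chi μ * chi ν) z.1 = mult (chi μ) ν.1 := by
    rw [mult, mul_assoc, chi_al, al, coef_symm (chi_inv0 μ), hz]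
    rfl
  rw [h1, mult_chi]
  by_cases h : μ = ν
  · rw [if_pos h, if_pos h.symm]
  · rw [if_neg h, if_neg (Ne.symm h)]

/-- The decomposition of an invariant element. -/
noncomputable def dec (f : R n) : Dm n →₀ ℤ :=
  open Classical in if h : Inv0 f then Classical.choose (span0 h) else 0

theorem dec_sum {f : R n} (hf : Inv0 f) : f = (dec f).sum fun μ a => a • chi μ := by
  rw [dec, dif_pos hf]
  exact (Classical.choose_spec (span0 hf)).1

theorem dec_apply {f : R n} (hf : Inv0 f) (μ : Dm n) : dec f μ = mult f μ.1 := by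
  rw [dec, dif_pos hf]
  exact (Classical.choose_spec (span0 hf)).2 μ

/-- The trivial weight. -/
def dz (n : ℕ) : Dm n := ⟨0, fun _ _ _ => le_rfl, fun _ => le_rfl⟩

/-- The ring of the characters of `SO_{2n+1}`. -/
theorem exists_basDm (n : ℕ) : ∃ b : Bas (Dm n), b.z = dz n ∧
    ∀ μ ν, b.N μ ν = dec (chi μ * chi ν) := by
  classical
  refine ⟨{ z := dz n
            N := fun μ ν => dec (chi μ * chi ν)
            one_mul := ?_
            orth_self := ?_
            orth_ne := ?_ }, rfl, fun μ ν => rfl⟩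
  · intro ν
    rw [chi_zero (dz n) rfl, one_mul]
    ext κ
    rw [dec_apply (chi_inv0 ν), mult_chi, Finsupp.single_apply]
    by_cases h : κ = ν
    · rw [if_pos h, if_pos h.symm]
    · rw [if_neg h, if_neg (Ne.symm h)]
  · intro μ
    rw [dec_apply ((chi_inv0 μ).mul (chi_inv0 μ)), orth μ μ (dz n) rfl, if_pos rfl]
  · intro μ ν h
    rw [dec_apply ((chi_inv0 μ).mul (chi_inv0 ν)), orth μ ν (dz n) rfl, if_neg h]

noncomputable def basDm (n : ℕ) : Bas (Dm n) := Classical.choose (exists_basDm n)

theorem basDm_z (n : ℕ) : (basDm n).z = dz n := (Classical.choose_spec (exists_basDm n)).1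

/-- From `dec_apply`, `Inv0.mul`, `chi_inv0`. -/
theorem basDm_N (μ ν κ : Dm n) : (basDm n).N μ ν κ = mult (chi μ * chi ν) κ.1 := by
  rw [basDm, (Classical.choose_spec (exists_basDm n)).2 μ ν,
    dec_apply ((chi_inv0 μ).mul (chi_inv0 ν))]

/-- From `dec_sum`. -/
theorem basDm_mul (μ ν : Dm n) :
    chi μ * chi ν = ((basDm n).N μ ν).sum fun κ a => a • chi κ := by
  rw [basDm, (Classical.choose_spec (exists_basDm n)).2 μ ν]
  exact dec_sum ((chi_inv0 μ).mul (chi_inv0 ν))

/-- Commutativity of the ring. -/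
theorem basDm_comm (μ ν κ : Dm n) : (basDm n).N μ ν κ = (basDm n).N ν μ κ := by
  rw [basDm_N, basDm_N, mul_comm]

/-- `N μ ν κ = (chi ν * al μ).coeff (1, shf κ)`, then `coef_symm`: `= (chi ν * al κ).coeff (1, shf μ)`. -/
theorem basDm_rot (μ ν κ : Dm n) : (basDm n).N μ ν κ = (basDm n).N κ ν μ := by
  have h1 : ∀ a b c : Dm n, mult (chi a * chi b) c.1 = (chi b * al a.1).coeff (1, shf c.1) := by
    intro a b c
    rw [mult, mul_comm (chi a), mul_assoc, chi_al]
  rw [basDm_N, basDm_N, h1, h1, al, coef_symm (chi_inv0 ν)]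
  rfl

/-- For invariant `f`: `f * alt K M = ∑_w f_w alt K (M + w)`. From `alt_eq_sum`:
`f * alt K M = ∑_g sgn g ∑_w f_w mon (w + g (K, M))`, replace `w` by `g w` (`IsCharacter.act`, `act g` is
bijective), `g w + g (K, M) = g (K, M + w.2)` as `w.1 = 0` for the `w` in the support. -/
theorem mul_alt {f : R n} (hf : Inv0 f) (K : ℤ) (M : Fin n → ℤ) :
    f * alt K M = f.coeff.sum fun w a => a • alt K (M + w.2) := by
  classical
  have h1 : ∀ g : WG n, f * mon (act g (K, M)) =
      ∑ w ∈ f.coeff.support, f.coeff w • (mon (act g (K, M + w.2)) : R n) := by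
    intro g
    rw [repB_mul_mon, Finsupp.sum]
    symm
    refine Finset.sum_bij (fun w _ => act g w) ?_ ?_ ?_ ?_
    · intro w hw
      rw [Finsupp.mem_support_iff] at hw ⊢
      rwa [hf.1.act]
    · intro v _ w _ h
      exact act_injective g h
    · intro u hu
      obtain ⟨v, rfl⟩ := act_surjective g u
      refine ⟨v, ?_, rfl⟩
      rw [Finsupp.mem_support_iff] at hu ⊢
      rwa [hf.1.act] at hu
    · intro w hw
      have hw0 := hf.2 w (Finsupp.mem_support_iff.1 hw)
      have h2 : ((K, M + w.2) : Wt n) = w + (K, M) := by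
        refine Prod.ext ?_ ?_
        · show K = w.1 + K
          rw [hw0, zero_add]
        · exact add_comm _ _
      rw [hf.1.act, h2, map_add]
  rw [alt_eq_sum, Finset.mul_sum, Finsupp.sum]
  have h2 : ∀ g : WG n, f * (sgn g • (mon (act g (K, M)) : R n)) =
      ∑ w ∈ f.coeff.support, f.coeff w • (sgn g • (mon (act g (K, M + w.2)) : R n)) := by
    intro g
    rw [mul_smul_comm, h1, Finset.smul_sum]
    exact Finset.sum_congr rfl fun w _ => smul_comm _ _ _
  rw [Finset.sum_congr rfl fun g _ => h2 g, Finset.sum_comm]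
  refine Finset.sum_congr rfl fun w _ => ?_
  rw [alt_eq_sum, Finset.smul_sum]

end Pool.Agent.EEAP
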