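import Mathlib

/-!
# A positive integral functional on a commutative ring (MP_eea520_nt, theorem P)
-/

set_option autoImplicit false

namespace Pool.Agent.EEAP

variable {B : Type} [CommRing B] {E : B →+ ℤ}

/-- `f = g` almost everywhere. -/
def Ae (E : B →+ ℤ) (f g : B) : Prop := ∀ h, E (f * h) = E (g * h)

theorem Ae.refl (f : B) : Ae E f f := fun _ => rfl

theorem Ae.symm {f g : B} (h : Ae E f g) : Ae E g f := fun k => (h k).symm

theorem Ae.trans {f g k : B} (h : Ae E f g) (h' : Ae E g k) : Ae E f k :=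
  fun l => (h l).trans (h' l)

theorem Ae.add {f g f' g' : B} (h : Ae E f g) (h' : Ae E f' g') : Ae E (f + f') (g + g') := by
  intro k
  rw [add_mul, add_mul, map_add, map_add, h k, h' k]

theorem Ae.neg {f g : B} (h : Ae E f g) : Ae E (-f) (-g) := by
  intro k
  rw [neg_mul, neg_mul, map_neg, map_neg, h k]

theorem Ae.smul {f g : B} (a : ℤ) (h : Ae E f g) : Ae E (a • f) (a • g) := by
  intro k
  rw [smul_mul_assoc, smul_mul_assoc, map_zsmul, map_zsmul, h k]

/-- `E (f f' h) = E (g f' h) = E (g g' h)`. -/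
theorem Ae.mul {f g f' g' : B} (h : Ae E f g) (h' : Ae E f' g') : Ae E (f * f') (g * g') := by
  intro k
  have h1 : f * f' * k = f * (f' * k) := by ring
  have h2 : g * (f' * k) = f' * (g * k) := by ring
  have h3 : g' * (g * k) = g * g' * k := by ring
  rw [h1, h (f' * k), h2, h' (g * k), h3]

theorem Ae.sum {ι : Type} (s : Finset ι) {f g : ι → B} (h : ∀ i ∈ s, Ae E (f i) (g i)) :
    Ae E (∑ i ∈ s, f i) (∑ i ∈ s, g i) := by
  classical
  induction s using Finset.induction_on with
  | empty => exact Ae.refl _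
  | insert a s ha ih =>
    rw [Finset.sum_insert ha, Finset.sum_insert ha]
    exact (h a (Finset.mem_insert_self a s)).add
      (ih fun i hi => h i (Finset.mem_insert_of_mem hi))

theorem Ae.prod {ι : Type} (s : Finset ι) {f g : ι → B} (h : ∀ i ∈ s, Ae E (f i) (g i)) :
    Ae E (∏ i ∈ s, f i) (∏ i ∈ s, g i) := by
  classical
  induction s using Finset.induction_on with
  | empty => exact Ae.refl _
  | insert a s ha ih =>
    rw [Finset.prod_insert ha, Finset.prod_insert ha]
    exact (h a (Finset.mem_insert_self a s)).mul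
      (ih fun i hi => h i (Finset.mem_insert_of_mem hi))

/-- Take `h = 1`. -/
theorem Ae.val {f g : B} (h : Ae E f g) : E f = E g := by
  have := h 1
  rwa [mul_one, mul_one] at this

private theorem absA_quad (a : ℤ) (g h : B) :
    E ((a • g + h) * (a • g + h)) = a ^ 2 * E (g * g) + 2 * a * E (g * h) + E (h * h) := by
  have h1 : (a • g + h) * (a • g + h) = (a ^ 2) • (g * g) + (2 * a) • (g * h) + h * h := by
    simp only [zsmul_eq_mul]
    push_cast
    ring
  rw [h1, map_add, map_add, map_zsmul, map_zsmul, smul_eq_mul, smul_eq_mul]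

/-- If `E (g ^ 2) = 0` then `0 ≤ E ((a g + h) ^ 2) = 2 a E (g h) + E (h ^ 2)` for all integers `a`, so
`E (g h) = 0`. -/
theorem cs_zero (hE : ∀ f, 0 ≤ E (f * f)) {g : B} (hg : E (g * g) = 0) (h : B) : E (g * h) = 0 := by
  have key : ∀ a : ℤ, 0 ≤ 2 * a * E (g * h) + E (h * h) := by
    intro a
    have h1 := hE (a • g + h)
    rw [absA_quad, hg, mul_zero, zero_add] at h1
    exact h1
  have hh := hE h
  have h1 := key (-(E (h * h) + 1) * E (g * h))
  have h2 : 2 * (-(E (h * h) + 1) * E (g * h)) * E (g * h)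
      = -(2 * (E (h * h) + 1) * (E (g * h)) ^ 2) := by ring
  rw [h2] at h1
  by_contra hne
  have h3 : 1 ≤ (E (g * h)) ^ 2 := by
    have : 0 < (E (g * h)) ^ 2 := by positivity
    linarith
  nlinarith

theorem ae_iff (hE : ∀ f, 0 ≤ E (f * f)) {f g : B} : Ae E f g ↔ E ((f - g) * (f - g)) = 0 := by
  constructor
  · intro h
    rw [sub_mul, map_sub, h (f - g), sub_self]
  · intro h k
    have h1 := cs_zero hE h k
    rw [sub_mul, map_sub] at h1
    linarith

/-- From `E ((f - g) ^ 2) ≥ 0` and `E ((f + g) ^ 2) ≥ 0`. -/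
theorem abs_le_one (hE : ∀ f, 0 ≤ E (f * f)) {f g : B} (hf : E (f * f) = 1) (hg : E (g * g) = 1) :
    |E (f * g)| ≤ 1 := by
  have h1 := hE ((1 : ℤ) • f + g)
  have h2 := hE ((-1 : ℤ) • f + g)
  rw [absA_quad, hf, hg] at h1 h2
  rw [abs_le]
  constructor <;> linarith

/-- If `e = E (f g)` is not zero, then `e = ± 1` and `E ((f - e g) ^ 2) = 1 - 2 e ^ 2 + e ^ 2 = 0`. -/
theorem matched_ae (hE : ∀ f, 0 ≤ E (f * f)) {f g : B} (hf : E (f * f) = 1) (hg : E (g * g) = 1)
    (h : E (f * g) ≠ 0) : (E (f * g) = 1 ∨ E (f * g) = -1) ∧ Ae E f (E (f * g) • g) := by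
  have h1 := abs_le.1 (abs_le_one hE hf hg)
  have h2 : E (f * g) = 1 ∨ E (f * g) = -1 := by omega
  refine ⟨h2, (ae_iff hE).2 ?_⟩
  set e := E (f * g) with he
  have h3 : (f - e • g) * (f - e • g) = ((-e) • g + f) * ((-e) • g + f) := by
    rw [neg_smul]; ring
  have h4 : E (g * f) = e := by rw [mul_comm, ← he]
  rw [h3, absA_quad, hg, hf, h4]
  rcases h2 with h2 | h2 <;> rw [h2] <;> norm_num

end Pool.Agent.EEAP
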