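import Pool.Agent.W_eea520p_h56.AbsA

/-!
# Families with structure constants, and matchings of two families (MP_eea520_nt, theorem P)
-/

set_option autoImplicit false

namespace Pool.Agent.EEAP

/-- Structure constants of a ring with an orthonormal basis (like the irreducible characters). -/
structure Bas (I : Type) where
  /-- the trivial character -/
  z : I
  /-- `N i j k` is the multiplicity of `k` in `i * j` -/
  N : I → I → I →₀ ℤ
  one_mul : ∀ i, N z i = Finsupp.single i 1
  orth_self : ∀ i, N i i z = 1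
  orth_ne : ∀ i j, i ≠ j → N i j z = 0

/-- A realisation `V` of the basis in a ring with a functional `E` such that all nontrivial members
have the mean value zero. -/
structure Fam {B : Type} [CommRing B] (E : B →+ ℤ) {I : Type} (b : Bas I) (V : I → B) : Prop where
  one : V b.z = 1
  mul : ∀ i j, V i * V j = (b.N i j).sum fun k a => a • V k
  mean_one : E 1 = 1
  mean : ∀ i, i ≠ b.z → E (V i) = 0

variable {B : Type} [CommRing B] {E : B →+ ℤ} {I J : Type} {b : Bas I} {c : Bas J} {V : I → B}
  {W : J → B}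

private theorem absB_sum_single (f : I →₀ ℤ) (φ : I → ℤ) (k : I) (h1 : φ k = 1)
    (h0 : ∀ l, l ≠ k → φ l = 0) : (f.sum fun l a => a * φ l) = f k := by
  unfold Finsupp.sum
  rw [Finset.sum_eq_single k]
  · show _ * _ = _
    rw [h1, mul_one]
  · intro l _ hl
    show _ * _ = _
    rw [h0 l hl, mul_zero]
  · intro hk
    show _ * _ = _
    rw [Finsupp.notMem_support_iff.1 hk, zero_mul]

private theorem absB_map (f : I →₀ ℤ) (x : B) :
    E ((f.sum fun k a => a • V k) * x) = f.sum fun k a => a * E (V k * x) := by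
  unfold Finsupp.sum
  rw [Finset.sum_mul, map_sum]
  refine Finset.sum_congr rfl (fun k _ => ?_)
  rw [smul_mul_assoc, map_zsmul, smul_eq_mul]

private theorem absB_pair (h : Fam E b V) (i j : I) : E (V i * V j) = b.N i j b.z := by
  have h1 : E (V i * V j) = E (((b.N i j).sum fun k a => a • V k) * 1) := by
    rw [mul_one, ← h.mul]
  rw [h1, absB_map]
  refine absB_sum_single _ _ _ ?_ ?_
  · rw [h.one, mul_one, h.mean_one]
  · intro l hl
    rw [mul_one, h.mean l hl]

/-- `E (V i V j) = N i j z` by `mul`, `mean`, `mean_one` (only the term `k = z` survives). -/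
theorem Fam.mul_self (h : Fam E b V) (i : I) : E (V i * V i) = 1 := by
  rw [absB_pair h, b.orth_self]

theorem Fam.mul_ne (h : Fam E b V) {i j : I} (hij : i ≠ j) : E (V i * V j) = 0 := by
  rw [absB_pair h, b.orth_ne i j hij]

/-- Expand `V i V j` and use `mul_self`, `mul_ne`. -/
theorem Fam.triple (h : Fam E b V) (i j k : I) : E (V i * V j * V k) = b.N i j k := by
  rw [h.mul i j, absB_map]
  exact absB_sum_single _ _ _ (h.mul_self k) (fun l hl => h.mul_ne hl)

/-- From `Fam.triple`. -/
theorem Fam.comm (h : Fam E b V) (i j k : I) : b.N i j k = b.N j i k := by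
  rw [← h.triple, ← h.triple, mul_comm (V i) (V j)]

/-- From `Fam.triple`. -/
theorem Fam.rot (h : Fam E b V) (i j k : I) : b.N i j k = b.N j k i := by
  rw [← h.triple, ← h.triple]
  congr 1
  ring

/-- Expand both products and use `mul_self`, `mul_ne`. -/
theorem Fam.quad (h : Fam E b V) (i j k l : I) :
    E (V i * V j * (V k * V l)) = (b.N i j).sum fun t a => a * b.N k l t := by
  rw [h.mul i j, absB_map]
  refine Finset.sum_congr rfl (fun t _ => ?_)
  have h1 : V t * (V k * V l) = V k * V l * V t := by ring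
  show _ * _ = _ * _
  rw [h1, h.triple]

/-- From `Fam.quad`. -/
theorem Fam.four (h : Fam E b V) (i : I) :
    E (V i * V i * (V i * V i)) = (b.N i i).sum fun _ a => a ^ 2 := by
  rw [h.quad]
  refine Finset.sum_congr rfl (fun t _ => ?_)
  show _ * _ = _ ^ 2
  rw [sq]

/-- If `E (V i W j) = e ≠ 0` then `V i = e W j` a.e. (`matched_ae`), so `E (V i V i') = e E (W j V i')`,
and the left side is zero if `i ≠ i'`. -/
theorem match_left (hE : ∀ f, 0 ≤ E (f * f)) (h : Fam E b V) (h' : Fam E c W) {i i' : I} {j : J}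
    (h1 : E (V i * W j) ≠ 0) (h2 : E (V i' * W j) ≠ 0) : i = i' := by
  by_contra hne
  have h3 := (matched_ae hE (h.mul_self i) (h'.mul_self j) h1).2 (V i')
  rw [h.mul_ne hne, smul_mul_assoc, map_zsmul, smul_eq_mul, mul_comm (W j) (V i')] at h3
  exact mul_ne_zero h1 h2 h3.symm

theorem match_right (hE : ∀ f, 0 ≤ E (f * f)) (h : Fam E b V) (h' : Fam E c W) {i : I} {j j' : J}
    (h1 : E (V i * W j) ≠ 0) (h2 : E (V i * W j') ≠ 0) : j = j' := by
  rw [mul_comm] at h1 h2
  exact match_left hE h' h h1 h2

/-- The values of a matching are `± 1`, from `matched_ae`. -/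
theorem match_sign (hE : ∀ f, 0 ≤ E (f * f)) (h : Fam E b V) (h' : Fam E c W) {i : I} {j : J}
    (h1 : E (V i * W j) ≠ 0) :
    (E (V i * W j) = 1 ∨ E (V i * W j) = -1) ∧ Ae E (V i) (E (V i * W j) • W j) :=
  matched_ae hE (h.mul_self i) (h'.mul_self j) h1

/-- `E (V i V i' W j'') = E (e W j e' W j' W j'') = e e' N j j' j'' ≠ 0` (`Ae.mul`, `Fam.triple` for
`W`), and `V i V i' = ∑ N i i' k V k`; so some `k = i''` has `N i i' i'' ≠ 0` and
`E (V i'' W j'') ≠ 0`, it is unique by `match_left`, and the sum has only this term. -/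
theorem match_closure (hE : ∀ f, 0 ≤ E (f * f)) (h : Fam E b V) (h' : Fam E c W) {i i' : I}
    {j j' j'' : J} (h1 : E (V i * W j) ≠ 0) (h2 : E (V i' * W j') ≠ 0) (h3 : c.N j j' j'' ≠ 0) :
    ∃ i'', E (V i'' * W j'') ≠ 0 ∧
      b.N i i' i'' * E (V i'' * W j'') = E (V i * W j) * E (V i' * W j') * c.N j j' j'' := by
  have e1 := Ae.mul (match_sign hE h h' h1).2 (match_sign hE h h' h2).2
  have e2 : E (V i * V i' * W j'') =
      E (V i * W j) * E (V i' * W j') * c.N j j' j'' := by
    rw [e1 (W j''), ← h'.triple j j' j'']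
    have e3 : E (V i * W j) • W j * E (V i' * W j') • W j' * W j'' =
        (E (V i * W j) * E (V i' * W j')) • (W j * W j' * W j'') := by
      simp only [zsmul_eq_mul, Int.cast_mul]
      ring
    rw [e3, map_zsmul, smul_eq_mul]
  have e4 : E (V i * V i' * W j'') = (b.N i i').sum fun k a => a * E (V k * W j'') := by
    rw [h.mul i i', absB_map]
  have e5 : E (V i * W j) * E (V i' * W j') * c.N j j' j'' ≠ 0 :=
    mul_ne_zero (mul_ne_zero h1 h2) h3
  have e6 : ∃ k, E (V k * W j'') ≠ 0 := by
    by_contra hno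
    push Not at hno
    apply e5
    rw [← e2, e4]
    exact Finset.sum_eq_zero (fun k _ => by
      show _ * _ = _
      rw [hno k, mul_zero])
  obtain ⟨k, hk⟩ := e6
  refine ⟨k, hk, ?_⟩
  rw [← e2, e4]
  unfold Finsupp.sum
  rw [Finset.sum_eq_single k]
  · intro l _ hl
    have e7 : E (V l * W j'') = 0 := by
      by_contra hne
      exact hl (match_left hE h h' hne hk)
    show _ * _ = _
    rw [e7, mul_zero]
  · intro hns
    show _ * _ = _
    rw [Finsupp.notMem_support_iff.1 hns, zero_mul]

end Pool.Agent.EEAP
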