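import Pool.Agent.W_eea520p_h56.AbsB

/-!
# Products of families (MP_eea520_nt, theorem P)
-/

set_option autoImplicit false

namespace Pool.Agent.EEAP

variable {κ : Type} [Fintype κ] [DecidableEq κ] {I : κ → Type}

/-- The structure constants of the product. -/
noncomputable def piN (b : ∀ k, Bas (I k)) (i j : ∀ k, I k) : (∀ k, I k) →₀ ℤ :=
  Finsupp.onFinset (Fintype.piFinset fun k => ((b k).N (i k) (j k)).support)
    (fun l => ∏ k, (b k).N (i k) (j k) (l k)) (fun l hl => by
      rw [Fintype.mem_piFinset]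
      intro k
      rw [Finsupp.mem_support_iff]
      exact Finset.prod_ne_zero_iff.1 hl k (Finset.mem_univ k))

theorem piN_apply (b : ∀ k, Bas (I k)) (i j l : ∀ k, I k) :
    piN b i j l = ∏ k, (b k).N (i k) (j k) (l k) := rfl

/-- Both sides agree at every `l`: `∏ k, single (i k) 1 (l k)` is `1` if `l = i` and `0` otherwise. -/
theorem piN_one (b : ∀ k, Bas (I k)) (i : ∀ k, I k) :
    piN b (fun k => (b k).z) i = Finsupp.single i 1 := by
  classical
  ext l
  rw [piN_apply, Finsupp.single_apply]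
  by_cases h : i = l
  · rw [if_pos h]
    refine Finset.prod_eq_one fun k _ => ?_
    rw [(b k).one_mul, h, Finsupp.single_eq_same]
  · rw [if_neg h]
    obtain ⟨k, hk⟩ := Function.ne_iff.1 h
    refine Finset.prod_eq_zero (Finset.mem_univ k) ?_
    rw [(b k).one_mul, Finsupp.single_apply, if_neg hk]

/-- The product of the bases. -/
noncomputable def Bas.pi (b : ∀ k, Bas (I k)) : Bas (∀ k, I k) where
  z := fun k => (b k).z
  N := piN b
  one_mul := piN_one b
  orth_self := fun i => by
    rw [piN_apply]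
    exact Finset.prod_eq_one fun k _ => (b k).orth_self (i k)
  orth_ne := fun i j hij => by
    rw [piN_apply]
    obtain ⟨k, hk⟩ := Function.ne_iff.1 hij
    exact Finset.prod_eq_zero (Finset.mem_univ k) ((b k).orth_ne _ _ hk)

variable {B : Type} [CommRing B] {E : B →+ ℤ}

private theorem absP_sum {M : Type} [AddCommMonoid M] (b : ∀ k, Bas (I k)) (i j : ∀ k, I k)
    (φ : (∀ k, I k) → ℤ → M) (hφ : ∀ l, φ l 0 = 0) :
    (piN b i j).sum φ =
      ∑ l ∈ Fintype.piFinset (fun k => ((b k).N (i k) (j k)).support),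
        φ l (∏ k, (b k).N (i k) (j k) (l k)) := by
  unfold Finsupp.sum
  refine Finset.sum_subset ?_ ?_
  · intro l hl
    rw [Finsupp.mem_support_iff, piN_apply] at hl
    rw [Fintype.mem_piFinset]
    intro k
    rw [Finsupp.mem_support_iff]
    exact Finset.prod_ne_zero_iff.1 hl k (Finset.mem_univ k)
  · intro l _ hl
    rw [Finsupp.notMem_support_iff.1 hl, hφ]

/-- The product of the families, if they are independent. `mul`: `∏ (V i_k V j_k) = ∏ ∑_l N V l` is
the sum over the `l` in `Fintype.piFinset` of the products (`Finset.prod_univ_sum`); the support of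
`piN b i j` is contained in this set (use `Finsupp.sum` over a larger set,
`Finsupp.sum_of_support_subset` or `Finsupp.onFinset_sum`), `Finset.prod_smul`-like rearrangement. -/
theorem Fam.pi {b : ∀ k, Bas (I k)} {V : ∀ k, I k → B} (hV : ∀ k, Fam E (b k) (V k))
    (h1 : E 1 = 1) (hind : ∀ i : ∀ k, I k, i ≠ (fun k => (b k).z) → E (∏ k, V k (i k)) = 0) :
    Fam E (Bas.pi b) (fun i => ∏ k, V k (i k)) := by
  refine ⟨Finset.prod_eq_one fun k _ => (hV k).one, ?_, h1, hind⟩
  intro i j
  have e1 : (∏ k, V k (i k)) * (∏ k, V k (j k)) =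
      ∏ k, ∑ l ∈ ((b k).N (i k) (j k)).support, (b k).N (i k) (j k) l • V k l := by
    rw [← Finset.prod_mul_distrib]
    exact Finset.prod_congr rfl fun k _ => (hV k).mul (i k) (j k)
  show (∏ k, V k (i k)) * (∏ k, V k (j k)) = (piN b i j).sum fun l a => a • ∏ k, V k (l k)
  rw [e1, Finset.prod_univ_sum,
    absP_sum b i j (fun l a => a • ∏ k, V k (l k)) (fun l => zero_smul ℤ _)]
  refine Finset.sum_congr rfl fun l _ => ?_
  simp only [zsmul_eq_mul, Finset.prod_mul_distrib, Int.cast_prod]

/-- `Finset.prod_univ_sum` again. -/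
theorem four_pi (b : ∀ k, Bas (I k)) (i : ∀ k, I k) :
    ((piN b i i).sum fun _ a => a ^ 2) = ∏ k, ((b k).N (i k) (i k)).sum fun _ a => a ^ 2 := by
  rw [absP_sum b i i (fun _ a => a ^ 2) (fun l => by norm_num)]
  unfold Finsupp.sum
  rw [Finset.prod_univ_sum]
  refine Finset.sum_congr rfl fun l _ => ?_
  rw [Finset.prod_pow]

end Pool.Agent.EEAP
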