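import Pool.Agent.W_eea520p_h56.Defs
import Pool.Agent.W_eea520_n.E3

/-!
# A tuple of systems as one system (MP_eea520_nt, theorem P)
-/

set_option autoImplicit false

namespace Pool.Agent.EEAP

open Filter Topology Pool.Agent.EEA520 Pool.Agent.EEAN

variable {r : ℕ} {n : Fin r → ℕ}

/-- All the parameters `c_i`, `x_{i, j}` of the tuple. -/
def catT (t : (i : Fin r) → Torus (n i)) : Torus (∑ i, (n i + 1)) where
  c := 1
  x a := (Fin.cons (t (finSigmaFinEquiv.symm a).1).c (t (finSigmaFinEquiv.symm a).1).x :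
    Fin (n (finSigmaFinEquiv.symm a).1 + 1) → ℂˣ) (finSigmaFinEquiv.symm a).2

/-- All the exponents. -/
def catW (w : (i : Fin r) → Wt (n i)) : Wt (∑ i, (n i + 1)) :=
  (0, fun a => (Fin.cons (w (finSigmaFinEquiv.symm a).1).1 (w (finSigmaFinEquiv.symm a).1).2 :
    Fin (n (finSigmaFinEquiv.symm a).1 + 1) → ℤ) (finSigmaFinEquiv.symm a).2)

/-- The product over `a` is (`finSigmaFinEquiv`, `Fintype.prod_equiv`, `Fintype.prod_sigma`) the product
over `i` of the products over `Fin (n i + 1)` (`Fin.prod_univ_succ`, `Fin.cons_zero`,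
`Fin.cons_succ`). -/
theorem ev_cat (t : (i : Fin r) → Torus (n i)) (w : (i : Fin r) → Wt (n i)) :
    (catT t).ev (catW w) = ∏ i, (t i).ev (w i) := by
  unfold Torus.ev
  have h0 : (catT t).c ^ (catW w).1 = 1 := by
    show (1 : ℂˣ) ^ (0 : ℤ) = 1
    simp
  rw [h0, one_mul]
  have h1 : ∀ i, (t i).c ^ (w i).1 * ∏ j, (t i).x j ^ (w i).2 j =
      ∏ b : Fin (n i + 1), (Fin.cons (t i).c (t i).x : Fin (n i + 1) → ℂˣ) b ^
        (Fin.cons (w i).1 (w i).2 : Fin (n i + 1) → ℤ) b := by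
    intro i
    rw [Fin.prod_univ_succ]
    simp only [Fin.cons_zero, Fin.cons_succ]
  rw [Finset.prod_congr rfl fun i _ => h1 i]
  rw [← Fintype.prod_sigma' (fun i (b : Fin (n i + 1)) =>
    (Fin.cons (t i).c (t i).x : Fin (n i + 1) → ℂˣ) b ^
        (Fin.cons (w i).1 (w i).2 : Fin (n i + 1) → ℤ) b)]
  exact Fintype.prod_equiv finSigmaFinEquiv.symm _ _ fun a => rfl

theorem catW_injective : Function.Injective (catW (r := r) (n := n)) := by
  intro v w h
  have h2 : ∀ (i : Fin r) (b : Fin (n i + 1)),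
      (Fin.cons (v i).1 (v i).2 : Fin (n i + 1) → ℤ) b =
        (Fin.cons (w i).1 (w i).2 : Fin (n i + 1) → ℤ) b := by
    have h3 : ∀ x : (Σ i : Fin r, Fin (n i + 1)),
        (Fin.cons (v x.1).1 (v x.1).2 : Fin (n x.1 + 1) → ℤ) x.2 =
          (Fin.cons (w x.1).1 (w x.1).2 : Fin (n x.1 + 1) → ℤ) x.2 := by
      intro x
      have h4 := congrFun (congrArg Prod.snd h) (finSigmaFinEquiv x)
      simp only [catW] at h4
      rw [Equiv.symm_apply_apply] at h4
      exact h4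
    intro i b
    exact h3 ⟨i, b⟩
  funext i
  apply Prod.ext
  · have h3 := h2 i 0
    rwa [Fin.cons_zero, Fin.cons_zero] at h3
  · funext j
    have h3 := h2 i j.succ
    rwa [Fin.cons_succ, Fin.cons_succ] at h3

/-- The product of the multiplicities. -/
noncomputable def prodM (m : (i : Fin r) → Wt (n i) →₀ ℤ) : ((i : Fin r) → Wt (n i)) →₀ ℤ :=
  Finsupp.onFinset (Fintype.piFinset fun i => (m i).support) (fun w => ∏ i, m i (w i))
    (fun w hw => by
      rw [Fintype.mem_piFinset]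
      intro i
      rw [Finsupp.mem_support_iff]
      exact Finset.prod_ne_zero_iff.1 hw i (Finset.mem_univ i))

theorem AnA_support (m : (i : Fin r) → Wt (n i) →₀ ℤ) :
    (prodM m).support = Fintype.piFinset fun i => (m i).support := by
  ext w
  rw [Finsupp.mem_support_iff, Fintype.mem_piFinset]
  show (∏ i, m i (w i)) ≠ 0 ↔ _
  rw [Finset.prod_ne_zero_iff]
  constructor
  · intro h i
    exact Finsupp.mem_support_iff.2 (h i (Finset.mem_univ i))
  · intro h i _
    exact Finsupp.mem_support_iff.1 (h i)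

/-- The multiplicities on the weights of the tuple. -/
noncomputable def catM (m : (i : Fin r) → Wt (n i) →₀ ℤ) : Wt (∑ i, (n i + 1)) →₀ ℤ :=
  Finsupp.mapDomain catW (prodM m)

/-- `Finsupp.prod_mapDomain_index_inj`, `ev_cat`, and the support of `prodM m` is the `piFinset`
(`Finset.prod_ne_zero_iff`). -/
theorem factor_cat (t : (i : Fin r) → Torus (n i)) (m : (i : Fin r) → Wt (n i) →₀ ℤ) (q : ℂ) :
    (catT t).factor (catM m) q = factorP t m q := by
  unfold Torus.factor factorP catM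
  rw [Finsupp.prod_mapDomain_index_inj catW_injective]
  unfold Finsupp.prod
  rw [AnA_support]
  refine Finset.prod_congr rfl fun w _ => ?_
  show (1 - (((catT t).ev (catW w) : ℂˣ) : ℂ) * q) ^ (-(∏ i, m i (w i))) = _
  rw [ev_cat, Units.coe_prod]

/-- The system of the tuple. -/
def cat (π : (i : Fin r) → GSys (n i)) : GSys (∑ i, (n i + 1)) := fun p => catT fun i => π i p

theorem tempered_cat {π : (i : Fin r) → GSys (n i)} (hπ : ∀ i, Tempered (π i)) : Tempered (cat π) := by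
  intro p
  refine ⟨?_, fun a => ?_⟩
  · show ‖((1 : ℂˣ) : ℂ)‖ = 1
    simp
  · have h3 : ∀ x : (Σ i : Fin r, Fin (n i + 1)),
        ‖(((Fin.cons (π x.1 p).c (π x.1 p).x : Fin (n x.1 + 1) → ℂˣ) x.2 : ℂˣ) : ℂ)‖ = 1 := by
      rintro ⟨i, b⟩
      refine Fin.cases ?_ (fun j => ?_) b
      · rw [Fin.cons_zero]
        exact (hπ i p).1
      · rw [Fin.cons_succ]
        exact (hπ i p).2 j
    exact h3 (finSigmaFinEquiv.symm a)

theorem AnA_isL (π : (i : Fin r) → GSys (n i)) (m : (i : Fin r) → Wt (n i) →₀ ℤ) (s₀ : ℂ)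
    (g : ℂ → ℂ) : IsL (cat π) (catM m) s₀ g ↔ IsLP π m s₀ g := by
  unfold IsL IsLP
  have h : ∀ s : ℂ, (fun p : Pr => (cat π p).factor (catM m) (((p : ℕ) : ℂ) ^ (-s))) =
      fun p : Pr => factorP (fun i => π i p) m (((p : ℕ) : ℂ) ^ (-s)) := by
    intro s
    funext p
    exact factor_cat (fun i => π i p) m _
  simp only [h]

theorem poleOrder_cat (π : (i : Fin r) → GSys (n i)) (m : (i : Fin r) → Wt (n i) →₀ ℤ) (s₀ : ℂ)
    (k : ℤ) : PoleOrder (cat π) (catM m) s₀ k ↔ PoleOrderP π m s₀ k := by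
  unfold PoleOrder PoleOrderP
  simp only [AnA_isL]

theorem meroAt_cat (π : (i : Fin r) → GSys (n i)) (m : (i : Fin r) → Wt (n i) →₀ ℤ) (s₀ : ℂ) :
    MeroAt (cat π) (catM m) s₀ ↔ MeroAtP π m s₀ := by
  unfold MeroAt MeroAtP
  simp only [AnA_isL]

/-- `Finsupp.sum_mapDomain_index_inj` (or `Finsupp.sum_mapDomain_index`), `ev_cat`, and
`Finset.prod_univ_sum` for the product of the sums. -/
theorem trc_cat (π : (i : Fin r) → GSys (n i)) (m : (i : Fin r) → Wt (n i) →₀ ℤ) (p : Pr) :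
    trc (cat π) (catM m) p = ∏ i, trc (π i) (m i) p := by
  unfold trc catM
  rw [Finsupp.sum_mapDomain_index_inj catW_injective]
  unfold Finsupp.sum
  rw [AnA_support, Finset.prod_univ_sum]
  refine Finset.sum_congr rfl fun w _ => ?_
  have h1 : (cat π p).ev (catW w) = ∏ i, (π i p).ev (w i) := ev_cat (fun i => π i p) w
  show (((∏ i, m i (w i) : ℤ)) : ℂ) * (((cat π p).ev (catW w) : ℂˣ) : ℂ) =
    ∏ i, ((m i (w i) : ℤ) : ℂ) * (((π i p).ev (w i) : ℂˣ) : ℂ)
  rw [h1, Units.coe_prod, Finset.prod_mul_distrib]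
  push_cast
  rfl

/-- `exists_poleOrder` for `cat π`. -/
theorem exists_poleOrderP {π : (i : Fin r) → GSys (n i)} (hπ : ∀ i, Tempered (π i))
    {m : (i : Fin r) → Wt (n i) →₀ ℤ} {t : ℝ} (h : MeroAtP π m (pt t)) :
    ∃ k : ℤ, PoleOrderP π m (pt t) k := by
  obtain ⟨k, hk⟩ := exists_poleOrder (tempered_cat hπ) ((meroAt_cat π m (pt t)).2 h)
  exact ⟨k, (poleOrder_cat π m (pt t) k).1 hk⟩

/-- `natMean_of` for `cat π`, `trc_cat`, `pt_zero`. -/
theorem natMean_cat {π : (i : Fin r) → GSys (n i)} (hπ : ∀ i, Tempered (π i))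
    {m : (i : Fin r) → Wt (n i) →₀ ℤ} {a : ℤ} (h0 : PoleOrderP π m 1 a)
    (h : ∀ t : ℝ, t ≠ 0 → PoleOrderP π m (pt t) 0) :
    NatMean (fun p => (∏ i, trc (π i) (m i) p).re) a := by
  have h1 : pt 0 = 1 := by
    unfold pt
    simp
  have h2 := natMean_of (tempered_cat hπ) (m := catM m) (a := a)
    (by rw [h1]; exact (poleOrder_cat π m 1 a).2 h0)
    (fun t ht => (poleOrder_cat π m (pt t) 0).2 (h t ht))
  simp only [trc_cat] at h2
  exact h2

end Pool.Agent.EEAP
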