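import Pool.Agent.W_eea520p_h56.AnA

/-!
# Orders of functions on the primes (MP_eea520_nt, theorem P)
-/

set_option autoImplicit false

namespace Pool.Agent.EEAP

open Filter Topology Pool.Agent.EEA520 Pool.Agent.EEAN Pool.Agent.EEAG1

/-- The sum of `f p / p ^ s` is `-k log (s - 1) + O(1)` for `s → 1`. -/
def Ord (f : Pr → ℝ) (k : ℤ) : Prop :=
  ∃ C : ℝ, ∀ᶠ s : ℝ in 𝓝[>] 1, |psm f s + (k : ℝ) * Real.log (s - 1)| ≤ C

/-- `meanP_of_log`. -/
theorem Ord.meanP {f : Pr → ℝ} {k : ℤ} (h : Ord f k) : MeanP f k := by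
  obtain ⟨C, hC⟩ := h
  exact meanP_of_log hC

theorem Ord.unique {f : Pr → ℝ} {k l : ℤ} (h : Ord f k) (h' : Ord f l) : k = l := by
  have h1 := h.meanP.unique h'.meanP
  exact_mod_cast h1

/-- `summable_psm`. -/
theorem Ord.add {f g : Pr → ℝ} {k l : ℤ} (hf : BdP f) (hg : BdP g) (h : Ord f k) (h' : Ord g l) :
    Ord (f + g) (k + l) := by
  obtain ⟨C, hC⟩ := h
  obtain ⟨D, hD⟩ := h'
  refine ⟨C + D, ?_⟩
  filter_upwards [hC, hD, self_mem_nhdsWithin] with s h1 h2 hs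
  have hs' : (1 : ℝ) < s := hs
  have e : psm (f + g) s = psm f s + psm g s := by
    unfold psm
    rw [← (summable_psm hf hs').tsum_add (summable_psm hg hs')]
    refine tsum_congr fun p => ?_
    rw [Pi.add_apply, add_mul]
  have e2 : psm (f + g) s + ((k + l : ℤ) : ℝ) * Real.log (s - 1) =
      (psm f s + (k : ℝ) * Real.log (s - 1)) + (psm g s + (l : ℝ) * Real.log (s - 1)) := by
    rw [e]
    push_cast
    ring
  rw [e2]
  exact (abs_add_le _ _).trans (add_le_add h1 h2)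

theorem Ord.neg {f : Pr → ℝ} {k : ℤ} (h : Ord f k) : Ord (-f) (-k) := by
  obtain ⟨C, hC⟩ := h
  refine ⟨C, ?_⟩
  filter_upwards [hC] with s h1
  have e : psm (-f) s = -psm f s := by
    unfold psm
    rw [← tsum_neg]
    refine tsum_congr fun p => ?_
    rw [Pi.neg_apply, neg_mul]
  have e2 : psm (-f) s + ((-k : ℤ) : ℝ) * Real.log (s - 1) =
      -(psm f s + (k : ℝ) * Real.log (s - 1)) := by
    rw [e]
    push_cast
    ring
  rw [e2, abs_neg]
  exact h1

/-- `pz_asymp`. -/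
theorem ord_one : Ord (fun _ => 1) 1 := by
  obtain ⟨C, hC⟩ := pz_asymp
  refine ⟨C, ?_⟩
  filter_upwards [hC] with s h1
  have e : psm (fun _ => 1) s = pz s := by
    unfold psm pz
    simp only [one_mul]
  rw [e, Int.cast_one, one_mul]
  exact h1

theorem ord_zero : Ord (fun _ => 0) 0 := by
  refine ⟨0, Eventually.of_forall fun s => ?_⟩
  have e : psm (fun _ => 0) s = 0 := by
    unfold psm
    simp only [zero_mul, tsum_zero]
  rw [e]
  simp

/-- `psm f s ≤ C` for `s` near `1`; for a finite set `F` of primes, `∑_F f p / p` is the limit of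
`∑_F f p / p ^ s ≤ psm f s ≤ C`, so the sums over finite sets are bounded
(`summable_of_sum_le`). -/
theorem Ord.summable {f : Pr → ℝ} (hf : ∀ p, 0 ≤ f p) (hb : BdP f) (h : Ord f 0) :
    Summable fun p : Pr => f p / ((p : ℕ) : ℝ) := by
  obtain ⟨C, hC⟩ := h
  refine summable_of_sum_le (c := C) (fun p => div_nonneg (hf p) (Nat.cast_nonneg _)) fun F => ?_
  have hle : ∀ᶠ s : ℝ in 𝓝[>] 1, ∑ p ∈ F, f p * ((p : ℕ) : ℝ) ^ (-s) ≤ C := by
    filter_upwards [hC, self_mem_nhdsWithin] with s h1 hs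
    have hs' : (1 : ℝ) < s := hs
    have h2 : ∑ p ∈ F, f p * ((p : ℕ) : ℝ) ^ (-s) ≤ psm f s :=
      (summable_psm hb hs').sum_le_tsum F fun p _ =>
        mul_nonneg (hf p) (Real.rpow_nonneg (Nat.cast_nonneg _) _)
    have h3 : psm f s ≤ C := by
      have h4 := (abs_le.1 h1).2
      simpa using h4
    exact h2.trans h3
  have hlim : Tendsto (fun s : ℝ => ∑ p ∈ F, f p * ((p : ℕ) : ℝ) ^ (-s)) (𝓝[>] 1)
      (𝓝 (∑ p ∈ F, f p / ((p : ℕ) : ℝ))) := by
    refine tendsto_finsetSum _ fun p _ => ?_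
    have hp : ((p : ℕ) : ℝ) ≠ 0 := by exact_mod_cast p.2.ne_zero
    have h1 : ContinuousAt (fun s : ℝ => f p * ((p : ℕ) : ℝ) ^ (-s)) 1 :=
      continuousAt_const.mul (continuousAt_const.rpow continuousAt_neg (Or.inl hp))
    have h2 : f p / ((p : ℕ) : ℝ) = f p * ((p : ℕ) : ℝ) ^ (-(1 : ℝ)) := by
      rw [Real.rpow_neg_one, div_eq_mul_inv]
    rw [h2]
    exact h1.tendsto.mono_left nhdsWithin_le_nhds
  exact le_of_tendsto hlim hle

/-- The proof of `mean_of_poleOrder` (`W_eea520_G/D.lean`) without the last step (`log_prodP`,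
`log_meromorphic_pt`). -/
theorem ord_of_poleOrder {n : ℕ} {π : GSys n} (hπ : Tempered π) {m : Wt n →₀ ℤ} {t : ℝ} {k : ℤ}
    (h : PoleOrder π m (pt t) k) : Ord (tre π m t) k := by
  obtain ⟨g, hg, hk, hL⟩ := h
  obtain ⟨C, hC⟩ := log_prodP hπ m
  have hL' := (tendsto_pt t).eventually hL
  have h0 : ∀ᶠ s : ℝ in 𝓝[>] 1, g ((s : ℂ) + t * Complex.I) ≠ 0 := by
    filter_upwards [hL', self_mem_nhdsWithin] with s hs hs1
    exact (hC t s hs1 _ hs).1
  obtain ⟨k', hk', C', hC'⟩ := log_meromorphic_pt hg h0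
  have hkk : k' = -k := by
    rw [hk] at hk'
    exact (WithTop.coe_injective hk').symm
  subst hkk
  refine ⟨C' + C, ?_⟩
  filter_upwards [hL', hC', self_mem_nhdsWithin] with s hs1 hs2 hs3
  have h1 := (hC t s hs3 _ hs1).2
  have e : psm (tre π m t) s + (k : ℝ) * Real.log (s - 1) =
      (Real.log ‖g ((s : ℂ) + t * Complex.I)‖ - ((-k : ℤ) : ℝ) * Real.log (s - 1)) -
        (Real.log ‖g ((s : ℂ) + t * Complex.I)‖ - psm (tre π m t) s) := by
    push_cast
    ring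
  rw [e]
  exact (abs_sub _ _).trans (add_le_add hs2 h1)

/-- The factor `p ^ (-i t)`. -/
noncomputable def cw (t : ℝ) (p : Pr) : ℝ := (((p : ℕ) : ℂ) ^ (-(t * Complex.I))).re

theorem cw_bd (t : ℝ) : BdP (cw t) := by
  refine ⟨1, fun p => ?_⟩
  unfold cw
  refine (Complex.abs_re_le_norm _).trans ?_
  rw [norm_pit]

theorem cw_zero (p : Pr) : cw 0 p = 1 := by
  unfold cw
  simp

/-- For `|z| = 1`: `(Re z) ^ 2 = (1 + Re z ^ 2) / 2`; and `mean_pit (2 t)`, `MeanP.one`. -/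
theorem mean_cw_sq {t : ℝ} (ht : t ≠ 0) : MeanP (fun p => cw t p ^ 2) (1 / 2) := by
  have h2t : 2 * t ≠ 0 := mul_ne_zero two_ne_zero ht
  have h1 := mean_pit (2 * t)
  rw [if_neg h2t] at h1
  have hz : ∀ p : Pr, (((p : ℕ) : ℂ) ^ (-(((2 * t : ℝ) : ℂ) * Complex.I))).re =
      2 * cw t p ^ 2 - 1 := by
    intro p
    have hp0 : ((p : ℕ) : ℂ) ≠ 0 := by exact_mod_cast p.2.ne_zero
    have e : (((p : ℕ) : ℂ) ^ (-(((2 * t : ℝ) : ℂ) * Complex.I))) =
        (((p : ℕ) : ℂ) ^ (-(t * Complex.I))) * (((p : ℕ) : ℂ) ^ (-(t * Complex.I))) := by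
      rw [← Complex.cpow_add _ _ hp0]
      congr 1
      push_cast
      ring
    have hn := norm_pit p t
    have hn2 : Complex.normSq (((p : ℕ) : ℂ) ^ (-(t * Complex.I))) = 1 := by
      rw [Complex.normSq_eq_norm_sq, hn, one_pow]
    rw [Complex.normSq_apply] at hn2
    rw [e, Complex.mul_re]
    unfold cw
    nlinarith [hn2]
  have hb1 : BdP fun p : Pr => (((p : ℕ) : ℂ) ^ (-(((2 * t : ℝ) : ℂ) * Complex.I))).re :=
    cw_bd (2 * t)
  have hb0 : BdP fun _ : Pr => (1 : ℝ) := ⟨1, fun p => by simp⟩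
  have h3 := (MeanP.add hb0 hb1 MeanP.one h1).const_mul (1 / 2)
  have h4 : (fun p : Pr => (1 / 2 : ℝ) *
      (1 + (((p : ℕ) : ℂ) ^ (-(((2 * t : ℝ) : ℂ) * Complex.I))).re)) = fun p => cw t p ^ 2 := by
    funext p
    rw [hz p]
    ring
  rw [h4] at h3
  simpa using h3

/-- For real traces: from `ord_of_poleOrder` for `cat π`, `tre_eq` (`tcx` is `trc`), `trc_cat`. -/
theorem ord_of_poleOrderP {r : ℕ} {n : Fin r → ℕ} {π : (i : Fin r) → GSys (n i)}
    (hπ : ∀ i, Tempered (π i)) {m : (i : Fin r) → Wt (n i) →₀ ℤ} {t : ℝ} {k : ℤ} {g : Pr → ℝ}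
    (hg : ∀ p, ∏ i, trc (π i) (m i) p = (g p : ℂ)) (h : PoleOrderP π m (pt t) k) :
    Ord (fun p => g p * cw t p) k := by
  have h1 : PoleOrder (cat π) (catM m) (pt t) k := (poleOrder_cat π m (pt t) k).2 h
  have h2 := ord_of_poleOrder (tempered_cat hπ) h1
  have h3 : tre (cat π) (catM m) t = fun p => g p * cw t p := by
    funext p
    rw [tre_eq]
    have h4 : tcx (cat π) (catM m) p = (g p : ℂ) := by
      rw [← hg p, ← trc_cat]
      rfl
    rw [h4, Complex.re_ofReal_mul]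
    rfl
  rw [h3] at h2
  exact h2

end Pool.Agent.EEAP
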