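import Pool.Agent.W_eea520p_h56.AnB
import Pool.Agent.W_eea520p_h56.RepB

/-!
# Real traces; the characteristic polynomial (MP_eea520_nt, theorem P)
-/

set_option autoImplicit false

namespace Pool.Agent.EEAP

open Filter Topology Pool.Agent.EEA520 Pool.Agent.EEAN Pool.Agent.EEAG1

variable {n : ℕ}

private theorem AnC_ev_add (t : Torus n) (v w : Wt n) : t.ev (v + w) = t.ev v * t.ev w := by
  simp only [Torus.ev, Prod.fst_add, Prod.snd_add, Pi.add_apply, zpow_add,
    Finset.prod_mul_distrib]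
  rw [mul_mul_mul_comm]

private theorem AnC_ev_zero (t : Torus n) : t.ev 0 = 1 := by
  simp [Torus.ev]

/-- Evaluation is a ring homomorphism (`AddMonoidAlgebra.lift` for the monoid homomorphism
`w ↦ t.ev w`). -/
theorem exists_evR (t : Torus n) : ∃ φ : R n →+* ℂ,
    ∀ f, φ f = f.coeff.sum fun w e => (e : ℂ) * (t.ev w : ℂ) := by
  let m : Multiplicative (Wt n) →* ℂ :=
    { toFun := fun w => (t.ev (Multiplicative.toAdd w) : ℂ)
      map_one' := by
        rw [toAdd_one, AnC_ev_zero, Units.val_one]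
      map_mul' := fun v w => by
        rw [toAdd_mul, AnC_ev_add, Units.val_mul] }
  refine ⟨(AddMonoidAlgebra.lift ℤ ℂ (Wt n) m).toRingHom, fun f => ?_⟩
  have h1 : (AddMonoidAlgebra.lift ℤ ℂ (Wt n) m).toRingHom f =
      AddMonoidAlgebra.lift ℤ ℂ (Wt n) m f := rfl
  rw [h1, AddMonoidAlgebra.lift_apply']
  rfl

/-- The real part of the trace. -/
noncomputable def vf (π : GSys n) (f : R n) (p : Pr) : ℝ := (trc π f.coeff p).re

private theorem AnC_conj {π : GSys n} (hπ : Tempered π) (w : Wt n) (p : Pr) :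
    (starRingEnd ℂ) ((π p).ev w : ℂ) = ((π p).ev (-w) : ℂ) := by
  rw [← Complex.inv_eq_conj (norm_ev hπ p w), ← Units.val_inv_eq_inv_val]
  congr 1
  have h1 := AnC_ev_add (π p) w (-w)
  rw [add_neg_cancel, AnC_ev_zero] at h1
  exact inv_eq_of_mul_eq_one_right h1.symm

/-- The trace is real: for `‖t.ev w‖ = 1` the conjugate of `t.ev w` is `t.ev (-w)`
(`Complex.inv_eq_conj`, `norm_ev`, `ev_sub`), and `Inv0.neg_coeff`. -/
theorem vf_eq {π : GSys n} (hπ : Tempered π) {f : R n} (hf : Inv0 f) (p : Pr) :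
    trc π f.coeff p = (vf π f p : ℂ) := by
  unfold vf
  symm
  rw [← Complex.conj_eq_iff_re]
  unfold trc Finsupp.sum
  rw [map_sum]
  refine Finset.sum_equiv (Equiv.neg (Wt n)) (fun w => ?_) fun w _ => ?_
  · rw [Finsupp.mem_support_iff, Finsupp.mem_support_iff, Equiv.neg_apply, hf.neg_coeff]
  · rw [map_mul, AnC_conj hπ, Equiv.neg_apply, hf.neg_coeff, map_intCast]

private theorem AnC_phi (π : GSys n) (p : Pr) : ∃ φ : R n →+* ℂ, ∀ f, φ f = trc π f.coeff p :=
  exists_evR (π p)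

theorem vf_mul {π : GSys n} (hπ : Tempered π) {f g : R n} (hf : Inv0 f) (hg : Inv0 g) :
    vf π (f * g) = vf π f * vf π g := by
  funext p
  obtain ⟨φ, hφ⟩ := AnC_phi π p
  rw [Pi.mul_apply]
  have h1 : trc π (f * g).coeff p = (vf π f p : ℂ) * (vf π g p : ℂ) := by
    rw [← hφ, map_mul, hφ, hφ, vf_eq hπ hf, vf_eq hπ hg]
  show (trc π (f * g).coeff p).re = _
  rw [h1, ← Complex.ofReal_mul, Complex.ofReal_re]

theorem vf_add (π : GSys n) (f g : R n) : vf π (f + g) = vf π f + vf π g := by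
  funext p
  obtain ⟨φ, hφ⟩ := AnC_phi π p
  rw [Pi.add_apply]
  show (trc π (f + g).coeff p).re = (trc π f.coeff p).re + (trc π g.coeff p).re
  rw [← hφ, map_add, hφ, hφ, Complex.add_re]

theorem vf_smul (π : GSys n) (a : ℤ) (f : R n) : vf π (a • f) = a • vf π f := by
  funext p
  obtain ⟨φ, hφ⟩ := AnC_phi π p
  rw [Pi.smul_apply]
  show (trc π (a • f).coeff p).re = a • (trc π f.coeff p).re
  rw [← hφ, map_zsmul, hφ, zsmul_eq_mul, zsmul_eq_mul, ← Complex.ofReal_intCast,
    Complex.re_ofReal_mul]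

theorem vf_one (π : GSys n) : vf π 1 = 1 := by
  funext p
  obtain ⟨φ, hφ⟩ := AnC_phi π p
  rw [Pi.one_apply]
  show (trc π (1 : R n).coeff p).re = 1
  rw [← hφ, map_one, Complex.one_re]

/-- `tcx_le`. -/
theorem vf_bd {π : GSys n} (hπ : Tempered π) (f : R n) : BdP (vf π f) :=
  ⟨mnorm f.coeff, fun p => (Complex.abs_re_le_norm _).trans (tcx_le hπ f.coeff p)⟩

/-- `vf π f` is the combination of the `vf π (chi μ)` (`dec_sum`, `vf_add`, `vf_smul`). -/
theorem vf_dec (π : GSys n) {f : R n} (hf : Inv0 f) :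
    vf π f = (dec f).sum fun μ a => a • vf π (chi μ) := by
  let F : R n →+ (Pr → ℝ) := AddMonoidHom.mk' (vf π) (vf_add π)
  have h1 : F f = F ((dec f).sum fun μ a => a • chi μ) := congrArg F (dec_sum hf)
  rw [map_finsuppSum] at h1
  have h2 : ∀ g, F g = vf π g := fun g => rfl
  rw [h2] at h1
  rw [h1]
  refine Finsupp.sum_congr fun μ _ => ?_
  rw [h2, vf_smul]

end Pool.Agent.EEAP
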