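import Pool.Agent.W_eea520p_h56.AnC

/-!
# The ring of the traces, and the functionals (MP_eea520_nt, theorem P)
-/

set_option autoImplicit false

namespace Pool.Agent.EEAP

open Filter Topology Pool.Agent.EEA520 Pool.Agent.EEAN Pool.Agent.EEAG1

variable {r : ℕ} {n : Fin r → ℕ}

/-- The trace function of `π i` for the irreducible character `μ`. -/
noncomputable def vl (π : (i : Fin r) → GSys (n i)) (i : Fin r) (μ : Dm (n i)) : Pr → ℝ :=
  vf (π i) (chi μ)

/-- The ring generated by the trace functions. -/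
def BB (π : (i : Fin r) → GSys (n i)) : Subring (Pr → ℝ) :=
  Subring.closure {f | ∃ (i : Fin r) (μ : Dm (n i)), f = vl π i μ}

theorem vl_mem (π : (i : Fin r) → GSys (n i)) (i : Fin r) (μ : Dm (n i)) : vl π i μ ∈ BB π :=
  Subring.subset_closure ⟨i, μ, rfl⟩

/-- The trace functions as elements of the ring. -/
noncomputable def vb (π : (i : Fin r) → GSys (n i)) (i : Fin r) (μ : Dm (n i)) : BB π :=
  ⟨vl π i μ, vl_mem π i μ⟩

/-- `chi_zero`, `vf_one`. -/
theorem vb_one (π : (i : Fin r) → GSys (n i)) (i : Fin r) : vb π i (basDm (n i)).z = 1 := by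
  apply Subtype.ext
  show vf (π i) (chi (basDm (n i)).z) = 1
  rw [basDm_z, chi_zero (dz (n i)) rfl, vf_one]

/-- `basDm_mul`, `vf_mul`, `vf_add`, `vf_smul`. -/
theorem vb_mul {π : (i : Fin r) → GSys (n i)} (hπ : ∀ i, Tempered (π i)) (i : Fin r)
    (μ ν : Dm (n i)) :
    vb π i μ * vb π i ν = ((basDm (n i)).N μ ν).sum fun κ a => a • vb π i κ := by
  apply Subtype.ext
  have h1 : ((((basDm (n i)).N μ ν).sum fun κ a => a • vb π i κ : BB π) : Pr → ℝ) =
      ((basDm (n i)).N μ ν).sum fun κ a => a • vf (π i) (chi κ) := by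
    have h2 := map_finsuppSum (BB π).subtype ((basDm (n i)).N μ ν) fun κ a => a • vb π i κ
    rw [Subring.coe_subtype] at h2
    rw [h2]
    refine Finsupp.sum_congr fun κ _ => ?_
    rfl
  rw [h1]
  show vf (π i) (chi μ) * vf (π i) (chi ν) = _
  rw [← vf_mul (hπ i) (chi_inv0 μ) (chi_inv0 ν), basDm_mul]
  let F : R (n i) →+ (Pr → ℝ) := AddMonoidHom.mk' (vf (π i)) (vf_add (π i))
  have hF : ∀ g, vf (π i) g = F g := fun _ => rfl
  rw [hF, map_finsuppSum]
  refine Finsupp.sum_congr fun κ _ => ?_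
  rw [← hF, vf_smul]

private theorem AnD_prod_mem {π : (i : Fin r) → GSys (n i)} (hπ : ∀ i, Tempered (π i))
    (μ ν : (i : Fin r) → Dm (n i)) :
    (∏ i, vb π i (μ i)) * (∏ i, vb π i (ν i)) ∈
      AddSubgroup.closure (Set.range fun μ : (i : Fin r) → Dm (n i) => ∏ i, vb π i (μ i)) := by
  rw [← Finset.prod_mul_distrib]
  have h1 : ∀ i, vb π i (μ i) * vb π i (ν i) =
      ∑ κ ∈ ((basDm (n i)).N (μ i) (ν i)).support,
        ((basDm (n i)).N (μ i) (ν i)) κ • vb π i κ := fun i => vb_mul hπ i (μ i) (ν i)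
  rw [Finset.prod_congr rfl fun i _ => h1 i, Finset.prod_univ_sum]
  refine AddSubgroup.sum_mem _ fun κ _ => ?_
  have h2 : ∏ i, ((basDm (n i)).N (μ i) (ν i)) (κ i) • vb π i (κ i) =
      (∏ i, ((basDm (n i)).N (μ i) (ν i)) (κ i)) • ∏ i, vb π i (κ i) := by
    simp only [zsmul_eq_mul]
    rw [Finset.prod_mul_distrib, Int.cast_prod]
  rw [h2]
  have h3 : ∏ i, vb π i (κ i) ∈
      AddSubgroup.closure (Set.range fun μ : (i : Fin r) → Dm (n i) => ∏ i, vb π i (μ i)) :=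
    AddSubgroup.subset_closure ⟨κ, rfl⟩
  exact AddSubgroup.zsmul_mem _ h3 _

private theorem AnD_mul_mem {π : (i : Fin r) → GSys (n i)} (hπ : ∀ i, Tempered (π i))
    {x y : BB π}
    (hx : x ∈ AddSubgroup.closure (Set.range fun μ : (i : Fin r) → Dm (n i) =>
      ∏ i, vb π i (μ i)))
    (hy : y ∈ AddSubgroup.closure (Set.range fun μ : (i : Fin r) → Dm (n i) =>
      ∏ i, vb π i (μ i))) :
    x * y ∈ AddSubgroup.closure (Set.range fun μ : (i : Fin r) → Dm (n i) =>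
      ∏ i, vb π i (μ i)) := by
  induction hx using AddSubgroup.closure_induction with
  | mem x hx =>
    obtain ⟨μ, rfl⟩ := hx
    induction hy using AddSubgroup.closure_induction with
    | mem y hy =>
      obtain ⟨ν, rfl⟩ := hy
      exact AnD_prod_mem hπ μ ν
    | zero =>
      rw [mul_zero]
      exact AddSubgroup.zero_mem _
    | add a b _ _ ha hb =>
      rw [mul_add]
      exact AddSubgroup.add_mem _ ha hb
    | neg a _ ha =>
      rw [mul_neg]
      exact AddSubgroup.neg_mem _ ha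
  | zero =>
    rw [zero_mul]
    exact AddSubgroup.zero_mem _
  | add a b _ _ ha hb =>
    rw [add_mul]
    exact AddSubgroup.add_mem _ ha hb
  | neg a _ ha =>
    rw [neg_mul]
    exact AddSubgroup.neg_mem _ ha

private theorem AnD_one_mem (π : (i : Fin r) → GSys (n i)) :
    (1 : BB π) ∈ AddSubgroup.closure (Set.range fun μ : (i : Fin r) → Dm (n i) =>
      ∏ i, vb π i (μ i)) := by
  refine AddSubgroup.subset_closure ⟨fun i => (basDm (n i)).z, ?_⟩
  show ∏ i, vb π i (basDm (n i)).z = 1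
  exact Finset.prod_eq_one fun i _ => vb_one π i

private theorem AnD_gen_mem (π : (i : Fin r) → GSys (n i)) (i : Fin r) (μ : Dm (n i)) :
    vb π i μ ∈ AddSubgroup.closure (Set.range fun μ : (i : Fin r) → Dm (n i) =>
      ∏ i, vb π i (μ i)) := by
  classical
  refine AddSubgroup.subset_closure ⟨Function.update (fun i => (basDm (n i)).z) i μ, ?_⟩
  show ∏ j, vb π j (Function.update (fun i => (basDm (n i)).z) i μ j) = vb π i μ
  rw [Finset.prod_eq_single i]
  · rw [Function.update_self]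
  · intro j _ hj
    rw [Function.update_of_ne hj]
    exact vb_one π j
  · intro h
    exact absurd (Finset.mem_univ i) h

/-- The ring is additively generated by the products: the products are closed under multiplication up to
sums (`vb_mul`, `Finset.prod_univ_sum`), contain `1` and the generators
(`μ` trivial at the other indices). Use `Subring.closure_induction`. -/
theorem bb_span {π : (i : Fin r) → GSys (n i)} (hπ : ∀ i, Tempered (π i)) (f : BB π) :
    f ∈ AddSubgroup.closure (Set.range fun μ : (i : Fin r) → Dm (n i) => ∏ i, vb π i (μ i)) := by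
  obtain ⟨f, hf⟩ := f
  refine Subring.closure_induction (p := fun x hx => (⟨x, hx⟩ : BB π) ∈
    AddSubgroup.closure (Set.range fun μ : (i : Fin r) → Dm (n i) => ∏ i, vb π i (μ i)))
    ?_ ?_ ?_ ?_ ?_ ?_ hf
  · rintro x ⟨i, μ, rfl⟩
    exact AnD_gen_mem π i μ
  · exact AddSubgroup.zero_mem _
  · exact AnD_one_mem π
  · intro x y hx hy h1 h2
    exact AddSubgroup.add_mem _ h1 h2
  · intro x hx h1
    exact AddSubgroup.neg_mem _ h1
  · intro x y hx hy h1 h2
    exact AnD_mul_mem hπ h1 h2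

private theorem AnD_bd_mul {f g : Pr → ℝ} (hf : BdP f) (hg : BdP g) : BdP fun p => f p * g p := by
  obtain ⟨C, hC⟩ := hf
  obtain ⟨D, hD⟩ := hg
  refine ⟨C * D, fun p => ?_⟩
  rw [abs_mul]
  exact mul_le_mul (hC p) (hD p) (abs_nonneg _) ((abs_nonneg _).trans (hC p))

private theorem AnD_bd_neg {f : Pr → ℝ} (hf : BdP f) : BdP (-f) := by
  obtain ⟨C, hC⟩ := hf
  refine ⟨C, fun p => ?_⟩
  rw [Pi.neg_apply, abs_neg]
  exact hC p

theorem bb_bd {π : (i : Fin r) → GSys (n i)} (hπ : ∀ i, Tempered (π i)) (f : BB π) : BdP f.1 := by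
  obtain ⟨f, hf⟩ := f
  show BdP f
  refine Subring.closure_induction (p := fun x _ => BdP x) ?_ ?_ ?_ ?_ ?_ ?_ hf
  · rintro x ⟨i, μ, rfl⟩
    exact vf_bd (hπ i) (chi μ)
  · exact ⟨0, fun p => by rw [Pi.zero_apply, abs_zero]⟩
  · exact ⟨1, fun p => by rw [Pi.one_apply, abs_one]⟩
  · intro x y _ _ h1 h2
    exact h1.add h2
  · intro x _ h1
    exact AnD_bd_neg h1
  · intro x y _ _ h1 h2
    exact AnD_bd_mul h1 h2

private theorem AnD_coe_prod (π : (i : Fin r) → GSys (n i)) (μ : (i : Fin r) → Dm (n i)) (p : Pr) :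
    (∏ i, vb π i (μ i)).1 p = ∏ i, vl π i (μ i) p := by
  have h1 := map_prod (BB π).subtype (fun i => vb π i (μ i)) Finset.univ
  have h2 : (∏ i, vb π i (μ i)).1 = ∏ i, vl π i (μ i) := h1
  rw [h2, Finset.prod_apply]

/-- `exists_poleOrderP` and `ord_of_poleOrderP` for `m i = (chi (μ i)).coeff` (`chi_irr`, `vf_eq`). -/
theorem prod_ord {π : (i : Fin r) → GSys (n i)} (hπ : ∀ i, Tempered (π i)) {t : ℝ}
    (hM : ∀ (μ : (i : Fin r) → Fin (n i) → ℤ) (m : (i : Fin r) → Wt (n i) →₀ ℤ), Irrs μ m →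
      MeroAtP π m (pt t)) (μ : (i : Fin r) → Dm (n i)) :
    ∃ k : ℤ, Ord (fun p => (∏ i, vb π i (μ i)).1 p * cw t p) k := by
  have h1 : MeroAtP π (fun i => (chi (μ i)).coeff) (pt t) :=
    hM (fun i => (μ i).1) (fun i => (chi (μ i)).coeff) fun i => chi_irr (μ i)
  obtain ⟨k, hk⟩ := exists_poleOrderP hπ h1
  refine ⟨k, ord_of_poleOrderP hπ (g := fun p => (∏ i, vb π i (μ i)).1 p) (fun p => ?_) hk⟩
  rw [AnD_coe_prod, Complex.ofReal_prod]
  exact Finset.prod_congr rfl fun i _ => vf_eq (hπ i) (chi_inv0 (μ i)) p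

private theorem AnD_ord {π : (i : Fin r) → GSys (n i)} (hπ : ∀ i, Tempered (π i)) {t : ℝ}
    (hM : ∀ (μ : (i : Fin r) → Fin (n i) → ℤ) (m : (i : Fin r) → Wt (n i) →₀ ℤ), Irrs μ m →
      MeroAtP π m (pt t)) (f : BB π) :
    ∃ k : ℤ, Ord (fun p => f.1 p * cw t p) k := by
  have hf := bb_span hπ f
  induction hf using AddSubgroup.closure_induction with
  | mem x hx =>
    obtain ⟨μ, rfl⟩ := hx
    exact prod_ord hπ hM μ
  | zero =>
    refine ⟨0, ?_⟩
    have h1 : (fun p => (0 : BB π).1 p * cw t p) = fun _ => 0 := by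
      funext p
      show (0 : ℝ) * cw t p = 0
      rw [zero_mul]
    rw [h1]
    exact ord_zero
  | add a b _ _ ha hb =>
    obtain ⟨k, hk⟩ := ha
    obtain ⟨l, hl⟩ := hb
    refine ⟨k + l, ?_⟩
    have h1 : (fun p => (a + b).1 p * cw t p) =
        (fun p => a.1 p * cw t p) + fun p => b.1 p * cw t p := by
      funext p
      show (a.1 p + b.1 p) * cw t p = a.1 p * cw t p + b.1 p * cw t p
      rw [add_mul]
    rw [h1]
    exact Ord.add (AnD_bd_mul (bb_bd hπ a) (cw_bd t)) (AnD_bd_mul (bb_bd hπ b) (cw_bd t)) hk hl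
  | neg a _ ha =>
    obtain ⟨k, hk⟩ := ha
    refine ⟨-k, ?_⟩
    have h1 : (fun p => (-a).1 p * cw t p) = -(fun p => a.1 p * cw t p) := by
      funext p
      show (-a.1 p) * cw t p = -(a.1 p * cw t p)
      rw [neg_mul]
    rw [h1]
    exact Ord.neg hk

/-- The twisted functional: every `f` has an order (`bb_span`, `prod_ord`, `Ord.add`, `Ord.neg`), it is
unique, so it is additive. -/
theorem exists_Et {π : (i : Fin r) → GSys (n i)} (hπ : ∀ i, Tempered (π i)) {t : ℝ}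
    (hM : ∀ (μ : (i : Fin r) → Fin (n i) → ℤ) (m : (i : Fin r) → Wt (n i) →₀ ℤ), Irrs μ m →
      MeroAtP π m (pt t)) :
    ∃ E : BB π →+ ℤ, ∀ f, Ord (fun p => f.1 p * cw t p) (E f) := by
  choose E hE using fun f : BB π => AnD_ord hπ hM f
  refine ⟨AddMonoidHom.mk' E fun a b => ?_, fun f => hE f⟩
  refine Ord.unique (hE (a + b)) ?_
  have h1 : (fun p => (a + b).1 p * cw t p) =
      (fun p => a.1 p * cw t p) + fun p => b.1 p * cw t p := by
    funext p
    show (a.1 p + b.1 p) * cw t p = a.1 p * cw t p + b.1 p * cw t p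
    rw [add_mul]
  rw [h1]
  exact Ord.add (AnD_bd_mul (bb_bd hπ a) (cw_bd t)) (AnD_bd_mul (bb_bd hπ b) (cw_bd t))
    (hE a) (hE b)

/-- `t = 0` (`pt_zero`, `cw_zero`). -/
theorem exists_E {π : (i : Fin r) → GSys (n i)} (hπ : ∀ i, Tempered (π i))
    (hM : ∀ (μ : (i : Fin r) → Fin (n i) → ℤ) (m : (i : Fin r) → Wt (n i) →₀ ℤ), Irrs μ m →
      MeroAtP π m 1) :
    ∃ E : BB π →+ ℤ, ∀ f, Ord f.1 (E f) := by
  obtain ⟨E, hE⟩ := exists_Et (t := 0) hπ fun μ m hm => by
    rw [pt_zero]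
    exact hM μ m hm
  refine ⟨E, fun f => ?_⟩
  have h1 := hE f
  simp only [cw_zero, mul_one] at h1
  exact h1

/-- `Ord.meanP`, `MeanP.nonneg`. -/
theorem E_nonneg {π : (i : Fin r) → GSys (n i)} {E : BB π →+ ℤ} (hE : ∀ f, Ord f.1 (E f))
    (f : BB π) : 0 ≤ E (f * f) := by
  have h1 : (0 : ℝ) ≤ (E (f * f) : ℝ) :=
    (Ord.meanP (hE (f * f))).nonneg fun p => mul_self_nonneg (f.1 p)
  exact_mod_cast h1

theorem E_one {π : (i : Fin r) → GSys (n i)} {E : BB π →+ ℤ} (hE : ∀ f, Ord f.1 (E f)) :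
    E 1 = 1 :=
  Ord.unique (hE 1) ord_one

/-- Let `a = Et f`. The mean value of `(f - 2 a cw t) ^ 2 ≥ 0` is
`E (f ^ 2) - 4 a * a + 4 a ^ 2 * (1 / 2)` (`mean_cw_sq`, `MeanP.add`, `MeanP.const_mul`). -/
theorem Et_le {π : (i : Fin r) → GSys (n i)} (hπ : ∀ i, Tempered (π i)) {E Et : BB π →+ ℤ}
    (hE : ∀ f, Ord f.1 (E f)) {t : ℝ} (ht : t ≠ 0)
    (hEt : ∀ f, Ord (fun p => f.1 p * cw t p) (Et f)) (f : BB π) :
    2 * (Et f) ^ 2 ≤ E (f * f) := by
  set a : ℤ := Et f with ha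
  have h1 : MeanP (fun p => f.1 p * f.1 p) (E (f * f)) := Ord.meanP (hE (f * f))
  have h2 : MeanP (fun p => (-(4 * (a : ℝ))) * (f.1 p * cw t p)) (-(4 * (a : ℝ)) * (a : ℝ)) :=
    (Ord.meanP (hEt f)).const_mul _
  have h3 : MeanP (fun p => (4 * (a : ℝ) ^ 2) * cw t p ^ 2) (4 * (a : ℝ) ^ 2 * (1 / 2)) :=
    (mean_cw_sq ht).const_mul _
  have b1 : BdP fun p => f.1 p * f.1 p := AnD_bd_mul (bb_bd hπ f) (bb_bd hπ f)
  have b2 : BdP fun p => (-(4 * (a : ℝ))) * (f.1 p * cw t p) :=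
    (AnD_bd_mul (bb_bd hπ f) (cw_bd t)).const_mul _
  have b3 : BdP fun p => (4 * (a : ℝ) ^ 2) * cw t p ^ 2 := by
    have h4 : BdP fun p => cw t p ^ 2 := by
      have h5 := AnD_bd_mul (cw_bd t) (cw_bd t)
      simpa only [sq] using h5
    exact h4.const_mul _
  have h6 := MeanP.add (b1.add b2) b3 (MeanP.add b1 b2 h1 h2) h3
  have h7 := h6.nonneg fun p => by
    have h8 : f.1 p * f.1 p + -(4 * (a : ℝ)) * (f.1 p * cw t p) + 4 * (a : ℝ) ^ 2 * cw t p ^ 2 =
        (f.1 p - 2 * (a : ℝ) * cw t p) ^ 2 := by ring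
    rw [h8]
    positivity
  have h9 : (2 * (a : ℝ) ^ 2) ≤ (E (f * f) : ℝ) := by nlinarith
  exact_mod_cast h9

end Pool.Agent.EEAP
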