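import Pool.Agent.W_eea520p_h56.RepC

/-!
# The Pieri formula (MP_eea520_nt, theorem P)
-/

set_option autoImplicit false

namespace Pool.Agent.EEAP

open Pool.Agent.EEA520 Pool.Agent.EEAN

variable {n : ℕ}

/-- The neighbours. -/
noncomputable def nb (μ : Dm n) : Finset (Dm n) :=
  Finset.subtype _ ((Finset.univ.image fun i : Fin n => μ.1 + Pi.single i 1) ∪
    (Finset.univ.image fun i : Fin n => μ.1 - Pi.single i 1) ∪
    if ∀ i, 0 < μ.1 i then {μ.1} else ∅)

theorem mem_nb (μ ν : Dm n) : ν ∈ nb μ ↔ (∃ i, ν.1 = μ.1 + Pi.single i 1) ∨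
    (∃ i, ν.1 = μ.1 - Pi.single i 1) ∨ (ν = μ ∧ ∀ i, 0 < μ.1 i) := by
  unfold nb
  rw [Finset.mem_subtype, Finset.mem_union, Finset.mem_union, Finset.mem_image, Finset.mem_image,
    or_assoc]
  refine or_congr ⟨fun ⟨i, _, h⟩ => ⟨i, h.symm⟩, fun ⟨i, h⟩ => ⟨i, Finset.mem_univ _, h.symm⟩⟩
    (or_congr ⟨fun ⟨i, _, h⟩ => ⟨i, h.symm⟩, fun ⟨i, h⟩ => ⟨i, Finset.mem_univ _, h.symm⟩⟩ ?_)
  by_cases h : ∀ i, 0 < μ.1 i
  · rw [if_pos h, Finset.mem_singleton]
    exact ⟨fun h1 => ⟨Subtype.ext h1, h⟩, fun h1 => congrArg Subtype.val h1.1⟩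
  · rw [if_neg h]
    exact ⟨fun h1 => absurd h1 (Finset.notMem_empty _), fun h1 => absurd h1.2 h⟩

private theorem RepP_add (μ : Fin n → ℤ) (v : Fin n → ℤ) : shf (μ + v) = shf μ + v := by
  funext j
  simp only [shf, Pi.add_apply]
  ring

private theorem RepP_sub (μ : Fin n → ℤ) (v : Fin n → ℤ) : shf (μ - v) = shf μ - v := by
  funext j
  simp only [shf, Pi.sub_apply]
  ring

/-- If `μ + e_i` is not dominant then `0 < i` and `μ (i - 1) = μ i`, so two entries of
`shf (μ + e_i)` are equal (`alt_zero`). -/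
theorem al_up (μ : Dm n) (i : Fin n)
    (h : ¬ (Antitone (μ.1 + Pi.single i 1) ∧ ∀ j, 0 ≤ (μ.1 + Pi.single i 1 : Fin n → ℤ) j)) :
    al (μ.1 + Pi.single i 1) = 0 := by
  have hs : ∀ j, (μ.1 + Pi.single i 1 : Fin n → ℤ) j = μ.1 j + if j = i then 1 else 0 := by
    intro j
    rw [Pi.add_apply, Pi.single_apply]
  have h0 : ∀ j, 0 ≤ (μ.1 + Pi.single i 1 : Fin n → ℤ) j := by
    intro j
    rw [hs]
    have := μ.2.2 j
    split_ifs <;> omega
  have h1 : ¬ Antitone (μ.1 + Pi.single i 1) := fun h2 => h ⟨h2, h0⟩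
  obtain ⟨a, ha, hai⟩ : ∃ a, a < i ∧ μ.1 a = μ.1 i := by
    by_contra hcon
    push Not at hcon
    refine h1 fun a b hab => ?_
    rw [hs, hs]
    have h2 := μ.2.1 hab
    by_cases hb : b = i
    · by_cases hai : a = i
      · rw [if_pos hb, if_pos hai]
        omega
      · rw [if_pos hb, if_neg hai]
        have h3 : a < i := lt_of_le_of_ne (hb ▸ hab) hai
        have h4 := hcon a h3
        have h5 := μ.2.1 h3.le
        rw [hb]
        omega
    · rw [if_neg hb]
      split_ifs <;> omega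
  have hi0 : 0 < (i : ℕ) := lt_of_le_of_lt (Nat.zero_le _) ha
  have hlt : (i : ℕ) - 1 < n := by
    have := i.2
    omega
  obtain ⟨j, hj⟩ : ∃ j : Fin n, (j : ℕ) + 1 = i := ⟨⟨(i : ℕ) - 1, hlt⟩, by
    show (i : ℕ) - 1 + 1 = i
    omega⟩
  have hji : j ≠ i := by
    intro hh
    rw [hh] at hj
    omega
  have haj : a ≤ j := by
    have : (a : ℕ) < i := ha
    show (a : ℕ) ≤ j
    omega
  have hjle : j ≤ i := by
    show (j : ℕ) ≤ i
    omega
  have h2 := μ.2.1 haj
  have h3 := μ.2.1 hjle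
  refine alt_zero 1 _ hji ?_
  unfold shf
  rw [hs, hs, if_neg hji, if_pos rfl]
  have h4 : ((j : ℕ) : ℤ) + 1 = (i : ℕ) := by exact_mod_cast hj
  omega

/-- If `μ - e_i` is not dominant then either `i + 1 < n` and `μ (i + 1) = μ i`, so two entries of
`shf (μ - e_i)` are equal (`alt_zero`), or `i = n - 1` and `μ i = 0`: then the last entry of
`shf (μ - e_i)` is `0 = 1 - 1`, and `al (μ - e_i) = -al μ` by `alt_refl`. -/
theorem al_down (μ : Dm n) (i : Fin n)
    (h : ¬ (Antitone (μ.1 - Pi.single i 1) ∧ ∀ j, 0 ≤ (μ.1 - Pi.single i 1 : Fin n → ℤ) j)) :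
    al (μ.1 - Pi.single i 1) = if (i : ℕ) + 1 = n ∧ μ.1 i = 0 then -al μ.1 else 0 := by
  have hs : ∀ j, (μ.1 - Pi.single i 1 : Fin n → ℤ) j = μ.1 j - if j = i then 1 else 0 := by
    intro j
    rw [Pi.sub_apply, Pi.single_apply]
  by_cases hcase : ∃ b, i < b ∧ μ.1 b = μ.1 i
  · obtain ⟨b, hb, hbi⟩ := hcase
    have hb1 : (i : ℕ) < b := hb
    have hb2 := b.2
    rw [if_neg (by omega)]
    obtain ⟨j, hj⟩ : ∃ j : Fin n, (j : ℕ) = i + 1 := ⟨⟨(i : ℕ) + 1, by omega⟩, rfl⟩
    have hji : i ≠ j := by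
      intro hh
      rw [← hh] at hj
      omega
    have hij : i ≤ j := by
      show (i : ℕ) ≤ j
      omega
    have hjb : j ≤ b := by
      show (j : ℕ) ≤ b
      omega
    have h2 := μ.2.1 hij
    have h3 := μ.2.1 hjb
    refine alt_zero 1 _ hji ?_
    unfold shf
    rw [hs, hs, if_pos rfl, if_neg hji.symm]
    have h4 : ((j : ℕ) : ℤ) = (i : ℕ) + 1 := by exact_mod_cast hj
    omega
  · push Not at hcase
    have h1 : Antitone (μ.1 - Pi.single i 1) := by
      intro a b hab
      rw [hs, hs]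
      have h2 := μ.2.1 hab
      by_cases ha : a = i
      · by_cases hb : b = i
        · rw [if_pos ha, if_pos hb]
          omega
        · rw [if_pos ha, if_neg hb]
          have h3 : i < b := lt_of_le_of_ne (ha ▸ hab) (Ne.symm hb)
          have h4 := hcase b h3
          have h5 := μ.2.1 h3.le
          rw [ha] at h2 ⊢
          omega
      · rw [if_neg ha]
        split_ifs <;> omega
    have h2 : ¬ ∀ j, 0 ≤ (μ.1 - Pi.single i 1 : Fin n → ℤ) j := fun h3 => h ⟨h1, h3⟩
    push Not at h2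
    obtain ⟨j, hj⟩ := h2
    rw [hs] at hj
    have hμj := μ.2.2 j
    have hji : j = i := by
      by_contra hh
      rw [if_neg hh] at hj
      omega
    rw [if_pos hji, hji] at hj
    rw [hji] at hμj
    have hμi : μ.1 i = 0 := by omega
    have hin : (i : ℕ) + 1 = n := by
      by_contra hne
      have hi2 := i.2
      obtain ⟨k, hk⟩ : ∃ k : Fin n, (k : ℕ) = i + 1 := ⟨⟨(i : ℕ) + 1, by omega⟩, rfl⟩
      have hik : i < k := by
        show (i : ℕ) < k
        omega
      have h4 := hcase k hik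
      have h5 := μ.2.1 hik.le
      have h6 := μ.2.2 k
      omega
    rw [if_pos ⟨hin, hμi⟩]
    have h3 : shf (μ.1 - Pi.single i 1) = Function.update (shf μ.1) i (1 - shf μ.1 i) := by
      have hin' : ((i : ℕ) : ℤ) + 1 = n := by exact_mod_cast hin
      funext k
      by_cases hk : k = i
      · rw [hk, Function.update_self]
        unfold shf
        rw [hs, if_pos rfl]
        omega
      · rw [Function.update_of_ne hk]
        unfold shf
        rw [hs, if_neg hk]
        omega
    unfold al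
    rw [h3, alt_refl]

/-- PIERI. From `stdR_alt` (`shf (μ + e_i) = shf μ + e_i`), `al_up`, `al_down`. The term `al μ`
cancels with the term `i = n - 1` of the second sum if `μ (n - 1) = 0`; otherwise all `μ i > 0` and
`μ ∈ nb μ`. The `μ ± e_i` are different from each other and from `μ`. -/
theorem pieri (hn : 1 ≤ n) (μ : Dm n) : stdR n * al μ.1 = ∑ ν ∈ nb μ, al ν.1 := by
  classical
  obtain ⟨D, hD⟩ : ∃ D : (Fin n → ℤ) → Prop, D = fun v => Antitone v ∧ ∀ i, 0 ≤ v i := ⟨_, rfl⟩
  obtain ⟨A, hA⟩ : ∃ A : Finset (Fin n → ℤ),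
    A = Finset.univ.image fun i : Fin n => μ.1 + Pi.single i 1 := ⟨_, rfl⟩
  obtain ⟨B, hB⟩ : ∃ B : Finset (Fin n → ℤ),
    B = Finset.univ.image fun i : Fin n => μ.1 - Pi.single i 1 := ⟨_, rfl⟩
  obtain ⟨C, hC⟩ : ∃ C : Finset (Fin n → ℤ),
    C = if ∀ i, 0 < μ.1 i then {μ.1} else ∅ := ⟨_, rfl⟩
  -- the right side as a sum over vectors
  have hR : ∑ ν ∈ nb μ, al ν.1 = ∑ v ∈ A ∪ B ∪ C, if D v then al v else 0 := by
    rw [← Finset.sum_filter]
    refine Finset.sum_bij (fun ν _ => ν.1) (fun ν hν => ?_) (fun a _ b _ h => Subtype.ext h)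
      (fun v hv => ?_) (fun _ _ => rfl)
    · have h1 : ν.1 ∈ (A ∪ B) ∪ C := by
        have h2 := hν
        unfold nb at h2
        rw [Finset.mem_subtype] at h2
        rw [hA, hB, hC]
        convert h2
      refine Finset.mem_filter.2 ⟨h1, ?_⟩
      rw [hD]
      exact ν.2
    · rw [Finset.mem_filter] at hv
      have hv2 := hv.2
      rw [hD] at hv2
      refine ⟨⟨v, hv2⟩, ?_, rfl⟩
      have h1 := hv.1
      unfold nb
      rw [Finset.mem_subtype]
      rw [hA, hB, hC] at h1
      convert h1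
  have e1 : ∀ i j : Fin n, (Pi.single i 1 : Fin n → ℤ) j = if j = i then 1 else 0 := by
    intro i j
    rw [Pi.single_apply]
  have hAB : Disjoint A B := by
    rw [Finset.disjoint_left]
    intro v hv hv'
    rw [hA, Finset.mem_image] at hv
    rw [hB, Finset.mem_image] at hv'
    obtain ⟨i, _, hi⟩ := hv
    obtain ⟨j, _, hj⟩ := hv'
    have h1 := congrFun (hi.trans hj.symm) i
    simp only [Pi.add_apply, Pi.sub_apply] at h1
    rw [e1, e1, if_pos rfl] at h1
    split_ifs at h1 <;> omega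
  have hABC : Disjoint (A ∪ B) C := by
    rw [Finset.disjoint_left]
    intro v hv hv'
    have hvC : v = μ.1 := by
      rw [hC] at hv'
      by_cases h : ∀ i, 0 < μ.1 i
      · rw [if_pos h] at hv'
        exact Finset.mem_singleton.1 hv'
      · rw [if_neg h] at hv'
        exact absurd hv' (Finset.notMem_empty _)
    rw [Finset.mem_union, hA, hB, Finset.mem_image, Finset.mem_image] at hv
    rcases hv with ⟨i, _, hi⟩ | ⟨i, _, hi⟩
    · have h1 := congrFun (hi.trans hvC) i
      simp only [Pi.add_apply] at h1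
      rw [e1, if_pos rfl] at h1
      omega
    · have h1 := congrFun (hi.trans hvC) i
      simp only [Pi.sub_apply] at h1
      rw [e1, if_pos rfl] at h1
      omega
  have hsA : ∑ v ∈ A, (if D v then al v else 0) = ∑ i : Fin n, al (μ.1 + Pi.single i 1) := by
    rw [hA, Finset.sum_image]
    · refine Finset.sum_congr rfl fun i _ => ?_
      by_cases h : D (μ.1 + Pi.single i 1)
      · rw [if_pos h]
      · rw [if_neg h]
        rw [hD] at h
        exact (al_up μ i h).symm
    · intro i _ j _ hij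
      have h1 := congrFun hij i
      simp only [Pi.add_apply] at h1
      rw [e1, e1, if_pos rfl] at h1
      by_contra hne
      rw [if_neg hne] at h1
      omega
  have hsB : ∑ v ∈ B, (if D v then al v else 0) = ∑ i : Fin n, (al (μ.1 - Pi.single i 1) +
      if (i : ℕ) + 1 = n ∧ μ.1 i = 0 then al μ.1 else 0) := by
    rw [hB, Finset.sum_image]
    · refine Finset.sum_congr rfl fun i _ => ?_
      by_cases h : D (μ.1 - Pi.single i 1)
      · rw [if_pos h]
        rw [hD] at h
        have h1 := h.2 i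
        rw [Pi.sub_apply, e1, if_pos rfl] at h1
        rw [if_neg (by omega), add_zero]
      · rw [if_neg h]
        rw [hD] at h
        rw [al_down μ i h]
        split_ifs <;> simp
    · intro i _ j _ hij
      have h1 := congrFun hij i
      simp only [Pi.sub_apply] at h1
      rw [e1, e1, if_pos rfl] at h1
      by_contra hne
      rw [if_neg hne] at h1
      omega
  obtain ⟨l, hl⟩ : ∃ l : Fin n, (l : ℕ) + 1 = n := ⟨⟨n - 1, by omega⟩, by
    show n - 1 + 1 = n
    omega⟩
  have hsl : ∑ i : Fin n, (if (i : ℕ) + 1 = n ∧ μ.1 i = 0 then al μ.1 else 0) =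
      if μ.1 l = 0 then al μ.1 else 0 := by
    rw [Finset.sum_eq_single l]
    · by_cases h : μ.1 l = 0
      · rw [if_pos ⟨hl, h⟩, if_pos h]
      · rw [if_neg (fun h1 => h h1.2), if_neg h]
    · intro i _ hi
      refine if_neg fun h1 => hi (Fin.ext ?_)
      omega
    · intro h
      exact absurd (Finset.mem_univ _) h
  have hsC : ∑ v ∈ C, (if D v then al v else 0) = if μ.1 l = 0 then 0 else al μ.1 := by
    have hDμ : D μ.1 := by
      rw [hD]
      exact μ.2
    rw [hC]
    by_cases h : μ.1 l = 0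
    · rw [if_pos h, if_neg, Finset.sum_empty]
      intro h1
      have := h1 l
      omega
    · rw [if_neg h, if_pos, Finset.sum_singleton, if_pos hDμ]
      intro i
      have h1 : i ≤ l := by
        have := i.2
        show (i : ℕ) ≤ l
        omega
      have h2 := μ.2.1 h1
      have h3 := μ.2.2 l
      omega
  rw [hR, Finset.sum_union hABC, Finset.sum_union hAB, hsA, hsB, hsC, Finset.sum_add_distrib, hsl]
  have hL : stdR n * al μ.1 = al μ.1 + ∑ i : Fin n, (al (μ.1 + Pi.single i 1) +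
      al (μ.1 - Pi.single i 1)) := by
    unfold al
    rw [stdR_alt]
    refine congrArg _ (Finset.sum_congr rfl fun i _ => ?_)
    rw [RepP_add, RepP_sub]
  rw [hL, Finset.sum_add_distrib]
  split_ifs <;> abel

/-- The highest weight of the standard representation. -/
def dst (n : ℕ) : Dm n := ⟨fun j => if (j : ℕ) = 0 then 1 else 0, by
  refine ⟨fun i j hij => ?_, fun i => ?_⟩
  · have h : (i : ℕ) ≤ j := hij
    show (if (j : ℕ) = 0 then (1 : ℤ) else 0) ≤ if (i : ℕ) = 0 then 1 else 0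
    split_ifs <;> omega
  · show (0 : ℤ) ≤ if (i : ℕ) = 0 then 1 else 0
    split_ifs <;> omega⟩

/-- `pieri` for `μ = 0` (`nb 0 = {dst n}`) and `eq_of_al`. -/
theorem chi_dst (hn : 1 ≤ n) : chi (dst n) = stdR n := by
  refine eq_of_al ?_
  rw [chi_al]
  have h1 : stdR n * al 0 = ∑ ν ∈ nb (dz n), al ν.1 := pieri hn (dz n)
  have h2 : nb (dz n) = {dst n} := by
    ext ν
    rw [mem_nb, Finset.mem_singleton]
    have hz : (dz n).1 = 0 := rfl
    rw [hz]
    obtain ⟨l, hl⟩ : ∃ l : Fin n, (l : ℕ) = 0 := ⟨⟨0, by omega⟩, rfl⟩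
    constructor
    · rintro (⟨i, hi⟩ | ⟨i, hi⟩ | ⟨_, h3⟩)
      · have hli : l ≤ i := by
          show (l : ℕ) ≤ i
          omega
        have h3 := ν.2.1 hli
        rw [hi, zero_add, Pi.single_apply, Pi.single_apply, if_pos rfl] at h3
        have h4 : l = i := by
          by_contra hh
          rw [if_neg hh] at h3
          omega
        refine Subtype.ext ?_
        rw [hi, zero_add, ← h4]
        funext j
        rw [Pi.single_apply]
        show (if j = l then (1 : ℤ) else 0) = if (j : ℕ) = 0 then 1 else 0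
        refine if_congr ?_ rfl rfl
        rw [Fin.ext_iff, hl]
      · have h3 := ν.2.2 i
        rw [hi, Pi.sub_apply, Pi.single_apply, if_pos rfl] at h3
        exact absurd h3 (by simp)
      · exact absurd (h3 l) (by simp)
    · rintro rfl
      refine Or.inl ⟨l, ?_⟩
      rw [zero_add]
      funext j
      rw [Pi.single_apply]
      show (if (j : ℕ) = 0 then (1 : ℤ) else 0) = if j = l then 1 else 0
      refine if_congr ?_ rfl rfl
      rw [Fin.ext_iff, hl]
  rw [h1, h2, Finset.sum_singleton]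

/-- `basDm_N`, `chi_dst`, `chi_al`, `pieri`, `al_dom`. -/
theorem N_dst (hn : 1 ≤ n) (μ ν : Dm n) [Decidable (ν ∈ nb μ)] :
    (basDm n).N (dst n) μ ν = if ν ∈ nb μ then 1 else 0 := by
  classical
  have h1 : (∑ κ ∈ nb μ, al κ.1 : R n).coeff (1, shf ν.1) = if ν ∈ nb μ then 1 else 0 := by
    rw [AddMonoidAlgebra.coeff_sum, Finsupp.finsetSum_apply]
    rw [Finset.sum_congr rfl fun κ _ => al_dom κ ν]
    rw [Finset.sum_ite_eq]
    split_ifs <;> rfl
  rw [basDm_N, chi_dst hn, mult, mul_assoc, chi_al, pieri hn μ, h1]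

end Pool.Agent.EEAP
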