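import Pool.Agent.W_eea520p_h56.AnD
import Pool.Agent.W_eea520p_h56.RepP

/-!
# The families of the trace functions (MP_eea520_nt, theorem P)
-/

set_option autoImplicit false

namespace Pool.Agent.EEAP

open Filter Topology Pool.Agent.EEA520 Pool.Agent.EEAN Pool.Agent.EEAG1

variable {r : ℕ} {n : Fin r → ℕ}

theorem AnF_vb_coe (π : (i : Fin r) → GSys (n i)) (μ : (i : Fin r) → Dm (n i)) (p : Pr) :
    (∏ i, vb π i (μ i)).1 p = ∏ i, vf (π i) (chi (μ i)) p := by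
  have h1 : (∏ i, vb π i (μ i)).1 = ∏ i, vl π i (μ i) := by
    rw [← Subring.coe_subtype, map_prod]
    rfl
  rw [h1, Finset.prod_apply]
  rfl

theorem AnF_trc {π : (i : Fin r) → GSys (n i)} (hπ : ∀ i, Tempered (π i))
    (μ : (i : Fin r) → Dm (n i)) {m : (i : Fin r) → Wt (n i) →₀ ℤ}
    (hm : Irrs (fun i => (μ i).1) m) (p : Pr) :
    ∏ i, trc (π i) (m i) p = (((∏ i, vb π i (μ i)).1 p : ℝ) : ℂ) := by
  rw [AnF_vb_coe]
  push_cast
  refine Finset.prod_congr rfl fun i _ => ?_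
  have h1 : m i = (chi (μ i)).coeff := (hm i).unique (chi_irr (μ i))
  rw [h1]
  exact vf_eq (hπ i) (chi_inv0 (μ i)) p

/-- The families. `mean`: the order of `π i` for `chi μ` is `0` (`hST`, `chi_irr`), and
`ord_of_poleOrder` with `t = 0` (`tre_eq`, `pt_zero`), `Ord.unique`. -/
theorem fam_vb {π : (i : Fin r) → GSys (n i)} (hπ : ∀ i, Tempered (π i))
    (hST : ∀ (i : Fin r) (μ : Fin (n i) → ℤ) (m : Wt (n i) →₀ ℤ), IsIrr 0 μ m → μ ≠ 0 →
      PoleOrder (π i) m 1 0) {E : BB π →+ ℤ} (hE : ∀ f, Ord f.1 (E f)) (i : Fin r) :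
    Fam E (basDm (n i)) (vb π i) := by
  refine ⟨vb_one π i, fun μ ν => vb_mul hπ i μ ν, E_one hE, fun μ hμ => ?_⟩
  have h1 : μ.1 ≠ 0 := by
    intro h
    refine hμ (Subtype.ext ?_)
    rw [basDm_z, h]
    rfl
  have h2 := hST i μ.1 (chi μ).coeff (chi_irr μ) h1
  rw [← pt_zero] at h2
  have h3 := ord_of_poleOrder (hπ i) h2
  have h4 : tre (π i) (chi μ).coeff 0 = (vb π i μ).1 := by
    funext p
    rw [tre_eq]
    have h5 : (((p : ℕ) : ℂ) ^ (-(((0 : ℝ) : ℂ) * Complex.I))) = 1 := by simp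
    rw [h5, mul_one]
    rfl
  rw [h4] at h3
  exact (hE (vb π i μ)).unique h3

/-- The order of a product at `pt t` is the value of the functional: `exists_poleOrderP`,
`ord_of_poleOrderP`, `Ord.unique`; `m i = (chi μ').coeff` by `IsIrr.unique`. -/
theorem poleOrder_val {π : (i : Fin r) → GSys (n i)} (hπ : ∀ i, Tempered (π i)) {t : ℝ}
    {Et : BB π →+ ℤ} (hEt : ∀ f, Ord (fun p => f.1 p * cw t p) (Et f))
    (μ : (i : Fin r) → Dm (n i)) {m : (i : Fin r) → Wt (n i) →₀ ℤ}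
    (hm : Irrs (fun i => (μ i).1) m) (hM : MeroAtP π m (pt t)) :
    PoleOrderP π m (pt t) (Et (∏ i, vb π i (μ i))) := by
  obtain ⟨k, hk⟩ := exists_poleOrderP hπ hM
  have h1 := ord_of_poleOrderP hπ (AnF_trc hπ μ hm) hk
  rw [(hEt (∏ i, vb π i (μ i))).unique h1]
  exact hk

/-- And conversely (`ord_of_poleOrderP`, `Ord.unique`). -/
theorem val_of_poleOrder {π : (i : Fin r) → GSys (n i)} (hπ : ∀ i, Tempered (π i)) {t : ℝ}
    {Et : BB π →+ ℤ} (hEt : ∀ f, Ord (fun p => f.1 p * cw t p) (Et f))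
    (μ : (i : Fin r) → Dm (n i)) {m : (i : Fin r) → Wt (n i) →₀ ℤ}
    (hm : Irrs (fun i => (μ i).1) m) {k : ℤ} (h : PoleOrderP π m (pt t) k) :
    Et (∏ i, vb π i (μ i)) = k :=
  (hEt (∏ i, vb π i (μ i))).unique (ord_of_poleOrderP hπ (AnF_trc hπ μ hm) h)

/-- The weights in `Irrs` are dominant. -/
theorem exists_dm {μ : (i : Fin r) → Fin (n i) → ℤ} {m : (i : Fin r) → Wt (n i) →₀ ℤ}
    (h : Irrs μ m) : ∃ ν : (i : Fin r) → Dm (n i), ∀ i, (ν i).1 = μ i := by
  refine ⟨fun i => ⟨μ i, (h i).1, fun j => ?_⟩, fun i => rfl⟩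
  have := (h i).2.1 j
  omega

/-- The product for the weights `stdWt n i j` is the product of the two standard traces. -/
theorem prod_stdWt {π : (i : Fin r) → GSys (n i)} {i j : Fin r} (hij : i ≠ j)
    (ν : (k : Fin r) → Dm (n k)) (hν : ∀ k, (ν k).1 = stdWt n i j k) :
    ∏ k, vb π k (ν k) = vb π i (dst (n i)) * vb π j (dst (n j)) := by
  have h1 : ν i = dst (n i) := by
    refine Subtype.ext ?_
    rw [hν i]
    funext a
    simp [stdWt, dst]
  have h2 : ν j = dst (n j) := by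
    refine Subtype.ext ?_
    rw [hν j]
    funext a
    simp [stdWt, dst]
  rw [Fintype.prod_eq_mul i j hij, h1, h2]
  rintro k ⟨hki, hkj⟩
  have h3 : ν k = (basDm (n k)).z := by
    refine Subtype.ext ?_
    rw [hν k, basDm_z]
    funext a
    simp [stdWt, dz, hki, hkj]
  rw [h3]
  exact vb_one π k

end Pool.Agent.EEAP
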