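import Pool.Agent.W_eea520p_h56.AnC

/-!
# The characteristic polynomial (MP_eea520_nt, theorem P)
-/

set_option autoImplicit false

namespace Pool.Agent.EEAP

open Filter Topology Pool.Agent.EEA520 Pool.Agent.EEAN Pool.Agent.EEAG1

variable {n : ℕ}

/-- the polynomial `(X - 1) ∏ (X - a_i) (X - b_i)` over a commutative ring -/
private noncomputable def AnP_Q {A : Type} [CommRing A] (a b : Fin n → A) : Polynomial A :=
  (Polynomial.X - 1) * ∏ i : Fin n, ((Polynomial.X - Polynomial.C (a i)) *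
    (Polynomial.X - Polynomial.C (b i)))

private theorem AnP_map {A B : Type} [CommRing A] [CommRing B] (φ : A →+* B) (a b : Fin n → A) :
    (AnP_Q a b).map φ = AnP_Q (fun i => φ (a i)) (fun i => φ (b i)) := by
  unfold AnP_Q
  rw [Polynomial.map_mul, Polynomial.map_sub, Polynomial.map_X, Polynomial.map_one,
    Polynomial.map_prod]
  simp only [Polynomial.map_mul, Polynomial.map_sub, Polynomial.map_X, Polynomial.map_C]

private theorem AnP_Qperm {A : Type} [CommRing A] (a b : Fin n → A) (σ : Equiv.Perm (Fin n)) :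
    AnP_Q (fun i => a (σ i)) (fun i => b (σ i)) = AnP_Q a b := by
  unfold AnP_Q
  rw [Equiv.prod_comp σ fun i : Fin n => ((Polynomial.X - Polynomial.C (a i)) *
    (Polynomial.X - Polynomial.C (b i)))]

private theorem AnP_Qswap {A : Type} [CommRing A] (a b a' b' : Fin n → A)
    (h : ∀ i, (a' i = a i ∧ b' i = b i) ∨ (a' i = b i ∧ b' i = a i)) :
    AnP_Q a' b' = AnP_Q a b := by
  unfold AnP_Q
  rw [Finset.prod_congr rfl fun i _ => ?_]
  rcases h i with ⟨h1, h2⟩ | ⟨h1, h2⟩
  · rw [h1, h2]
  · rw [h1, h2, mul_comm]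

/-- the polynomial `(X - 1) ∏ (X - mon (0, e_i)) (X - mon (0, -e_i))` over `R n` -/
private noncomputable def AnP_P (n : ℕ) : Polynomial (R n) :=
  AnP_Q (fun i : Fin n => xx i 1) (fun i : Fin n => xx i (-1))

private theorem AnP_fix {φ : R n →+* R n} (h : (AnP_P n).map φ = AnP_P n) (k : ℕ) :
    φ ((AnP_P n).coeff k) = (AnP_P n).coeff k := by
  rw [← Polynomial.coeff_map, h]

private theorem AnP_xperm (σ : Equiv.Perm (Fin n)) (i : Fin n) (e : ℤ) :
    actR (permW σ) (xx i e) = xx (σ.symm i) e := by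
  rw [xx, xx, actR_mon, permW_single]

private theorem AnP_xref (i : Fin n) (e : ℤ) : actR (refW i) (xx i e) = xx i (-e) := by
  rw [xx, xx, actR_mon, refW_single]

private theorem AnP_xref_ne (i j : Fin n) (h : j ≠ i) (e : ℤ) :
    actR (refW i) (xx j e) = xx j e := by
  rw [xx, actR_mon, refW_single_ne i j h]

private theorem AnP_perm (σ : Equiv.Perm (Fin n)) :
    (AnP_P n).map (actR (permW σ)) = AnP_P n := by
  unfold AnP_P
  rw [AnP_map]
  simp only [AnP_xperm]
  exact AnP_Qperm (fun i : Fin n => (xx i 1 : R n)) (fun i => xx i (-1)) σ.symm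

private theorem AnP_ref (j : Fin n) :
    (AnP_P n).map (actR (refW j)) = AnP_P n := by
  unfold AnP_P
  rw [AnP_map]
  refine AnP_Qswap _ _ _ _ fun i => ?_
  by_cases h : i = j
  · subst h
    refine Or.inr ⟨AnP_xref i 1, ?_⟩
    rw [AnP_xref, neg_neg]
  · exact Or.inl ⟨AnP_xref_ne j i h 1, AnP_xref_ne j i h (-1)⟩

/-- the projection of the weights to the second coordinate -/
private def AnP_pr (n : ℕ) : Wt n →+ Wt n where
  toFun w := (0, w.2)
  map_zero' := rfl
  map_add' v w := by simp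

private theorem AnP_xpr (i : Fin n) (e : ℤ) :
    AddMonoidAlgebra.mapDomainRingHom ℤ (AnP_pr n) (xx i e : R n) = xx i e := by
  rw [xx, mon]
  exact AddMonoidAlgebra.mapDomain_single

private theorem AnP_pr_fix (k : ℕ) :
    AddMonoidAlgebra.mapDomainRingHom ℤ (AnP_pr n) ((AnP_P n).coeff k) = (AnP_P n).coeff k := by
  refine AnP_fix ?_ k
  unfold AnP_P
  rw [AnP_map]
  simp only [AnP_xpr]

private theorem AnP_supp {f : R n}
    (h : AddMonoidAlgebra.mapDomainRingHom ℤ (AnP_pr n) f = f) (w : Wt n) (hw : f.coeff w ≠ 0) :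
    w.1 = 0 := by
  classical
  have h1 : f.coeff = Finsupp.mapDomain (AnP_pr n) f.coeff := by
    conv_lhs => rw [← h]
    rfl
  have h2 : w ∈ (Finsupp.mapDomain (AnP_pr n) f.coeff).support := by
    rw [← h1]
    exact Finsupp.mem_support_iff.2 hw
  have h3 := Finsupp.mapDomain_support h2
  obtain ⟨v, _, hv⟩ := Finset.mem_image.1 h3
  rw [← hv]
  rfl

private theorem AnP_ev (t : Torus n) (φ : R n →+* ℂ)
    (hφ : ∀ f : R n, φ f = f.coeff.sum fun w e => (e : ℂ) * (t.ev w : ℂ)) (i : Fin n) (e : ℤ) :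
    φ (xx i e) = ((t.x i ^ e : ℂˣ) : ℂ) := by
  rw [hφ]
  have h1 : (xx i e : R n).coeff = Finsupp.single (0, Pi.single i e) 1 := rfl
  rw [h1, Finsupp.sum_single_index (by simp)]
  have h2 : t.ev (0, Pi.single i e) = t.x i ^ e := by
    unfold Torus.ev
    rw [zpow_zero, one_mul, Finset.prod_eq_single i]
    · simp
    · intro j _ hj
      simp [hj]
    · intro hi
      exact absurd (Finset.mem_univ i) hi
  rw [h2]
  simp

/-- The coefficients of the characteristic polynomial are characters with `k = 0`: consider the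
polynomial `(X - 1) ∏ (X - mon (0, e_i)) (X - mon (0, -e_i))` over `R n`. Its coefficients are invariant,
as `actR (permW σ)` and `actR (refW i)` permute the factors (`AlgZ.lean`), the first coordinates of their
weights are `0` (the elements with this property form a subring), and `exists_evR` maps it to
`cpol t`. -/
theorem exists_cpolR (n k : ℕ) : ∃ f : R n, Inv0 f ∧
    ∀ t : Torus n, (cpol t).coeff k = f.coeff.sum fun w e => (e : ℂ) * (t.ev w : ℂ) := by
  refine ⟨(AnP_P n).coeff k, ⟨isCharacter_of_act _ (fun σ => AnP_fix (AnP_perm σ) k)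
    fun i => AnP_fix (AnP_ref i) k, AnP_supp (AnP_pr_fix k)⟩, fun t => ?_⟩
  obtain ⟨φ, hφ⟩ := exists_evR t
  rw [← hφ, ← Polynomial.coeff_map]
  unfold AnP_P
  rw [AnP_map]
  simp only [AnP_ev t φ hφ]
  unfold cpol AnP_Q
  simp only [zpow_one, zpow_neg_one, Polynomial.C_1]

end Pool.Agent.EEAP
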