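import Pool.Agent.W_eea520p_h56.NbA

/-!
# Paths in the graph of the dominant weights (MP_eea520_nt, theorem P)
-/

set_option autoImplicit false

namespace Pool.Agent.EEAP

open Pool.Agent.EEA520 Pool.Agent.EEAN

variable {n : ℕ}

/-- The number of the zeros. -/
def zc (μ : Dm n) : ℕ := (Finset.univ.filter fun i => μ.1 i = 0).card

theorem zc_dz (n : ℕ) : zc (dz n) = n := by
  have h : (Finset.univ.filter fun i : Fin n => (dz n).1 i = 0) = Finset.univ :=
    Finset.filter_true_of_mem fun i _ => rfl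
  unfold zc
  rw [h, Finset.card_univ, Fintype.card_fin]

/-- a weight is not `μ + e_i` -/
private theorem NbZ_ne_add (f : Fin n → ℤ) (i : Fin n) : f ≠ f + Pi.single i 1 := by
  intro h
  have := congrFun h i
  rw [Pi.add_apply, Pi.single_eq_same] at this
  omega

private theorem NbZ_ne_sub (f : Fin n → ℤ) (i : Fin n) : f ≠ f - Pi.single i 1 := by
  intro h
  have := congrFun h i
  rw [Pi.sub_apply, Pi.single_eq_same] at this
  omega

theorem zc_zero (μ : Dm n) : zc μ = 0 ↔ μ ∈ nb μ := by
  rw [mem_nb]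
  unfold zc
  rw [Finset.card_eq_zero, Finset.filter_eq_empty_iff]
  constructor
  · intro h
    refine Or.inr (Or.inr ⟨rfl, fun i => ?_⟩)
    exact lt_of_le_of_ne (μ.2.2 i) (Ne.symm (h (Finset.mem_univ i)))
  · rintro (⟨i, h⟩ | ⟨i, h⟩ | ⟨_, h⟩) j _
    · exact absurd h (NbZ_ne_add _ i)
    · exact absurd h (NbZ_ne_sub _ i)
    · exact ne_of_gt (h j)

/-- changing one entry changes the number of the zeros by at most one -/
private theorem NbZ_zc_le (μ κ : Dm n) (i : Fin n) (h : ∀ j, j ≠ i → κ.1 j = μ.1 j) :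
    zc μ ≤ zc κ + 1 := by
  unfold zc
  refine (Finset.card_le_card (t := insert i (Finset.univ.filter fun j => κ.1 j = 0)) ?_).trans
    (Finset.card_insert_le _ _)
  intro j hj
  rw [Finset.mem_filter] at hj
  by_cases hji : j = i
  · rw [hji]
    exact Finset.mem_insert_self _ _
  · exact Finset.mem_insert_of_mem (Finset.mem_filter.2 ⟨Finset.mem_univ j, by
      rw [h j hji]; exact hj.2⟩)

/-- If `zc μ ≤ d`, take `μ + e_0` (`nb_up0`); if `zc μ = d + 1`, take `nb_upz`. Conversely, neighbours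
differ in at most one entry. -/
theorem zc_succ (hn : 1 ≤ n) (μ : Dm n) (d : ℕ) : zc μ ≤ d + 1 ↔ ∃ κ ∈ nb μ, zc κ ≤ d := by
  constructor
  · intro h
    by_cases hd : zc μ ≤ d
    · obtain ⟨κ, hκ, he⟩ := nb_up0 hn μ
      refine ⟨κ, hκ, le_trans ?_ hd⟩
      unfold zc
      refine Finset.card_le_card fun j hj => ?_
      rw [Finset.mem_filter] at hj ⊢
      refine ⟨Finset.mem_univ j, ?_⟩
      have h1 := hj.2
      have h2 := μ.2.2 j
      rw [he, Pi.add_apply] at h1
      by_cases hj0 : j = ⟨0, hn⟩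
      · rw [hj0, Pi.single_eq_same] at h1
        rw [hj0] at h2
        omega
      · rw [Pi.single_eq_of_ne hj0] at h1
        omega
    · have hz : ∃ i, μ.1 i = 0 := by
        by_contra hcon
        push Not at hcon
        have : zc μ = 0 := by
          unfold zc
          rw [Finset.card_eq_zero, Finset.filter_eq_empty_iff]
          exact fun i _ => hcon i
        omega
      obtain ⟨i, hi, _, κ, hκ, he⟩ := nb_upz μ hz
      refine ⟨κ, hκ, ?_⟩
      have hsub : (Finset.univ.filter fun j => κ.1 j = 0) ⊆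
          (Finset.univ.filter fun j => μ.1 j = 0).erase i := by
        intro j hj
        rw [Finset.mem_filter] at hj
        have h1 := hj.2
        rw [he, Pi.add_apply] at h1
        by_cases hji : j = i
        · rw [hji, Pi.single_eq_same, hi] at h1
          omega
        · rw [Pi.single_eq_of_ne hji] at h1
          exact Finset.mem_erase.2 ⟨hji, Finset.mem_filter.2 ⟨Finset.mem_univ j, by omega⟩⟩
      have hc := Finset.card_le_card hsub
      rw [Finset.card_erase_of_mem (Finset.mem_filter.2 ⟨Finset.mem_univ i, hi⟩)] at hc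
      have e1 : zc κ = (Finset.univ.filter fun j => κ.1 j = 0).card := rfl
      have e2 : zc μ = (Finset.univ.filter fun j => μ.1 j = 0).card := rfl
      omega
  · rintro ⟨κ, hκ, hd⟩
    have key : zc μ ≤ zc κ + 1 := by
      rcases (mem_nb μ κ).1 hκ with ⟨i, h⟩ | ⟨i, h⟩ | ⟨h, _⟩
      · refine NbZ_zc_le μ κ i fun j hj => ?_
        rw [h, Pi.add_apply, Pi.single_eq_of_ne hj, add_zero]
      · refine NbZ_zc_le μ κ i fun j hj => ?_
        rw [h, Pi.sub_apply, Pi.single_eq_of_ne hj, sub_zero]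
      · rw [h]
        exact Nat.le_succ _
    omega

/-- Induction on the sum of the entries, with `nb_down` and `nb_symm`. -/
theorem nb_reach (S : Set (Dm n)) (hz : dz n ∈ S) (hS : ∀ μ ∈ S, ∀ κ ∈ nb μ, κ ∈ S) (μ : Dm n) :
    μ ∈ S := by
  have key : ∀ m : ℕ, ∀ μ : Dm n, ∑ i, μ.1 i = (m : ℤ) → μ ∈ S := by
    intro m
    induction m with
    | zero =>
      intro μ h
      have h0 : μ = dz n := by
        refine Subtype.ext (funext fun i => ?_)
        have := (Finset.sum_eq_zero_iff_of_nonneg (fun i _ => μ.2.2 i)).1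
          (by rw [h]; rfl) i (Finset.mem_univ i)
        exact this
      rw [h0]
      exact hz
    | succ m ih =>
      intro μ h
      have hne : μ ≠ dz n := by
        intro he
        rw [he] at h
        have h1 : ∑ i, (dz n).1 i = 0 := Finset.sum_eq_zero fun i _ => rfl
        rw [h1] at h
        push_cast at h
        omega
      obtain ⟨i, _, _, κ, hκ, he⟩ := nb_down μ hne
      refine hS κ (ih κ ?_) μ (nb_symm hκ)
      rw [he]
      simp only [Pi.sub_apply]
      rw [Finset.sum_sub_distrib, h, Finset.sum_pi_single']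
      rw [if_pos (Finset.mem_univ i)]
      push_cast
      ring
  have hnn : 0 ≤ ∑ i, μ.1 i := Finset.sum_nonneg fun i _ => μ.2.2 i
  exact key (∑ i, μ.1 i).toNat μ (Int.toNat_of_nonneg hnn).symm

/-- The weight `(1, …, 1)`. -/
def dones (n : ℕ) : Dm n := ⟨fun _ => 1, fun _ _ _ => le_rfl, fun _ => zero_le_one⟩

theorem nb_dones (n : ℕ) : dones n ∈ nb (dones n) := by
  rw [mem_nb]
  exact Or.inr (Or.inr ⟨rfl, fun _ => one_pos⟩)

/-- the weight `(1^j)` -/
private def NbZ_p (n j : ℕ) : Dm n := ⟨fun i => if (i : ℕ) < j then 1 else 0, by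
  refine ⟨fun a b hab => ?_, fun i => ?_⟩
  · have h : (a : ℕ) ≤ b := hab
    show (if (b : ℕ) < j then (1 : ℤ) else 0) ≤ if (a : ℕ) < j then 1 else 0
    split_ifs <;> omega
  · show (0 : ℤ) ≤ if (i : ℕ) < j then 1 else 0
    split_ifs <;> omega⟩

private theorem NbZ_p_succ (n j : ℕ) (hj : j < n) : NbZ_p n (j + 1) ∈ nb (NbZ_p n j) := by
  rw [mem_nb]
  refine Or.inl ⟨⟨j, hj⟩, funext fun i => ?_⟩
  rw [Pi.add_apply]
  show (if (i : ℕ) < j + 1 then (1 : ℤ) else 0) = (if (i : ℕ) < j then 1 else 0) + _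
  by_cases hi : i = ⟨j, hj⟩
  · rw [hi, Pi.single_eq_same]
    show (if j < j + 1 then (1 : ℤ) else 0) = (if j < j then 1 else 0) + 1
    rw [if_pos (Nat.lt_succ_self j), if_neg (lt_irrefl j), zero_add]
  · rw [Pi.single_eq_of_ne hi, add_zero]
    have hij : (i : ℕ) ≠ j := fun h => hi (Fin.ext h)
    split_ifs <;> omega

/-- Let `T` be the set of the `κ` all of whose neighbours are in `S`. The neighbours of elements of `S` are
in `T` (hypothesis) and the neighbours of elements of `T` are in `S`. The weights `(1^j)`, `j = 0, …, n`,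
form a path (consecutive weights are neighbours) from `0 ∈ S` to `dones n`, so each `(1^j)` is in `S` or in
`T`; as `dones n` is its own neighbour it is in `S` and in `T`, and going back, all `(1^j)` are in `S` and
in `T`. In particular `dst n = (1^1)` is in `S`. -/
theorem nb_even (hn : 1 ≤ n) (S : Set (Dm n)) (hz : dz n ∈ S)
    (hS : ∀ μ ∈ S, ∀ κ ∈ nb μ, ∀ ν ∈ nb κ, ν ∈ S) : dst n ∈ S := by
  have h0 : NbZ_p n 0 = dz n := by
    refine Subtype.ext (funext fun i => ?_)
    show (if (i : ℕ) < 0 then (1 : ℤ) else 0) = 0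
    rw [if_neg (Nat.not_lt_zero _)]
  have h1 : NbZ_p n 1 = dst n := by
    refine Subtype.ext (funext fun i => ?_)
    show (if (i : ℕ) < 1 then (1 : ℤ) else 0) = if (i : ℕ) = 0 then 1 else 0
    split_ifs <;> omega
  have hN : NbZ_p n n = dones n := by
    refine Subtype.ext (funext fun i => ?_)
    show (if (i : ℕ) < n then (1 : ℤ) else 0) = 1
    rw [if_pos i.2]
  have hup : ∀ j, j ≤ n → NbZ_p n j ∈ S ∨ ∀ ν ∈ nb (NbZ_p n j), ν ∈ S := by
    intro j
    induction j with
    | zero =>
      intro _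
      rw [h0]
      exact Or.inl hz
    | succ j ih =>
      intro hj
      rcases ih (by omega) with h | h
      · exact Or.inr (hS _ h _ (NbZ_p_succ n j (by omega)))
      · exact Or.inl (h _ (NbZ_p_succ n j (by omega)))
  have htop : dones n ∈ S ∧ ∀ ν ∈ nb (dones n), ν ∈ S := by
    have := hup n le_rfl
    rw [hN] at this
    rcases this with h | h
    · exact ⟨h, hS _ h _ (nb_dones n)⟩
    · exact ⟨h _ (nb_dones n), h⟩
  have hdown : ∀ k, k < n → NbZ_p n (n - k) ∈ S ∧ ∀ ν ∈ nb (NbZ_p n (n - k)), ν ∈ S := by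
    intro k
    induction k with
    | zero =>
      intro _
      rw [Nat.sub_zero, hN]
      exact htop
    | succ k ih =>
      intro hk
      obtain ⟨g1, g2⟩ := ih (by omega)
      have hb : NbZ_p n (n - (k + 1)) ∈ nb (NbZ_p n (n - k)) := by
        have h2 := nb_symm (NbZ_p_succ n (n - (k + 1)) (by omega))
        have h3 : n - (k + 1) + 1 = n - k := by omega
        rwa [h3] at h2
      exact ⟨g2 _ hb, hS _ g1 _ hb⟩
  have := (hdown (n - 1) (by omega)).1
  have h3 : n - (n - 1) = 1 := by omega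
  rw [h3, h1] at this
  exact this

theorem ddb_eq (hn : 1 ≤ n) (μ : Dm n) (h : μ ≠ dz n)
    (h' : ddb μ = dz n ∨ ddb μ = da n ∨ ddb μ = dc n) : μ = dst n := by
  rcases h' with h' | h' | h'
  · exfalso
    refine h (Subtype.ext (funext fun i => ?_))
    have h1 : 2 * μ.1 i = 0 := congrFun (congrArg Subtype.val h') i
    show μ.1 i = 0
    omega
  · exfalso
    have h1 : 2 * μ.1 ⟨0, hn⟩ = if (0 : ℕ) ≤ 1 then 1 else 0 :=
      congrFun (congrArg Subtype.val h') ⟨0, hn⟩
    rw [if_pos (Nat.zero_le 1)] at h1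
    omega
  · refine Subtype.ext (funext fun i => ?_)
    have h1 : 2 * μ.1 i = if (i : ℕ) = 0 then 2 else 0 := congrFun (congrArg Subtype.val h') i
    show μ.1 i = if (i : ℕ) = 0 then 1 else 0
    split_ifs at h1 ⊢ <;> omega

end Pool.Agent.EEAP
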