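import Pool.Agent.W_eea520p_h56.PieA

/-!
# Matched pairs (MP_eea520_nt, theorem P): step 5
-/

set_option autoImplicit false

namespace Pool.Agent.EEAP

variable {B : Type} [CommRing B] {E : B →+ ℤ} {I J : Type} {b : Bas I} {c : Bas J} {V : I → B}
  {W : J → B}

/-- If the standard representations are matched, then every `W j` is matched: `Pie.closed` for the set
of the matched `j` (`match_closure`; `z` is matched with `z`, `st` is nontrivial). -/
theorem pair_total (hE : ∀ f, 0 ≤ E (f * f)) (P : Pie b) (Q : Pie c) (hV : Fam E b V)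
    (hW : Fam E c W) (h : E (V P.st * W Q.st) ≠ 0) (j : J) : ∃ i, E (V i * W j) ≠ 0 := by
  refine Q.closed hW {j | ∃ i, E (V i * W j) ≠ 0} ⟨b.z, ?_⟩ ?_ ⟨Q.st, ⟨P.st, h⟩, Q.st_ne⟩ j
  · rw [hV.one, hW.one, mul_one, hV.mean_one]
    exact one_ne_zero
  · rintro j₁ ⟨i₁, h₁⟩ j₂ ⟨i₂, h₂⟩ k hk
    obtain ⟨i₃, h₃, _⟩ := match_closure hE hV hW h₁ h₂ hk
    exact ⟨i₃, h₃⟩

/-- The sign is `+`. Let `j ∈ nb j` (`Q.loop`) be matched with `i` (`pair_total`). `match_closure` for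
`(st, st)`, `(i, j)` and `j'' = j` gives `i''` matched with `j`, so `i'' = i` (`match_left`), and
`N st i i = E (V st W st)` after cancelling `E (V i W j)`; `N st i i` is `0` or `1`. -/
theorem pair_st (hE : ∀ f, 0 ≤ E (f * f)) (P : Pie b) (Q : Pie c) (hV : Fam E b V)
    (hW : Fam E c W) (h : E (V P.st * W Q.st) ≠ 0) : E (V P.st * W Q.st) = 1 := by
  obtain ⟨j, hj⟩ := Q.loop
  obtain ⟨i, hi⟩ := pair_total hE P Q hV hW h j
  have hN : c.N Q.st j j = 1 := Q.N_mem j j hj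
  obtain ⟨i', h1, h2⟩ := match_closure hE hV hW h hi (j'' := j) (by rw [hN]; exact one_ne_zero)
  have h3 : i' = i := match_left hE hV hW h1 hi
  rw [h3, hN, mul_one] at h2
  have h4 : b.N P.st i i = E (V P.st * W Q.st) := mul_right_cancel₀ hi h2
  by_cases h5 : i ∈ P.nb i
  · rw [← h4, P.N_mem i i h5]
  · rw [P.N_not i i h5] at h4
    exact absurd h4.symm h

/-- `match_closure` for `(st, st)`, `(i, j)` and `j'`: `N st i i' * E (V i' W j') = 1 * 1 * 1`. -/
theorem pair_step (hE : ∀ f, 0 ≤ E (f * f)) (P : Pie b) (Q : Pie c) (hV : Fam E b V)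
    (hW : Fam E c W) (h : E (V P.st * W Q.st) ≠ 0) {i : I} {j j' : J} (hij : E (V i * W j) = 1)
    (hj : j' ∈ Q.nb j) : ∃ i' ∈ P.nb i, E (V i' * W j') = 1 := by
  have hN : c.N Q.st j j' = 1 := Q.N_mem j j' hj
  obtain ⟨i', h1, h2⟩ := match_closure hE hV hW h (i' := i) (j' := j) (j'' := j')
    (by rw [hij]; exact one_ne_zero) (by rw [hN]; exact one_ne_zero)
  rw [pair_st hE P Q hV hW h, hij, hN, mul_one, mul_one] at h2
  have h3 : i' ∈ P.nb i := by
    by_contra h4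
    rw [P.N_not i i' h4, zero_mul] at h2
    exact zero_ne_one h2
  rw [P.N_mem i i' h3, one_mul] at h2
  exact ⟨i', h3, h2⟩

/-- From `Q.reach` and `pair_step`. -/
theorem pair_one (hE : ∀ f, 0 ≤ E (f * f)) (P : Pie b) (Q : Pie c) (hV : Fam E b V)
    (hW : Fam E c W) (h : E (V P.st * W Q.st) ≠ 0) (j : J) : ∃ i, E (V i * W j) = 1 := by
  refine Q.reach {j | ∃ i, E (V i * W j) = 1} ⟨b.z, ?_⟩ ?_ j
  · rw [hV.one, hW.one, mul_one, hV.mean_one]
  · rintro j₁ ⟨i₁, h₁⟩ k hk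
    obtain ⟨i₂, _, h₂⟩ := pair_step hE P Q hV hW h h₁ hk
    exact ⟨i₂, h₂⟩

private theorem pair_aux (hE : ∀ f, 0 ≤ E (f * f)) (P : Pie b) (Q : Pie c) (hV : Fam E b V)
    (hW : Fam E c W) (h : E (V P.st * W Q.st) ≠ 0) (d : ℕ) :
    ∀ i j, E (V i * W j) = 1 → Q.Z j ≤ d → P.Z i ≤ d := by
  induction d with
  | zero =>
    intro i j hij hj
    have hj0 : j ∈ Q.nb j := (Q.Z_zero j).1 (Nat.le_zero.1 hj)
    obtain ⟨i', h1, h2⟩ := pair_step hE P Q hV hW h hij hj0
    have h3 : i' = i := match_left hE hV hW (j := j) (by rw [h2]; exact one_ne_zero)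
      (by rw [hij]; exact one_ne_zero)
    rw [h3] at h1
    exact Nat.le_zero.2 ((P.Z_zero i).2 h1)
  | succ d ih =>
    intro i j hij hj
    obtain ⟨k, hk, hkd⟩ := (Q.Z_succ j d).1 hj
    obtain ⟨i', h1, h2⟩ := pair_step hE P Q hV hW h hij hk
    exact (P.Z_succ i d).2 ⟨i', h1, ih i' k h2 hkd⟩

/-- Matched elements have the same distance to the loops. Show by induction on `d`, for all `i`, `j`
with `E (V i W j) = 1`: `P.Z i ≤ d ↔ Q.Z j ≤ d`. For `d = 0`: `Z_zero`; if `j ∈ nb j` then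
`pair_step` gives `i' ∈ nb i` matched with `j`, `i' = i` by `match_left`; for the other direction
exchange the roles of `V` and `W` (`mul_comm`). Step: `Z_succ` and `pair_step` in both directions. -/
theorem pair_Z (hE : ∀ f, 0 ≤ E (f * f)) (P : Pie b) (Q : Pie c) (hV : Fam E b V)
    (hW : Fam E c W) (h : E (V P.st * W Q.st) ≠ 0) {i : I} {j : J} (hij : E (V i * W j) = 1) :
    P.Z i = Q.Z j := by
  have h1 : E (W Q.st * V P.st) ≠ 0 := by rwa [mul_comm]
  have h2 : E (W j * V i) = 1 := by rwa [mul_comm]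
  exact le_antisymm (pair_aux hE P Q hV hW h (Q.Z j) i j hij le_rfl)
    (pair_aux hE Q P hW hV h1 (P.Z i) j i h2 le_rfl)

end Pool.Agent.EEAP
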