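import Pool.Agent.W_eea520p_h56.NbB
import Pool.Agent.W_eea520p_h56.NbZ
import Pool.Agent.W_eea520p_h56.Pair

/-!
# The structure of the character ring; the same rank and the same weights (MP_eea520_nt, theorem P)
-/

set_option autoImplicit false

namespace Pool.Agent.EEAP

open Pool.Agent.EEA520 Pool.Agent.EEAN

variable {n : ℕ}

/-- All the fields are in `RepB`, `RepC`, `RepD`, `NbA`. -/
theorem exists_pieDm (hn : 1 ≤ n) : ∃ P : Pie (basDm n), P.st = dst n ∧ P.nb = nb ∧ P.Z = zc := by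
  classical
  refine ⟨{
    st := dst n
    a := da n
    c := dc n
    nb := nb
    Z := zc
    dbl := ddb
    N_mem := fun i k hk => ?_
    N_not := fun i k hk => ?_
    card_nb := fun i hi => ?_
    nb_st := fun k => ?_
    a_ne := ?_
    c_ne := ?_
    ac_ne := dac_ne hn
    st_ne := ?_
    nac := N_ac hn
    reach := fun S hz hS i => ?_
    even := fun S hz hS => ?_
    loop := ⟨dones n, nb_dones n⟩
    Z_zero := zc_zero
    Z_succ := zc_succ hn
    N_dbl := fun i => ?_
    dbl_eq := fun i hi h => ?_ }, rfl, rfl, rfl⟩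
  · rw [N_dst hn i k, if_pos hk]
  · rw [N_dst hn i k, if_neg hk]
  · rw [basDm_z] at hi
    exact nb_card hn i hi
  · rw [basDm_z]
    exact nb_dst hn k
  · rw [basDm_z]
    exact da_ne hn
  · rw [basDm_z]
    exact dc_ne hn
  · rw [basDm_z]
    exact dst_ne hn
  · rw [basDm_z] at hz
    exact nb_reach S hz hS i
  · rw [basDm_z] at hz
    exact nb_even hn S hz hS
  · rw [N_ddb]
    exact one_ne_zero
  · rw [basDm_z] at hi h
    exact ddb_eq hn i hi h

noncomputable def pieDm (hn : 1 ≤ n) : Pie (basDm n) := Classical.choose (exists_pieDm hn)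

theorem pieDm_st (hn : 1 ≤ n) : (pieDm hn).st = dst n := (Classical.choose_spec (exists_pieDm hn)).1

theorem pieDm_nb (hn : 1 ≤ n) : (pieDm hn).nb = nb := (Classical.choose_spec (exists_pieDm hn)).2.1

theorem pieDm_Z (hn : 1 ≤ n) : (pieDm hn).Z = zc := (Classical.choose_spec (exists_pieDm hn)).2.2

variable {B : Type} [CommRing B] {E : B →+ ℤ}

/-- `pair_Z` for `z` and `z` (`E (1 * 1) = 1`, `basDm_z`), `pieDm_Z`, `zc_dz`. -/
theorem n_eq {n m : ℕ} (hE : ∀ f, 0 ≤ E (f * f)) (hn : 1 ≤ n) (hm : 1 ≤ m) {V : Dm n → B}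
    {W : Dm m → B} (hV : Fam E (basDm n) V) (hW : Fam E (basDm m) W)
    (h : E (V (dst n) * W (dst m)) ≠ 0) : n = m := by
  have h' : E (V (pieDm hn).st * W (pieDm hm).st) ≠ 0 := by
    rw [pieDm_st, pieDm_st]
    exact h
  have h1 : E (V (basDm n).z * W (basDm m).z) = 1 := by
    rw [hV.one, hW.one, mul_one, hV.mean_one]
  have h2 := pair_Z hE (pieDm hn) (pieDm hm) hV hW h' h1
  rwa [pieDm_Z, pieDm_Z, basDm_z, basDm_z, zc_dz, zc_dz] at h2

/-- Induction on `sz μ`. If `μ = 0` both are `1`. By `pair_one` there is `ν` with `E (V ν * W μ) = 1`. For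
`κ ∈ nb μ` with `sz κ < sz μ`: `pair_step` gives `κ' ∈ nb ν` with `E (V κ' * W κ) = 1`, and
`E (V κ * W κ) = 1` by induction, so `κ' = κ ∈ nb ν` by `match_left`. In the same way (exchange `V` and
`W`), for `κ ∈ nb ν` with `sz κ < sz μ` we have `κ ∈ nb μ`. If `sz ν < sz μ`, then
`E (V ν * W ν) = 1` by induction and `ν = μ` by `match_right`: contradiction. By `exists_down` there is
`κ ∈ nb μ` with `sz κ + 1 = sz μ`, and `κ ∈ nb ν`, so `sz ν ≤ sz κ + 1 = sz μ` (`sz_nb`). So
`sz ν = sz μ`, `zc ν = zc μ` by `pair_Z`, and `dm_eq` gives `ν = μ`. -/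
theorem idt {n : ℕ} (hE : ∀ f, 0 ≤ E (f * f)) (hn : 1 ≤ n) {V W : Dm n → B}
    (hV : Fam E (basDm n) V) (hW : Fam E (basDm n) W) (h : E (V (dst n) * W (dst n)) ≠ 0)
    (μ : Dm n) : E (V μ * W μ) = 1 := by
  have h' : E (V (pieDm hn).st * W (pieDm hn).st) ≠ 0 := by
    rw [pieDm_st]
    exact h
  have h'' : E (W (pieDm hn).st * V (pieDm hn).st) ≠ 0 := by
    rwa [mul_comm] at h'
  have ne1 : ∀ x : ℤ, x = 1 → x ≠ 0 := by
    rintro x rfl
    exact one_ne_zero
  have key : ∀ N : ℕ, ∀ μ : Dm n, sz μ = N → E (V μ * W μ) = 1 := by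
    intro N
    induction N using Nat.strong_induction_on with
    | _ N ih =>
      intro μ hN
      by_cases hμ : μ = dz n
      · have h1 := hV.one
        have h2 := hW.one
        rw [basDm_z] at h1 h2
        rw [hμ, h1, h2, mul_one, hV.mean_one]
      · have ih' : ∀ κ : Dm n, sz κ < sz μ → E (V κ * W κ) = 1 := fun κ hκ =>
          ih (sz κ) (hN ▸ hκ) κ rfl
        obtain ⟨ν, hν⟩ := pair_one hE (pieDm hn) (pieDm hn) hV hW h' μ
        have hν' : E (W μ * V ν) = 1 := by rwa [mul_comm] at hν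
        have s1 : ∀ κ ∈ nb μ, sz κ < sz μ → κ ∈ nb ν := by
          intro κ hκ hs
          obtain ⟨κ', h1, h2⟩ := pair_step hE (pieDm hn) (pieDm hn) hV hW h' hν
            (j' := κ) (by rw [pieDm_nb]; exact hκ)
          rw [pieDm_nb] at h1
          have h3 : κ' = κ := match_left hE hV hW (ne1 _ h2) (ne1 _ (ih' κ hs))
          rwa [h3] at h1
        have s2 : ∀ κ ∈ nb ν, sz κ < sz μ → κ ∈ nb μ := by
          intro κ hκ hs
          obtain ⟨κ', h1, h2⟩ := pair_step hE (pieDm hn) (pieDm hn) hW hV h'' hν'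
            (j' := κ) (by rw [pieDm_nb]; exact hκ)
          rw [pieDm_nb] at h1
          have h4 : E (W κ * V κ) = 1 := by rw [mul_comm]; exact ih' κ hs
          have h3 : κ' = κ := match_left hE hW hV (ne1 _ h2) (ne1 _ h4)
          rwa [h3] at h1
        have a1 : ¬ sz ν < sz μ := by
          intro hlt
          have h3 : μ = ν := match_right hE hV hW (ne1 _ hν) (ne1 _ (ih' ν hlt))
          rw [h3] at hlt
          exact lt_irrefl _ hlt
        obtain ⟨κ, hκ, hκs⟩ := exists_down μ hμ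
        have a2 : sz ν ≤ sz μ := by
          rcases sz_nb (s1 κ hκ (by omega)) with h1 | h1 | h1
          · omega
          · omega
          · rw [h1] at hκs
            omega
        have a3 : sz μ = sz ν := by omega
        have a4 : zc μ = zc ν := by
          have h1 := pair_Z hE (pieDm hn) (pieDm hn) hV hW h' hν
          rw [pieDm_Z] at h1
          exact h1.symm
        have a5 : μ = ν := dm_eq a3 a4 fun κ hκ =>
          ⟨fun h1 => s1 κ h1 (by omega), fun h1 => s2 κ h1 (by omega)⟩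
        rw [← a5] at hν
        exact hν
  exact key (sz μ) μ rfl

/-- `idt` and `match_sign`. -/
theorem idt_ae {n : ℕ} (hE : ∀ f, 0 ≤ E (f * f)) (hn : 1 ≤ n) {V W : Dm n → B}
    (hV : Fam E (basDm n) V) (hW : Fam E (basDm n) W) (h : E (V (dst n) * W (dst n)) ≠ 0)
    (μ : Dm n) : Ae E (V μ) (W μ) := by
  have h1 := idt hE hn hV hW h μ
  have h2 := (match_sign hE hV hW (i := μ) (j := μ) (by rw [h1]; exact one_ne_zero)).2
  rwa [h1, one_smul] at h2

end Pool.Agent.EEAP
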