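import Pool.Agent.W_eea520p_h56.AnF
import Pool.Agent.W_eea520p_h56.AnP
import Pool.Agent.W_eea520p_h56.PieDm

/-!
# Matched systems (MP_eea520_nt, theorem P)
-/

set_option autoImplicit false

namespace Pool.Agent.EEAP

open Filter Topology Pool.Agent.EEA520 Pool.Agent.EEAN Pool.Agent.EEAG1

private theorem Close_sum {n : ℕ} {π : GSys n} {B : Subring (Pr → ℝ)} {V : Dm n → B}
    (hV : ∀ μ, (V μ).1 = vf π (chi μ)) {f : R n} (hf : Inv0 f) :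
    ((∑ μ ∈ (dec f).support, (dec f μ) • V μ : B) : Pr → ℝ) = vf π f := by
  rw [vf_dec π hf, Finsupp.sum]
  have h1 : ((∑ μ ∈ (dec f).support, (dec f μ) • V μ : B) : Pr → ℝ) =
      B.subtype (∑ μ ∈ (dec f).support, (dec f μ) • V μ) := rfl
  rw [h1, map_sum]
  refine Finset.sum_congr rfl fun μ _ => ?_
  rw [map_zsmul]
  congr 1
  exact hV μ

/-- `exists_cpolR` gives `f` with `(cpol (π₁ p)).coeff k = trc π₁ f.coeff p = vf π₁ f p` (`vf_eq`), and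
`vf π₁ f = ∑ (dec f μ) V μ` (`vf_dec`), the same for `π₂` and `W`. The two sums `F`, `G` are equal a.e.
(`Ae.sum`, `Ae.smul`), so `E ((F - G) ^ 2) = 0` (`ae_iff`), and `Ord.summable` for `(F - G) ^ 2`. -/
theorem close_of {n : ℕ} {π₁ π₂ : GSys n} (h1 : Tempered π₁) (h2 : Tempered π₂)
    {B : Subring (Pr → ℝ)} {E : B →+ ℤ} (hE : ∀ f, Ord f.1 (E f)) (hp : ∀ f, 0 ≤ E (f * f))
    (hb : ∀ f : B, BdP f.1) {V W : Dm n → B} (hV : ∀ μ, (V μ).1 = vf π₁ (chi μ))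
    (hW : ∀ μ, (W μ).1 = vf π₂ (chi μ)) (h : ∀ μ, Ae E (V μ) (W μ)) (k : ℕ) :
    Summable fun p : Pr =>
      ‖(cpol (π₁ p)).coeff k - (cpol (π₂ p)).coeff k‖ ^ 2 / ((p : ℕ) : ℝ) := by
  obtain ⟨f, hf, hfc⟩ := exists_cpolR n k
  have e1 : ∀ p, (cpol (π₁ p)).coeff k = (vf π₁ f p : ℂ) := fun p => by
    rw [hfc (π₁ p), ← vf_eq h1 hf p]
    rfl
  have e2 : ∀ p, (cpol (π₂ p)).coeff k = (vf π₂ f p : ℂ) := fun p => by
    rw [hfc (π₂ p), ← vf_eq h2 hf p]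
    rfl
  have hF := Close_sum (B := B) hV hf
  have hG := Close_sum (B := B) hW hf
  set F : B := ∑ μ ∈ (dec f).support, (dec f μ) • V μ with hFd
  set G : B := ∑ μ ∈ (dec f).support, (dec f μ) • W μ with hGd
  have hae : Ae E F G := Ae.sum _ fun μ _ => (h μ).smul _
  have h0 : E ((F - G) * (F - G)) = 0 := (ae_iff hp).1 hae
  have hval : ∀ p, ((F - G) * (F - G)).1 p = (vf π₁ f p - vf π₂ f p) ^ 2 := fun p => by
    have h3 : ((F - G) * (F - G)).1 p = (F.1 p - G.1 p) * (F.1 p - G.1 p) := rfl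
    rw [h3, hF, hG, sq]
  have hord := hE ((F - G) * (F - G))
  rw [h0] at hord
  have hs := Ord.summable (fun p => by rw [hval p]; exact sq_nonneg _)
    (hb ((F - G) * (F - G))) hord
  refine hs.congr fun p => ?_
  rw [hval p, e1 p, e2 p, ← Complex.ofReal_sub, Complex.norm_real, Real.norm_eq_abs, sq_abs]

/-- `subst hnm`, `idt_ae` and `close_of`. -/
theorem close_of' {n m : ℕ} (hnm : n = m) (hn : 1 ≤ n) {π₁ : GSys n} {π₂ : GSys m}
    (h1 : Tempered π₁) (h2 : Tempered π₂)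
    {B : Subring (Pr → ℝ)} {E : B →+ ℤ} (hE : ∀ f, Ord f.1 (E f)) (hp : ∀ f, 0 ≤ E (f * f))
    (hb : ∀ f : B, BdP f.1) {V : Dm n → B} {W : Dm m → B} (hV : ∀ μ, (V μ).1 = vf π₁ (chi μ))
    (hW : ∀ μ, (W μ).1 = vf π₂ (chi μ)) (hV' : Fam E (basDm n) V) (hW' : Fam E (basDm m) W)
    (h : E (V (dst n) * W (dst m)) ≠ 0) (k : ℕ) :
    Summable fun p : Pr =>
      ‖(cpol (π₁ p)).coeff k - (cpol (π₂ p)).coeff k‖ ^ 2 / ((p : ℕ) : ℝ) := by
  subst hnm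
  exact close_of h1 h2 hE hp hb hV hW (fun μ => idt_ae hp hn hV' hW' h μ) k

end Pool.Agent.EEAP
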