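import Pool.Agent.W_eea520_n.Defs

/-!
# Euler products of tuples of systems (MP_eea520_nt, theorem P): definitions
-/

set_option autoImplicit false

namespace Pool.Agent.EEAP

open Filter Topology Pool.Agent.EEA520 Pool.Agent.EEAN

variable {r : ℕ} {n : Fin r → ℕ}

/-- `det (1 - ρ_1(t_1) ⊗ ⋯ ⊗ ρ_r(t_r) q)⁻¹` for the representations `ρ_i` with the characters `m i`. -/
noncomputable def factorP (t : (i : Fin r) → Torus (n i)) (m : (i : Fin r) → Wt (n i) →₀ ℤ)
    (q : ℂ) : ℂ :=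
  ∏ w ∈ Fintype.piFinset fun i => (m i).support,
    (1 - (∏ i, ((t i).ev (w i) : ℂ)) * q) ^ (-∏ i, m i (w i))

/-- Near the point `s₀`, `Re s₀ = 1`, the Euler product of `π_1 × ⋯ × π_r` for the characters `m i` is,
in the half plane `Re s > 1`, equal to `g`. -/
def IsLP (π : (i : Fin r) → GSys (n i)) (m : (i : Fin r) → Wt (n i) →₀ ℤ) (s₀ : ℂ) (g : ℂ → ℂ) :
    Prop :=
  ∀ᶠ s in 𝓝[{s | 1 < s.re}] s₀,
    HasProd (fun p : Pr => factorP (fun i => π i p) m (((p : ℕ) : ℂ) ^ (-s))) (g s)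

/-- The Euler product of `π_1 × ⋯ × π_r` for the characters `m i` is meromorphic at the point `s₀` of
the line `Re s = 1`. -/
def MeroAtP (π : (i : Fin r) → GSys (n i)) (m : (i : Fin r) → Wt (n i) →₀ ℤ) (s₀ : ℂ) : Prop :=
  ∃ g : ℂ → ℂ, MeromorphicAt g s₀ ∧ IsLP π m s₀ g

/-- The Euler product of `π_1 × ⋯ × π_r` for the characters `m i` is meromorphic at the point `s₀` of
the line `Re s = 1`, with a pole of order `k` if `k > 0`, a zero of order `-k` if `k < 0`, and it is
holomorphic and not zero there if `k = 0`. -/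
def PoleOrderP (π : (i : Fin r) → GSys (n i)) (m : (i : Fin r) → Wt (n i) →₀ ℤ) (s₀ : ℂ) (k : ℤ) :
    Prop :=
  ∃ g : ℂ → ℂ, MeromorphicAt g s₀ ∧ meromorphicOrderAt g s₀ = ((-k : ℤ) : WithTop ℤ) ∧
    IsLP π m s₀ g

/-- `m i` is the character of the irreducible representation of `SO_{2 n_i + 1}` with the highest
weight `μ i`. -/
def Irrs (μ : (i : Fin r) → Fin (n i) → ℤ) (m : (i : Fin r) → Wt (n i) →₀ ℤ) : Prop :=
  ∀ i, IsIrr 0 (μ i) (m i)

/-- The highest weights of the standard representations of `SO_{2 n_i + 1}` for the two indices `i = a`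
and `i = b`, and of the trivial representations for the other indices. -/
def stdWt (n : Fin r → ℕ) (a b : Fin r) (i : Fin r) (j : Fin (n i)) : ℤ :=
  if (i = a ∨ i = b) ∧ (j : ℕ) = 0 then 1 else 0

/-- The characteristic polynomial of the image of `t` in `SO_{2n+1}(ℂ)`. -/
noncomputable def cpol {n : ℕ} (t : Torus n) : Polynomial ℂ :=
  (Polynomial.X - Polynomial.C 1) * ∏ i, ((Polynomial.X - Polynomial.C (t.x i : ℂ)) *
    (Polynomial.X - Polynomial.C (((t.x i)⁻¹ : ℂˣ) : ℂ)))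

end Pool.Agent.EEAP
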