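import Pool.Agent.W_eea520p_h56.PieA

/-!
# Independence (MP_eea520_nt, theorem P): step 4
-/

set_option autoImplicit false

namespace Pool.Agent.EEAP

variable {B : Type} [CommRing B] {E : B →+ ℤ}

private theorem ind_four_z {I : Type} (b : Bas I) : ((b.N b.z b.z).sum fun _ a => a ^ 2) = 1 := by
  rw [b.one_mul, Finsupp.sum_single_index] <;> norm_num

/-- If a product of integers is `3` and every factor is `1` or at least `3`, then exactly one factor
is not `1`, and it is `3`. -/
private theorem ind_prod_three {κ : Type} [Fintype κ] [DecidableEq κ] (q : κ → ℤ)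
    (T : κ → Prop) (hq : ∀ k, T k → q k = 1) (hq' : ∀ k, ¬ T k → 3 ≤ q k)
    (h : ∏ k, q k = 3) : ∃ k, ¬ T k ∧ q k = 3 ∧ ∀ l, l ≠ k → T l := by
  classical
  have hpos : ∀ k, 1 ≤ q k := by
    intro k
    by_cases hk : T k
    · rw [hq k hk]
    · have := hq' k hk
      omega
  have hprod : ∀ s : Finset κ, 1 ≤ ∏ k ∈ s, q k := by
    intro s
    have h0 : 0 < ∏ k ∈ s, q k := Finset.prod_pos fun k _ => by
      have := hpos k
      omega
    omega
  have hex : ∃ k, ¬ T k := by
    by_contra hno
    push Not at hno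
    rw [Finset.prod_eq_one fun k _ => hq k (hno k)] at h
    norm_num at h
  obtain ⟨k, hk⟩ := hex
  rw [← Finset.mul_prod_erase Finset.univ q (Finset.mem_univ k)] at h
  have h1 := hq' k hk
  have h2 := hprod (Finset.univ.erase k)
  have h3 : ∏ l ∈ Finset.univ.erase k, q l = 1 := by nlinarith
  rw [h3, mul_one] at h
  refine ⟨k, hk, h, fun l hl => ?_⟩
  by_contra hT
  have h4 := hq' l hT
  rw [← Finset.mul_prod_erase (Finset.univ.erase k) q
    (Finset.mem_erase.2 ⟨hl, Finset.mem_univ l⟩)] at h3
  have h5 := hprod ((Finset.univ.erase k).erase l)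
  nlinarith

/-- STEP 4. Let the families `V k` be independent, and let some nontrivial product be matched with a
nontrivial member of `W`. Then some `V k st` is matched with `W st`.

Proof. Let `V' = fun i => ∏ k, V k (i k)`, a family by `Fam.pi`. The set `S` of all `j` such that
`E (V' i * W j) ≠ 0` for some `i` contains `z` and a nontrivial element and satisfies the closure
condition of `Pie.closed` by `match_closure`; so `st ∈ S`: `E (V' i * W st) ≠ 0` for some `i`. By
`match_sign` `V' i = ± W st` a.e., so `E (V' i ^ 4) = E (W st ^ 4)` (`Ae.mul`, the sign has square one)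
`= 3` (`Fam.four`, `Pie.four_st`), and by `Fam.four`, `four_pi` this is `∏ k, q k` with
`q k = ∑ a ^ 2` over `N (i k) (i k)`, which is `1` if `i k = z` (`one_mul`) and at least `3` otherwise
(`Pie.four_ge`). So exactly one `i k` is not `z` (if none, the product is `1`; if two, it is at least
`9`: the other factors are at least `1`), its `q k` is `3`, and `i k = st` by `Pie.four_eq`. So
`V' i = V k st`. -/
theorem step4 {κ : Type} [Fintype κ] [DecidableEq κ] {I : κ → Type} {J : Type}
    (hE : ∀ f, 0 ≤ E (f * f)) (h1 : E 1 = 1) {b : ∀ k, Bas (I k)} {c : Bas J}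
    {V : ∀ k, I k → B} {W : J → B} (P : ∀ k, Pie (b k)) (Q : Pie c)
    (hV : ∀ k, Fam E (b k) (V k)) (hW : Fam E c W)
    (hind : ∀ i : ∀ k, I k, i ≠ (fun k => (b k).z) → E (∏ k, V k (i k)) = 0)
    {i : ∀ k, I k} {j : J} (hi : i ≠ fun k => (b k).z) (hj : j ≠ c.z)
    (hij : E ((∏ k, V k (i k)) * W j) ≠ 0) : ∃ k, E (V k (P k).st * W Q.st) ≠ 0 := by
  classical
  have hF : Fam E (Bas.pi b) (fun i => ∏ k, V k (i k)) := Fam.pi hV h1 hind
  have hS : Q.st ∈ {j' | ∃ i' : ∀ k, I k, E ((∏ k, V k (i' k)) * W j') ≠ 0} := by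
    refine Q.closed hW {j' | ∃ i' : ∀ k, I k, E ((∏ k, V k (i' k)) * W j') ≠ 0} ?_ ?_
      ⟨j, ⟨i, hij⟩, hj⟩ _
    · refine ⟨fun k => (b k).z, ?_⟩
      rw [hW.one, mul_one, Finset.prod_eq_one fun k _ => (hV k).one, h1]
      exact one_ne_zero
    · rintro j1 ⟨i1, hi1⟩ j2 ⟨i2, hi2⟩ j3 hN
      obtain ⟨i3, hi3, _⟩ := match_closure hE hF hW hi1 hi2 hN
      exact ⟨i3, hi3⟩
  obtain ⟨i0, hi0⟩ := hS
  obtain ⟨hs1, hs2⟩ := match_sign hE hF hW hi0
  have hee : E ((∏ k, V k (i0 k)) * W Q.st) * E ((∏ k, V k (i0 k)) * W Q.st) = 1 := by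
    rcases hs1 with h | h <;> rw [h] <;> norm_num
  have h4 := ((hs2.mul hs2).mul (hs2.mul hs2)).val
  rw [hF.four i0] at h4
  have h5 : ((Bas.pi b).N i0 i0).sum (fun _ a => a ^ 2)
      = ∏ k, ((b k).N (i0 k) (i0 k)).sum fun _ a => a ^ 2 := four_pi b i0
  rw [h5] at h4
  generalize E ((∏ k, V k (i0 k)) * W Q.st) = e at hee h4
  have h6 : e • W Q.st * e • W Q.st * (e • W Q.st * e • W Q.st)
      = W Q.st * W Q.st * (W Q.st * W Q.st) := by
    have h7 : (e : B) * (e : B) = 1 := by rw [← Int.cast_mul, hee, Int.cast_one]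
    simp only [zsmul_eq_mul]
    linear_combination (W Q.st) ^ 4 * ((e : B) * (e : B) + 1) * h7
  rw [h6, hW.four, Q.four_st] at h4
  obtain ⟨k, hk1, hk2, hk3⟩ := ind_prod_three _ (fun k => i0 k = (b k).z)
    (fun k hk => by
      show ((b k).N (i0 k) (i0 k)).sum (fun _ a => a ^ 2) = 1
      rw [hk]
      exact ind_four_z (b k)) (fun k hk => (P k).four_ge (hV k) hk) h4
  have h8 : i0 k = (P k).st := (P k).four_eq (hV k) hk1 hk2
  refine ⟨k, ?_⟩
  have h9 : ∏ l, V l (i0 l) = V k (P k).st := by
    rw [Finset.prod_eq_single k, h8]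
    · intro l _ hl
      rw [hk3 l hl]
      exact (hV l).one
    · intro hn
      exact absurd (Finset.mem_univ k) hn
  rw [← h9]
  exact hi0

/-- Pairwise independence implies independence. Induction on `S` (`Finset.induction_on`): let
`k ∉ S`, and let `i` be trivial outside `insert k S` and not trivial. If `i k = z` then `i` is trivial
outside `S`. Otherwise suppose `E (∏ V l (i l)) ≠ 0`. The product is `(∏ l : S, V l (i l)) * V k (i k)`
(`Finset.prod_subset`, `one`). If all `i l = z` for `l ∈ S` this is `E (V k (i k)) = 0`. Otherwise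
`step4` for the families `V l`, `l : S` (subtype), which are independent by the induction hypothesis (for
`i' : ∀ l : S, I l` extend by `z`), and `W = V k` gives a contradiction to `hpair`. -/
theorem indep_of_pairs {r : ℕ} {I : Fin r → Type} (hE : ∀ f, 0 ≤ E (f * f)) (h1 : E 1 = 1)
    {b : ∀ k, Bas (I k)} {V : ∀ k, I k → B} (P : ∀ k, Pie (b k)) (hV : ∀ k, Fam E (b k) (V k))
    (S : Finset (Fin r))
    (hpair : ∀ k ∈ S, ∀ l ∈ S, k ≠ l → E (V k (P k).st * V l (P l).st) = 0)
    (i : ∀ k, I k) (hi : ∀ k, k ∉ S → i k = (b k).z) (hne : i ≠ fun k => (b k).z) :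
    E (∏ k, V k (i k)) = 0 := by
  classical
  induction S using Finset.induction_on generalizing i with
  | empty => exact absurd (funext fun k => hi k (Finset.notMem_empty k)) hne
  | insert k S hk ih =>
    have ih' := ih fun k' hk' l hl => hpair k' (Finset.mem_insert_of_mem hk') l
      (Finset.mem_insert_of_mem hl)
    by_cases hik : i k = (b k).z
    · refine ih' i (fun l hl => ?_) hne
      by_cases hlk : l = k
      · rw [hlk]
        exact hik
      · exact hi l fun hm => (Finset.mem_insert.1 hm).elim hlk hl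
    · by_contra hcon
      have hp1 : ∏ l, V l (i l) = (∏ l : {l // l ∈ S}, V l.1 (i l.1)) * V k (i k) := by
        rw [Finset.prod_coe_sort S (fun l => V l (i l)), mul_comm,
          ← Finset.prod_insert (f := fun l => V l (i l)) hk]
        symm
        refine Finset.prod_subset (Finset.subset_univ _) fun l _ hl => ?_
        rw [hi l hl]
        exact (hV l).one
      by_cases hall : ∀ l ∈ S, i l = (b l).z
      · have hp2 : ∏ l : {l // l ∈ S}, V l.1 (i l.1) = 1 :=
          Finset.prod_eq_one fun l _ => by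
            rw [hall l.1 l.2]
            exact (hV l.1).one
        rw [hp1, hp2, one_mul] at hcon
        exact hcon ((hV k).mean _ hik)
      · push Not at hall
        obtain ⟨l0, hl0, hl0'⟩ := hall
        have hind : ∀ i' : ∀ l : {l // l ∈ S}, I l.1,
            i' ≠ (fun l : {l // l ∈ S} => (b l.1).z) →
            E (∏ l : {l // l ∈ S}, V l.1 (i' l)) = 0 := by
          intro i' hi'
          have hz := ih' (fun l => if h : l ∈ S then i' ⟨l, h⟩ else (b l).z)
            (fun l hl => dif_neg hl) (fun hc => hi' (funext fun l => by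
              have := congrFun hc l.1
              simp only [l.2, dif_pos] at this
              exact this))
          rw [← hz]
          congr 1
          have hsub : ∏ l ∈ S, V l (if h : l ∈ S then i' ⟨l, h⟩ else (b l).z)
              = ∏ l, V l (if h : l ∈ S then i' ⟨l, h⟩ else (b l).z) :=
            Finset.prod_subset (Finset.subset_univ S) fun l _ hl => by
              rw [dif_neg hl]
              exact (hV l).one
          rw [← hsub, ← Finset.prod_coe_sort S
            (fun l => V l (if h : l ∈ S then i' ⟨l, h⟩ else (b l).z))]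
          refine Finset.prod_congr rfl fun l _ => ?_
          simp only [l.2, dif_pos]
        have hne' : (fun l : {l // l ∈ S} => i l.1) ≠ fun l : {l // l ∈ S} => (b l.1).z := fun hc =>
          hl0' (congrFun hc ⟨l0, hl0⟩)
        rw [hp1] at hcon
        obtain ⟨k', hk'⟩ := step4 (κ := {l // l ∈ S}) (I := fun l => I l.1) hE h1
          (b := fun l => b l.1) (V := fun l => V l.1) (fun l => P l.1) (P k)
          (fun l => hV l.1) (hV k) hind hne' hik hcon
        exact hk' (hpair k'.1 (Finset.mem_insert_of_mem k'.2) k (Finset.mem_insert_self k S)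
          fun hc => hk (hc ▸ k'.2))

end Pool.Agent.EEAP
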