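import Pool.Agent.W_eea520p_h56.Close
import Pool.Agent.W_eea520p_h56.Ind
import Pool.Agent.W_eea520p_h56.Line

/-!
# Tuples of systems: joint Sato-Tate laws from the pairs (MP_eea520_nt, theorem P)
-/

set_option autoImplicit false

namespace Pool.Agent.EEAP

open Filter Topology Pool.Agent.EEA520 Pool.Agent.EEAN Pool.Agent.EEAG1

variable {r : ℕ} {n : Fin r → ℕ}

theorem ord_cw_zero {π : (i : Fin r) → GSys (n i)} {E : BB π →+ ℤ} (hE : ∀ f, Ord f.1 (E f))
    (f : BB π) : Ord (fun p => f.1 p * cw 0 p) (E f) := by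
  have h : (fun p => f.1 p * cw 0 p) = f.1 := by
    funext p
    rw [cw_zero, mul_one]
  rw [h]
  exact hE f

/-- The pair orders. For `m` with `Irrs (stdWt n i j) m`: `exists_dm`, `prod_stdWt`, and `poleOrder_val`
for `t = 0`. -/
theorem pair_val {π : (i : Fin r) → GSys (n i)} (hπ : ∀ i, Tempered (π i))
    (hM : ∀ (μ : (i : Fin r) → Fin (n i) → ℤ) (m : (i : Fin r) → Wt (n i) →₀ ℤ), Irrs μ m →
      MeroAtP π m 1) {E : BB π →+ ℤ} (hE : ∀ f, Ord f.1 (E f)) {i j : Fin r} (hij : i ≠ j)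
    {m : (i : Fin r) → Wt (n i) →₀ ℤ} (hm : Irrs (stdWt n i j) m) :
    PoleOrderP π m 1 (E (vb π i (dst (n i)) * vb π j (dst (n j)))) := by
  obtain ⟨ν, hν⟩ := exists_dm hm
  have hm' : Irrs (fun k => (ν k).1) m := by
    intro k
    show IsIrr 0 (ν k).1 (m k)
    rw [hν k]
    exact hm k
  have hM' : MeroAtP π m (pt 0) := by
    rw [pt_zero]
    exact hM _ _ hm
  have h := poleOrder_val hπ (t := 0) (Et := E) (fun f => ord_cw_zero hE f) ν hm' hM'
  rw [pt_zero, prod_stdWt hij ν hν] at h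
  exact h

/-- There are characters with the weights `stdWt n i j` (`exists_isIrr`), so the value of `E` is zero if
all the orders for such `m` are zero (`exists_dm`, `prod_stdWt`, `val_of_poleOrder`). -/
theorem pair_zero {π : (i : Fin r) → GSys (n i)} (hπ : ∀ i, Tempered (π i))
    {E : BB π →+ ℤ} (hE : ∀ f, Ord f.1 (E f)) {i j : Fin r} (hij : i ≠ j)
    (h : ∀ m : (i : Fin r) → Wt (n i) →₀ ℤ, Irrs (stdWt n i j) m → PoleOrderP π m 1 0) :
    E (vb π i (dst (n i)) * vb π j (dst (n j))) = 0 := by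
  have hdom : ∀ k, Antitone (stdWt n i j k) ∧ ∀ l, 0 ≤ stdWt n i j k l := by
    intro k
    refine ⟨fun a b hab => ?_, fun l => ?_⟩
    · have h' : (a : ℕ) ≤ b := hab
      show (if (k = i ∨ k = j) ∧ (b : ℕ) = 0 then (1 : ℤ) else 0) ≤
        if (k = i ∨ k = j) ∧ (a : ℕ) = 0 then 1 else 0
      split_ifs with h1 h2 h2
      · exact le_rfl
      · exact absurd ⟨h1.1, by omega⟩ h2
      · exact zero_le_one
      · exact le_rfl
    · show (0 : ℤ) ≤ if (k = i ∨ k = j) ∧ (l : ℕ) = 0 then 1 else 0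
      split_ifs
      · exact zero_le_one
      · exact le_rfl
  let ν : (k : Fin r) → Dm (n k) := fun k => ⟨stdWt n i j k, hdom k⟩
  have hν : ∀ k, (ν k).1 = stdWt n i j k := fun k => rfl
  have hm : Irrs (stdWt n i j) fun k => (chi (ν k)).coeff := fun k => chi_irr (ν k)
  have h0 := h _ hm
  rw [← pt_zero] at h0
  have h1 := val_of_poleOrder hπ (t := 0) (Et := E) (fun f => ord_cw_zero hE f) ν
    (m := fun k => (chi (ν k)).coeff) hm h0
  rw [prod_stdWt hij ν hν] at h1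
  exact h1

/-- (A) `exists_E`, `fam_vb`, `pair_zero`, `indep_of_pairs` (with `pieDm`, `pieDm_st`), and
`poleOrder_val`. -/
theorem main_A (hn : ∀ i, 1 ≤ n i) {π : (i : Fin r) → GSys (n i)} (hπ : ∀ i, Tempered (π i))
    (hST : ∀ (i : Fin r) (μ : Fin (n i) → ℤ) (m : Wt (n i) →₀ ℤ), IsIrr 0 μ m → μ ≠ 0 →
      PoleOrder (π i) m 1 0)
    (hM : ∀ (μ : (i : Fin r) → Fin (n i) → ℤ) (m : (i : Fin r) → Wt (n i) →₀ ℤ), Irrs μ m →
      MeroAtP π m 1) (S : Finset (Fin r))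
    (hS : ∀ i ∈ S, ∀ j ∈ S, i ≠ j → ∀ m : (i : Fin r) → Wt (n i) →₀ ℤ, Irrs (stdWt n i j) m →
      PoleOrderP π m 1 0)
    (μ : (i : Fin r) → Fin (n i) → ℤ) (m : (i : Fin r) → Wt (n i) →₀ ℤ) (hm : Irrs μ m)
    (hμ : ∀ i, i ∉ S → μ i = 0) (hμ0 : μ ≠ 0) : PoleOrderP π m 1 0 := by
  obtain ⟨E, hE⟩ := exists_E hπ hM
  obtain ⟨ν, hν⟩ := exists_dm hm
  have hm' : Irrs (fun k => (ν k).1) m := by
    intro k
    show IsIrr 0 (ν k).1 (m k)
    rw [hν k]
    exact hm k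
  have hM' : MeroAtP π m (pt 0) := by
    rw [pt_zero]
    exact hM _ _ hm
  have h := poleOrder_val hπ (t := 0) (Et := E) (fun f => ord_cw_zero hE f) ν hm' hM'
  have h0 : E (∏ k, vb π k (ν k)) = 0 := by
    refine indep_of_pairs (E_nonneg hE) (E_one hE) (fun k => pieDm (hn k))
      (fun k => fam_vb hπ hST hE k) S ?_ ν ?_ ?_
    · intro k hk l hl hkl
      rw [pieDm_st, pieDm_st]
      exact pair_zero hπ hE hkl (hS k hk l hl hkl)
    · intro k hk
      rw [basDm_z]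
      apply Subtype.ext
      rw [hν k, hμ k hk]
      rfl
    · intro hc
      apply hμ0
      funext k
      rw [← hν k, hc]
      show ((basDm (n k)).z).1 = _
      rw [basDm_z]
      rfl
  rw [h0, pt_zero] at h
  exact h

/-- (B) `pair_val`; if the value of `E` is not zero, then it is one (`pair_st`), `n i = n j` (`n_eq`), and
`close_of'`. -/
theorem main_B (hn : ∀ i, 1 ≤ n i) {π : (i : Fin r) → GSys (n i)} (hπ : ∀ i, Tempered (π i))
    (hST : ∀ (i : Fin r) (μ : Fin (n i) → ℤ) (m : Wt (n i) →₀ ℤ), IsIrr 0 μ m → μ ≠ 0 →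
      PoleOrder (π i) m 1 0)
    (hM : ∀ (μ : (i : Fin r) → Fin (n i) → ℤ) (m : (i : Fin r) → Wt (n i) →₀ ℤ), Irrs μ m →
      MeroAtP π m 1) {i j : Fin r} (hij : i ≠ j) (m : (i : Fin r) → Wt (n i) →₀ ℤ)
    (hm : Irrs (stdWt n i j) m) :
    PoleOrderP π m 1 0 ∨ (PoleOrderP π m 1 1 ∧ n i = n j ∧ ∀ k, Summable fun p : Pr =>
      ‖(cpol (π i p)).coeff k - (cpol (π j p)).coeff k‖ ^ 2 / ((p : ℕ) : ℝ)) := by
  obtain ⟨E, hE⟩ := exists_E hπ hM
  have hv := pair_val hπ hM hE hij hm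
  have hpos := E_nonneg hE
  have hfam := fun k => fam_vb hπ hST hE k
  by_cases h : E (vb π i (dst (n i)) * vb π j (dst (n j))) = 0
  · left
    rw [h] at hv
    exact hv
  · right
    have h1 : E (vb π i (dst (n i)) * vb π j (dst (n j))) = 1 := by
      have h2 := pair_st hpos (pieDm (hn i)) (pieDm (hn j)) (hfam i) (hfam j)
        (by rw [pieDm_st, pieDm_st]; exact h)
      rw [pieDm_st, pieDm_st] at h2
      exact h2
    have hnn : n i = n j := n_eq hpos (hn i) (hn j) (hfam i) (hfam j) h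
    rw [h1] at hv
    exact ⟨hv, hnn, fun k => close_of' hnn (hn i) (hπ i) (hπ j) hE hpos (bb_bd hπ)
      (fun μ => rfl) (fun μ => rfl) (hfam i) (hfam j) h k⟩

/-- (C) Let `E` be as in (A), `Et` from `exists_Et`. `exists_maximal` for the relation
`E (vb k st * vb l st) ≠ 0` gives `S`; the hypotheses of `line_zero` are `indep_of_pairs`, and `pair_one`
with `match_sign`: every `vb π k μ` is a.e. equal to some `vb π l μ'`. So the orders at `pt t` are zero
(`poleOrder_val`). `exists_poleOrderP`, `natMean_cat`. -/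
theorem main_C (hn : ∀ i, 1 ≤ n i) {π : (i : Fin r) → GSys (n i)} (hπ : ∀ i, Tempered (π i))
    (hST : ∀ (i : Fin r) (μ : Fin (n i) → ℤ) (m : Wt (n i) →₀ ℤ), IsIrr 0 μ m → μ ≠ 0 →
      PoleOrder (π i) m 1 0)
    (hM : ∀ (t : ℝ) (μ : (i : Fin r) → Fin (n i) → ℤ) (m : (i : Fin r) → Wt (n i) →₀ ℤ),
      Irrs μ m → MeroAtP π m (pt t))
    (μ : (i : Fin r) → Fin (n i) → ℤ) (m : (i : Fin r) → Wt (n i) →₀ ℤ) (hm : Irrs μ m) :
    (∀ t : ℝ, t ≠ 0 → PoleOrderP π m (pt t) 0) ∧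
      ∃ k : ℤ, PoleOrderP π m 1 k ∧ NatMean (fun p => (∏ i, trc (π i) (m i) p).re) k := by
  have hM1 : ∀ (μ : (i : Fin r) → Fin (n i) → ℤ) (m : (i : Fin r) → Wt (n i) →₀ ℤ), Irrs μ m →
      MeroAtP π m 1 := by
    intro μ m h
    have h' := hM 0 μ m h
    rw [pt_zero] at h'
    exact h'
  obtain ⟨E, hE⟩ := exists_E hπ hM1
  obtain ⟨ν, hν⟩ := exists_dm hm
  have hm' : Irrs (fun k => (ν k).1) m := by
    intro k
    show IsIrr 0 (ν k).1 (m k)
    rw [hν k]
    exact hm k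
  have hpos := E_nonneg hE
  have h1 := E_one hE
  have hfam := fun k => fam_vb hπ hST hE k
  obtain ⟨S, hS1, hS2⟩ := exists_maximal
    (fun k l => E (vb π k (dst (n k)) * vb π l (dst (n l))) ≠ 0)
    (by
      intro k l h
      rw [mul_comm]
      exact h)
  have hind : ∀ i : ∀ k, Dm (n k), (∀ k, k ∉ S → i k = (basDm (n k)).z) →
      i ≠ (fun k => (basDm (n k)).z) → E (∏ k, vb π k (i k)) = 0 := by
    intro i hi hne
    refine indep_of_pairs hpos h1 (fun k => pieDm (hn k)) hfam S ?_ i hi hne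
    intro k hk l hl hkl
    rw [pieDm_st, pieDm_st]
    exact not_not.1 (hS1 k hk l hl hkl)
  have hmatch : ∀ k, k ∉ S → ∃ k' ∈ S, ∀ i, ∃ i', Ae E (vb π k i) (vb π k' i') := by
    intro k hk
    obtain ⟨l, hl, hkl⟩ := hS2 k hk
    refine ⟨l, hl, fun κ => ?_⟩
    obtain ⟨i', hi'⟩ := pair_one hpos (pieDm (hn l)) (pieDm (hn k)) (hfam l) (hfam k)
      (by
        rw [pieDm_st, pieDm_st, mul_comm]
        exact hkl) κ
    have h3 := (match_sign hpos (hfam l) (hfam k) (i := i') (j := κ)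
      (by rw [hi']; exact one_ne_zero)).2
    rw [hi', one_smul] at h3
    exact ⟨i', h3.symm⟩
  have hz : ∀ t : ℝ, t ≠ 0 → PoleOrderP π m (pt t) 0 := by
    intro t ht
    obtain ⟨Et, hEt⟩ := exists_Et hπ (hM t)
    have h := poleOrder_val hπ hEt ν hm' (hM t μ m hm)
    rw [line_zero hpos (Et_le hπ hE ht hEt) h1 hfam S hind hmatch ν] at h
    exact h
  obtain ⟨k, hk⟩ := exists_poleOrderP hπ (t := 0) (hM 0 μ m hm)
  rw [pt_zero] at hk
  exact ⟨hz, k, hk, natMean_cat hπ hk hz⟩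

end Pool.Agent.EEAP
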