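import Pool.Agent.W_eea520p_h56.RepD

/-!
# The graph of the dominant weights (MP_eea520_nt, theorem P)

Everything here is about the finsets `nb μ`, by `mem_nb`: `ν ∈ nb μ` if and only if `ν = μ ± e_i` for some
`i`, or `ν = μ` and all entries are positive.
-/

set_option autoImplicit false

namespace Pool.Agent.EEAP

open Pool.Agent.EEA520 Pool.Agent.EEAN

variable {n : ℕ}

theorem dst_ne (hn : 1 ≤ n) : dst n ≠ dz n := by
  intro h
  have h1 := congrFun (congrArg Subtype.val h) ⟨0, hn⟩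
  change (if (0 : ℕ) = 0 then (1 : ℤ) else 0) = 0 at h1
  simp at h1

theorem da_ne (hn : 1 ≤ n) : da n ≠ dz n := by
  intro h
  have h1 := congrFun (congrArg Subtype.val h) ⟨0, hn⟩
  change (if (0 : ℕ) ≤ 1 then (1 : ℤ) else 0) = 0 at h1
  simp at h1

theorem dc_ne (hn : 1 ≤ n) : dc n ≠ dz n := by
  intro h
  have h1 := congrFun (congrArg Subtype.val h) ⟨0, hn⟩
  change (if (0 : ℕ) = 0 then (2 : ℤ) else 0) = 0 at h1
  simp at h1

theorem dac_ne (hn : 1 ≤ n) : da n ≠ dc n := by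
  intro h
  have h1 := congrFun (congrArg Subtype.val h) ⟨0, hn⟩
  change (if (0 : ℕ) ≤ 1 then (1 : ℤ) else 0) = if (0 : ℕ) = 0 then (2 : ℤ) else 0 at h1
  simp at h1

private theorem NbA_up (μ : Dm n) (i : Fin n) (h : ∀ j, j < i → μ.1 i < μ.1 j) :
    ∃ κ ∈ nb μ, κ.1 = μ.1 + Pi.single i 1 := by
  refine ⟨⟨μ.1 + Pi.single i 1, ?_, ?_⟩, ?_, rfl⟩
  · intro a b hab
    show μ.1 b + (Pi.single i 1 : Fin n → ℤ) b ≤ μ.1 a + (Pi.single i 1 : Fin n → ℤ) a
    have h1 := μ.2.1 hab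
    rw [Pi.single_apply, Pi.single_apply]
    split_ifs with h2 h3 h3
    · omega
    · subst h2
      have := h a (lt_of_le_of_ne hab h3)
      omega
    · omega
    · omega
  · intro a
    show 0 ≤ μ.1 a + (Pi.single i 1 : Fin n → ℤ) a
    have h1 := μ.2.2 a
    rw [Pi.single_apply]
    split_ifs <;> omega
  · exact (mem_nb _ _).2 (Or.inl ⟨i, rfl⟩)

private theorem NbA_down (μ : Dm n) (i : Fin n) (h0 : 0 < μ.1 i)
    (h : ∀ j, i < j → μ.1 j < μ.1 i) : ∃ κ ∈ nb μ, κ.1 = μ.1 - Pi.single i 1 := by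
  refine ⟨⟨μ.1 - Pi.single i 1, ?_, ?_⟩, ?_, rfl⟩
  · intro a b hab
    show μ.1 b - (Pi.single i 1 : Fin n → ℤ) b ≤ μ.1 a - (Pi.single i 1 : Fin n → ℤ) a
    have h1 := μ.2.1 hab
    rw [Pi.single_apply, Pi.single_apply]
    split_ifs with h2 h3 h3
    · omega
    · omega
    · subst h3
      have := h b (lt_of_le_of_ne hab (Ne.symm h2))
      omega
    · omega
  · intro a
    show 0 ≤ μ.1 a - (Pi.single i 1 : Fin n → ℤ) a
    have h1 := μ.2.2 a
    rw [Pi.single_apply]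
    split_ifs with h2
    · subst h2
      omega
    · omega
  · exact (mem_nb _ _).2 (Or.inr (Or.inl ⟨i, rfl⟩))

/-- `μ + e_0` is always a neighbour. -/
theorem nb_up0 (hn : 1 ≤ n) (μ : Dm n) : ∃ κ ∈ nb μ, κ.1 = μ.1 + Pi.single ⟨0, hn⟩ 1 :=
  NbA_up μ ⟨0, hn⟩ fun _ hj => absurd (Fin.lt_def.1 hj) (Nat.not_lt_zero _)

/-- If `i` is the first index with `μ i = 0`, then `μ + e_i` is a neighbour. -/
theorem nb_upz (μ : Dm n) (h : ∃ i, μ.1 i = 0) : ∃ i, μ.1 i = 0 ∧ (∀ j, j < i → μ.1 j ≠ 0) ∧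
    ∃ κ ∈ nb μ, κ.1 = μ.1 + Pi.single i 1 := by
  obtain ⟨i, hi, hm⟩ := WellFounded.has_min (wellFounded_lt (α := Fin n)) {i | μ.1 i = 0} h
  have hi' : μ.1 i = 0 := hi
  have hm' : ∀ j, j < i → μ.1 j ≠ 0 := fun j hj h0 => hm j h0 hj
  refine ⟨i, hi', hm', NbA_up μ i fun j hj => ?_⟩
  have h1 := hm' j hj
  have h2 := μ.2.2 j
  omega

/-- If `i` is the last index with `μ i ≠ 0`, then `μ - e_i` is a neighbour. -/
theorem nb_down (μ : Dm n) (h : μ ≠ dz n) : ∃ i, μ.1 i ≠ 0 ∧ (∀ j, i < j → μ.1 j = 0) ∧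
    ∃ κ ∈ nb μ, κ.1 = μ.1 - Pi.single i 1 := by
  have hne : ∃ i, μ.1 i ≠ 0 := by
    by_contra hc
    push Not at hc
    exact h (Subtype.ext (funext hc))
  obtain ⟨i, hi, hm⟩ := WellFounded.has_min (wellFounded_gt (α := Fin n)) {i | μ.1 i ≠ 0} hne
  have hi' : μ.1 i ≠ 0 := hi
  have hm' : ∀ j, i < j → μ.1 j = 0 := by
    intro j hj
    by_contra h0
    exact hm j h0 hj
  have hp := μ.2.2 i
  refine ⟨i, hi', hm', NbA_down μ i (by omega) fun j hj => ?_⟩
  rw [hm' j hj]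
  omega

theorem nb_symm {μ ν : Dm n} (h : ν ∈ nb μ) : μ ∈ nb ν := by
  rw [mem_nb] at h ⊢
  rcases h with ⟨i, hi⟩ | ⟨i, hi⟩ | ⟨h1, h2⟩
  · exact Or.inr (Or.inl ⟨i, by rw [hi, add_sub_cancel_right]⟩)
  · exact Or.inl ⟨i, by rw [hi, sub_add_cancel]⟩
  · subst h1
    exact Or.inr (Or.inr ⟨rfl, h2⟩)

/-- Three neighbours: `μ + e_0` (`nb_up0`), `μ - e_i` (`nb_down`), and `μ` itself if all entries are
positive, and otherwise `μ + e_j` for the first zero `j` (`nb_upz`); `j ≠ 0` as `μ 0 ≠ 0`. -/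
theorem nb_card (hn : 1 ≤ n) (μ : Dm n) (h : μ ≠ dz n) : 3 ≤ (nb μ).card := by
  obtain ⟨κ1, hκ1, e1⟩ := nb_up0 hn μ
  obtain ⟨i, hi, -, κ2, hκ2, e2⟩ := nb_down μ h
  have hs : ∀ a b : Fin n, 0 ≤ (Pi.single a 1 : Fin n → ℤ) b := by
    intro a b
    rw [Pi.single_apply]
    split_ifs <;> norm_num
  have v1 : κ1.1 ⟨0, hn⟩ = μ.1 ⟨0, hn⟩ + 1 := by
    rw [e1, Pi.add_apply, Pi.single_eq_same]
  have v2 : ∀ a, κ2.1 a ≤ μ.1 a := by
    intro a
    rw [e2, Pi.sub_apply]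
    have := hs i a
    omega
  have v2' : κ2.1 i = μ.1 i - 1 := by
    rw [e2, Pi.sub_apply, Pi.single_eq_same]
  have h12 : κ1 ≠ κ2 := by
    intro hc
    have h1 := v2 ⟨0, hn⟩
    rw [← hc, v1] at h1
    omega
  refine Finset.two_lt_card_iff.2 ?_
  by_cases hp : ∀ a, 0 < μ.1 a
  · refine ⟨κ1, κ2, μ, hκ1, hκ2, (mem_nb _ _).2 (Or.inr (Or.inr ⟨rfl, hp⟩)), h12, ?_, ?_⟩
    · intro hc
      rw [hc] at v1
      omega
    · intro hc
      rw [hc] at v2'
      omega
  · push Not at hp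
    obtain ⟨a, ha⟩ := hp
    have ha0 : μ.1 a = 0 := le_antisymm ha (μ.2.2 a)
    obtain ⟨j, hj, -, κ3, hκ3, e3⟩ := nb_upz μ ⟨a, ha0⟩
    have hj0 : j ≠ ⟨0, hn⟩ := by
      rintro rfl
      have h1 : μ.1 i ≤ μ.1 ⟨0, hn⟩ := μ.2.1 (Fin.le_def.2 (Nat.zero_le _))
      have h2 := μ.2.2 i
      omega
    refine ⟨κ1, κ2, κ3, hκ1, hκ2, hκ3, h12, ?_, ?_⟩
    · intro hc
      have h1 : κ3.1 ⟨0, hn⟩ = μ.1 ⟨0, hn⟩ := by
        rw [e3, Pi.add_apply, Pi.single_eq_of_ne (Ne.symm hj0), add_zero]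
      rw [← hc] at h1
      omega
    · intro hc
      have h1 : κ3.1 j = μ.1 j + 1 := by
        rw [e3, Pi.add_apply, Pi.single_eq_same]
      have h2 := v2 j
      rw [hc] at h2
      omega

theorem nb_dst (hn : 1 ≤ n) (κ : Dm n) : κ ∈ nb (dst n) ↔ κ = dz n ∨ κ = da n ∨ κ = dc n := by
  have hd : ∀ j : Fin n, (dst n).1 j = if (j : ℕ) = 0 then 1 else 0 := fun j => rfl
  have hdz : ∀ j : Fin n, (dz n).1 j = 0 := fun j => rfl
  have hda : ∀ j : Fin n, (da n).1 j = if (j : ℕ) ≤ 1 then 1 else 0 := fun j => rfl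
  have hdc : ∀ j : Fin n, (dc n).1 j = if (j : ℕ) = 0 then 2 else 0 := fun j => rfl
  have hsg : ∀ a b : Fin n, (Pi.single a 1 : Fin n → ℤ) b = if (b : ℕ) = (a : ℕ) then 1 else 0 := by
    intro a b
    rw [Pi.single_apply]
    simp only [Fin.ext_iff]
  rw [mem_nb]
  constructor
  · rintro (⟨i, hi⟩ | ⟨i, hi⟩ | ⟨h1, h2⟩)
    · have hv : ∀ j : Fin n, κ.1 j = (if (j : ℕ) = 0 then 1 else 0) +
          if (j : ℕ) = (i : ℕ) then 1 else 0 := by
        intro j
        rw [hi, Pi.add_apply, hd, hsg]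
      rcases Nat.lt_or_ge (i : ℕ) 1 with h0 | h0
      · right; right
        refine Subtype.ext (funext fun j => ?_)
        rw [hv, hdc]
        split_ifs <;> omega
      · rcases Nat.lt_or_ge (i : ℕ) 2 with h1 | h1
        · right; left
          refine Subtype.ext (funext fun j => ?_)
          rw [hv, hda]
          split_ifs <;> omega
        · exfalso
          have hin := i.2
          have h2 := κ.2.1 (show (⟨1, by omega⟩ : Fin n) ≤ i from Fin.le_def.2 (by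
            show 1 ≤ (i : ℕ)
            omega))
          rw [hv, hv] at h2
          have e1 : ((⟨1, by omega⟩ : Fin n) : ℕ) = 1 := rfl
          rw [e1] at h2
          split_ifs at h2 <;> omega
    · have hv : ∀ j : Fin n, κ.1 j = (if (j : ℕ) = 0 then 1 else 0) -
          if (j : ℕ) = (i : ℕ) then 1 else 0 := by
        intro j
        rw [hi, Pi.sub_apply, hd, hsg]
      left
      have h0 : (i : ℕ) = 0 := by
        by_contra h0
        have h1 := κ.2.2 i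
        rw [hv, if_neg h0, if_pos rfl] at h1
        omega
      refine Subtype.ext (funext fun j => ?_)
      rw [hv, hdz, h0, sub_self]
    · right; left
      have hn1 : n < 2 := by
        by_contra hc
        have h3 := h2 ⟨1, by omega⟩
        rw [hd] at h3
        have e1 : ((⟨1, by omega⟩ : Fin n) : ℕ) = 1 := rfl
        rw [e1] at h3
        norm_num at h3
      rw [h1]
      refine Subtype.ext (funext fun j => ?_)
      rw [hd, hda]
      have := j.2
      split_ifs <;> omega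
  · rintro (rfl | rfl | rfl)
    · right; left
      refine ⟨⟨0, hn⟩, funext fun j => ?_⟩
      rw [Pi.sub_apply, hdz, hd, hsg]
      simp
    · by_cases hn1 : n < 2
      · right; right
        refine ⟨Subtype.ext (funext fun j => ?_), fun j => ?_⟩
        · rw [hd, hda]
          have := j.2
          split_ifs <;> omega
        · rw [hd]
          have := j.2
          rw [if_pos (by omega)]
          norm_num
      · left
        refine ⟨⟨1, by omega⟩, funext fun j => ?_⟩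
        rw [Pi.add_apply, hda, hd, hsg]
        have e1 : ((⟨1, by omega⟩ : Fin n) : ℕ) = 1 := rfl
        rw [e1]
        split_ifs <;> omega
    · left
      refine ⟨⟨0, hn⟩, funext fun j => ?_⟩
      rw [Pi.add_apply, hdc, hd, hsg]
      have e1 : ((⟨0, hn⟩ : Fin n) : ℕ) = 0 := rfl
      rw [e1]
      split_ifs <;> omega

end Pool.Agent.EEAP
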