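import Pool.Agent.W_eea520p_h56.NbZ

/-!
# A weight is determined by its lower neighbours (MP_eea520_nt, theorem P)
-/

set_option autoImplicit false

namespace Pool.Agent.EEAP

open Pool.Agent.EEA520 Pool.Agent.EEAN

variable {n : ℕ}

/-- The size of a weight. -/
def sz (μ : Dm n) : ℕ := ∑ i, (μ.1 i).toNat

theorem sz_eq (μ : Dm n) : (sz μ : ℤ) = ∑ i, μ.1 i := by
  unfold sz
  rw [Nat.cast_sum]
  exact Finset.sum_congr rfl fun i _ => Int.toNat_of_nonneg (μ.2.2 i)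

theorem sz_zero (μ : Dm n) : sz μ = 0 ↔ μ = dz n := by
  constructor
  · intro h
    unfold sz at h
    rw [Finset.sum_eq_zero_iff] at h
    refine Subtype.ext (funext fun i => ?_)
    have h1 := h i (Finset.mem_univ i)
    have h2 := μ.2.2 i
    show μ.1 i = 0
    omega
  · rintro rfl
    exact Finset.sum_eq_zero fun i _ => rfl

private theorem NbB_add {μ κ : Dm n} (i : Fin n) (h : κ.1 = μ.1 + Pi.single i 1) :
    sz κ = sz μ + 1 := by
  have h1 : (sz κ : ℤ) = sz μ + 1 := by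
    rw [sz_eq, sz_eq, h]
    simp only [Pi.add_apply]
    rw [Finset.sum_add_distrib, Finset.sum_pi_single' i (1 : ℤ) Finset.univ]
    simp
  exact_mod_cast h1

private theorem NbB_sub {μ κ : Dm n} (i : Fin n) (h : κ.1 = μ.1 - Pi.single i 1) :
    sz κ + 1 = sz μ :=
  (NbB_add i (by rw [h, sub_add_cancel])).symm

theorem sz_nb {μ κ : Dm n} (h : κ ∈ nb μ) : sz κ = sz μ + 1 ∨ sz κ + 1 = sz μ ∨ κ = μ := by
  rw [mem_nb] at h
  rcases h with ⟨i, hi⟩ | ⟨i, hi⟩ | ⟨h1, -⟩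
  · exact Or.inl (NbB_add i hi)
  · exact Or.inr (Or.inl (NbB_sub i hi))
  · exact Or.inr (Or.inr h1)

/-- `nb_down`. -/
theorem exists_down (μ : Dm n) (h : μ ≠ dz n) : ∃ κ ∈ nb μ, sz κ + 1 = sz μ := by
  obtain ⟨i, -, -, κ, hκ, e⟩ := nb_down μ h
  exact ⟨κ, hκ, NbB_sub i e⟩

private theorem NbB_down (μ : Dm n) (i : Fin n) (h0 : 0 < μ.1 i)
    (h : ∀ j, i < j → μ.1 j < μ.1 i) : ∃ κ ∈ nb μ, κ.1 = μ.1 - Pi.single i 1 := by
  refine ⟨⟨μ.1 - Pi.single i 1, ?_, ?_⟩, ?_, rfl⟩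
  · intro a b hab
    show μ.1 b - (Pi.single i 1 : Fin n → ℤ) b ≤ μ.1 a - (Pi.single i 1 : Fin n → ℤ) a
    have h1 := μ.2.1 hab
    rw [Pi.single_apply, Pi.single_apply]
    split_ifs with h2 h3 h3
    · omega
    · omega
    · subst h3
      have := h b (lt_of_le_of_ne hab (Ne.symm h2))
      omega
    · omega
  · intro a
    show 0 ≤ μ.1 a - (Pi.single i 1 : Fin n → ℤ) a
    have h1 := μ.2.2 a
    rw [Pi.single_apply]
    split_ifs with h2
    · subst h2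
      omega
    · omega
  · exact (mem_nb _ _).2 (Or.inr (Or.inl ⟨i, rfl⟩))

/-- If `i` is the last index with `μ i = μ 0`, and `μ 0 ≠ 0`, then `μ - e_i` is a neighbour. -/
theorem nb_down0 (μ : Dm n) (h : μ ≠ dz n) : ∃ i, (∀ j, j ≤ i → μ.1 j = μ.1 i) ∧
    (∀ j, i < j → μ.1 j < μ.1 i) ∧ ∃ κ ∈ nb μ, κ.1 = μ.1 - Pi.single i 1 := by
  obtain ⟨a, ha, -, -⟩ := nb_down μ h
  have hn : 0 < n := lt_of_le_of_lt (Nat.zero_le _) a.2
  obtain ⟨i, hi, hm⟩ := WellFounded.has_min (wellFounded_gt (α := Fin n))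
    {i | μ.1 i = μ.1 ⟨0, hn⟩} ⟨⟨0, hn⟩, rfl⟩
  have hi' : μ.1 i = μ.1 ⟨0, hn⟩ := hi
  have h1 : ∀ j, μ.1 j ≤ μ.1 i := by
    intro j
    rw [hi']
    exact μ.2.1 (Fin.le_def.2 (Nat.zero_le _))
  have h2 : ∀ j, i < j → μ.1 j < μ.1 i := by
    intro j hj
    refine lt_of_le_of_ne (h1 j) fun hc => ?_
    exact hm j (hc.trans hi') hj
  refine ⟨i, fun j hj => le_antisymm (h1 j) (μ.2.1 hj), h2, NbB_down μ i ?_ h2⟩
  have h3 := h1 a
  have h4 := μ.2.2 a
  omega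

private theorem NbB_inj {i j : Fin n} {f : Fin n → ℤ}
    (h : f - Pi.single i 1 = f - Pi.single j 1) : i = j := by
  by_contra hc
  have h1 := congrFun h i
  rw [Pi.sub_apply, Pi.sub_apply, Pi.single_eq_same, Pi.single_eq_of_ne hc] at h1
  omega

/-- If `μ` has only one lower neighbour, then `μ` is a rectangle: all nonzero entries are equal.
(`nb_down` and `nb_down0` give the same index.) -/
theorem rect_of {μ : Dm n} (h : μ ≠ dz n)
    (h1 : ∀ κ ∈ nb μ, ∀ κ' ∈ nb μ, sz κ + 1 = sz μ → sz κ' + 1 = sz μ → κ = κ') :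
    ∀ i j, μ.1 i ≠ 0 → μ.1 j ≠ 0 → μ.1 i = μ.1 j := by
  obtain ⟨a, -, ha, κ, hκ, e⟩ := nb_down μ h
  obtain ⟨b, hb, -, κ', hκ', e'⟩ := nb_down0 μ h
  have h2 := h1 κ hκ κ' hκ' (NbB_sub a e) (NbB_sub b e')
  have h3 : a = b := NbB_inj (f := μ.1) (by rw [← e, ← e', h2])
  subst h3
  have h4 : ∀ j, μ.1 j ≠ 0 → μ.1 j = μ.1 a := by
    intro j hj
    refine hb j ?_
    by_contra hc
    exact hj (ha j (lt_of_not_ge hc))
  intro i j hi hj
  rw [h4 i hi, h4 j hj]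

private theorem NbB_zsub {μ ν : Dm n} (hZ : zc μ = zc ν) (i : Fin n) (h : μ.1 i = 0) :
    ν.1 i = 0 := by
  classical
  by_contra hc
  have h1 : (Finset.univ.filter fun j => ν.1 j = 0) ⊆ Finset.Ioi i := by
    intro j hj
    have hj' := (Finset.mem_filter.1 hj).2
    rw [Finset.mem_Ioi]
    by_contra h2
    have h3 := ν.2.1 (not_lt.1 h2)
    have h4 := ν.2.2 i
    omega
  have h2 : Finset.Ici i ⊆ Finset.univ.filter fun j => μ.1 j = 0 := by
    intro j hj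
    rw [Finset.mem_Ici] at hj
    refine Finset.mem_filter.2 ⟨Finset.mem_univ j, ?_⟩
    have h3 := μ.2.1 hj
    have h4 := μ.2.2 j
    omega
  have h3 : Finset.Ioi i ⊂ Finset.Ici i := Finset.ssubset_iff_of_subset
    (fun j hj => Finset.mem_Ici.2 (Finset.mem_Ioi.1 hj).le) |>.2
    ⟨i, Finset.mem_Ici.2 le_rfl, fun h4 => lt_irrefl _ (Finset.mem_Ioi.1 h4)⟩
  have h4 := Finset.card_le_card h1
  have h5 := Finset.card_le_card h2
  have h6 := Finset.card_lt_card h3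
  unfold zc at hZ
  omega

private theorem NbB_rsum {μ : Dm n} (i : Fin n) (hi : μ.1 i ≠ 0)
    (h1 : ∀ i j, μ.1 i ≠ 0 → μ.1 j ≠ 0 → μ.1 i = μ.1 j) :
    (sz μ : ℤ) = (n - zc μ : ℕ) * μ.1 i := by
  classical
  rw [sz_eq, ← Finset.sum_filter_add_sum_filter_not Finset.univ fun j => μ.1 j = 0]
  rw [Finset.sum_eq_zero fun j hj => (Finset.mem_filter.1 hj).2, zero_add,
    Finset.sum_congr rfl fun j hj => h1 j i (Finset.mem_filter.1 hj).2 hi, Finset.sum_const,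
    nsmul_eq_mul]
  have h2 := Finset.card_filter_add_card_filter_not (s := (Finset.univ : Finset (Fin n)))
    (fun j => μ.1 j = 0)
  rw [Finset.card_univ, Fintype.card_fin] at h2
  have h3 : (Finset.univ.filter fun j => ¬ μ.1 j = 0).card = n - zc μ := by
    unfold zc
    omega
  rw [h3]

/-- Two rectangles with the same size and the same number of rows are equal. -/
theorem rect_eq {μ ν : Dm n} (hs : sz μ = sz ν) (hZ : zc μ = zc ν)
    (h1 : ∀ i j, μ.1 i ≠ 0 → μ.1 j ≠ 0 → μ.1 i = μ.1 j)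
    (h2 : ∀ i j, ν.1 i ≠ 0 → ν.1 j ≠ 0 → ν.1 i = ν.1 j) : μ = ν := by
  refine Subtype.ext (funext fun i => ?_)
  by_cases hi : μ.1 i = 0
  · rw [hi, NbB_zsub hZ i hi]
  · have hi' : ν.1 i ≠ 0 := fun hc => hi (NbB_zsub hZ.symm i hc)
    have h3 := NbB_rsum i hi h1
    have h4 := NbB_rsum i hi' h2
    rw [hs, h4, hZ] at h3
    have h5 : ((n - zc ν : ℕ) : ℤ) ≠ 0 := by
      intro h6
      rw [h6, zero_mul] at h4
      have h7 : sz ν = 0 := by exact_mod_cast h4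
      exact hi' (congrFun (congrArg Subtype.val ((sz_zero ν).1 h7)) i)
    exact (mul_left_cancel₀ h5 h3).symm

private theorem NbB_low {μ κ : Dm n} (h : κ ∈ nb μ) (hs : sz κ + 1 = sz μ) :
    ∃ i, κ.1 = μ.1 - Pi.single i 1 := by
  rw [mem_nb] at h
  rcases h with ⟨i, hi⟩ | ⟨i, hi⟩ | ⟨h1, -⟩
  · have := NbB_add i hi
    omega
  · exact ⟨i, hi⟩
  · rw [h1] at hs
    omega

/-- If `μ` has two different lower neighbours `κ = μ - e_i` and `κ' = μ - e_j`, `i ≠ j`, then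
`ν = κ + e_k = κ' + e_l`, so `e_k - e_i = e_l - e_j`, so `k = i` and `ν = μ` (a lower neighbour of size
`sz ν - 1` is `ν - e_k`). Otherwise `μ`, and then also `ν`, has only one lower neighbour, and `rect_of`,
`rect_eq` apply. (The case `μ = 0` is `sz_zero`.) -/
theorem dm_eq {μ ν : Dm n} (hs : sz μ = sz ν) (hZ : zc μ = zc ν)
    (h : ∀ κ, sz κ + 1 = sz μ → (κ ∈ nb μ ↔ κ ∈ nb ν)) : μ = ν := by
  by_cases hμ : μ = dz n
  · have h1 : sz ν = 0 := by rw [← hs, (sz_zero μ).2 hμ]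
    rw [hμ, (sz_zero ν).1 h1]
  · have hν : ν ≠ dz n := by
      intro h1
      rw [(sz_zero ν).2 h1] at hs
      exact hμ ((sz_zero μ).1 hs)
    by_cases h1 : ∀ κ ∈ nb μ, ∀ κ' ∈ nb μ, sz κ + 1 = sz μ → sz κ' + 1 = sz μ → κ = κ'
    · refine rect_eq hs hZ (rect_of hμ h1) (rect_of hν fun κ hκ κ' hκ' h2 h3 => ?_)
      rw [← hs] at h2 h3
      exact h1 κ ((h κ h2).2 hκ) κ' ((h κ' h3).2 hκ') h2 h3
    · push Not at h1
      obtain ⟨κ, hκ, κ', hκ', h2, h3, hne⟩ := h1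
      obtain ⟨i, ei⟩ := NbB_low hκ h2
      obtain ⟨j, ej⟩ := NbB_low hκ' h3
      obtain ⟨k, ek⟩ := NbB_low ((h κ h2).1 hκ) (h2.trans hs)
      obtain ⟨l, el⟩ := NbB_low ((h κ' h3).1 hκ') (h3.trans hs)
      have hij : i ≠ j := by
        rintro rfl
        exact hne (Subtype.ext (by rw [ei, ej]))
      have e1 : μ.1 i - 1 = ν.1 i - (Pi.single k 1 : Fin n → ℤ) i := by
        have := congrFun (ei.symm.trans ek) i
        rwa [Pi.sub_apply, Pi.sub_apply, Pi.single_eq_same] at this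
      have e2 : μ.1 i - 0 = ν.1 i - (Pi.single l 1 : Fin n → ℤ) i := by
        have := congrFun (ej.symm.trans el) i
        rwa [Pi.sub_apply, Pi.sub_apply, Pi.single_eq_of_ne hij] at this
      have hik : i = k := by
        by_contra hc
        rw [Pi.single_eq_of_ne hc] at e1
        rw [Pi.single_apply] at e2
        split_ifs at e2 <;> omega
      subst hik
      refine Subtype.ext ?_
      exact sub_left_injective (ei.symm.trans ek)

end Pool.Agent.EEAP
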