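import Pool.Agent.W_eea520p_h56.AbsP

/-!
# The standard representation: abstract form (MP_eea520_nt, theorem P)
-/

set_option autoImplicit false

namespace Pool.Agent.EEAP

/-- The combinatorial facts about tensor products with the standard representation `st`: `nb i` is the
set of the constituents of `st ⊗ i` (all with multiplicity one), `st ⊗ st = z + a + c`, `Z` is the
distance to the set of the `i` with `i ∈ nb i`, and `dbl i` is a constituent of `i ⊗ i`. -/
structure Pie {I : Type} (b : Bas I) where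
  /-- the standard representation -/
  st : I
  /-- the exterior square -/
  a : I
  /-- the symmetric square without the trivial representation -/
  c : I
  /-- the neighbours -/
  nb : I → Finset I
  /-- the distance to the loops -/
  Z : I → ℕ
  /-- the double of the highest weight -/
  dbl : I → I
  N_mem : ∀ i, ∀ k ∈ nb i, b.N st i k = 1
  N_not : ∀ i k, k ∉ nb i → b.N st i k = 0
  card_nb : ∀ i, i ≠ b.z → 3 ≤ (nb i).card
  nb_st : ∀ k, k ∈ nb st ↔ k = b.z ∨ k = a ∨ k = c
  a_ne : a ≠ b.z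
  c_ne : c ≠ b.z
  ac_ne : a ≠ c
  st_ne : st ≠ b.z
  nac : b.N a a c = b.N c c a
  reach : ∀ S : Set I, b.z ∈ S → (∀ i ∈ S, ∀ k ∈ nb i, k ∈ S) → ∀ i, i ∈ S
  even : ∀ S : Set I, b.z ∈ S → (∀ i ∈ S, ∀ k ∈ nb i, ∀ l ∈ nb k, l ∈ S) → st ∈ S
  loop : ∃ i, i ∈ nb i
  Z_zero : ∀ i, Z i = 0 ↔ i ∈ nb i
  Z_succ : ∀ i d, Z i ≤ d + 1 ↔ ∃ k ∈ nb i, Z k ≤ d
  N_dbl : ∀ i, b.N i i (dbl i) ≠ 0
  dbl_eq : ∀ i, i ≠ b.z → (dbl i = b.z ∨ dbl i = a ∨ dbl i = c) → i = st

variable {B : Type} [CommRing B] {E : B →+ ℤ} {I : Type} {b : Bas I} {V : I → B}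

/-- `V st * V i = ∑ k ∈ nb i, V k`. -/
theorem Pie.mul_st (P : Pie b) (h : Fam E b V) (i : I) : V P.st * V i = ∑ k ∈ P.nb i, V k := by
  rw [h.mul, Finsupp.sum_of_support_subset (s := P.nb i)]
  · refine Finset.sum_congr rfl fun k hk => ?_
    rw [P.N_mem i k hk, one_smul]
  · intro k hk
    by_contra hn
    exact (Finsupp.mem_support_iff.1 hk) (P.N_not i k hn)
  · intro k _
    rw [zero_smul]

open Classical in
private theorem pieA_nb_st (P : Pie b) : P.nb P.st = {b.z, P.a, P.c} := by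
  ext k
  rw [P.nb_st k]
  simp

/-- From `Pie.mul_st` for `i = st` and `nb_st`, `a_ne`, `c_ne`, `ac_ne`, `h.one`. -/
theorem Pie.st_sq (P : Pie b) (h : Fam E b V) : V P.st * V P.st = 1 + V P.a + V P.c := by
  classical
  rw [P.mul_st h, pieA_nb_st P, Finset.sum_insert, Finset.sum_insert, Finset.sum_singleton, h.one]
  · ring
  · rw [Finset.mem_singleton]
    exact P.ac_ne
  · rw [Finset.mem_insert, Finset.mem_singleton]
    rintro (h1 | h1)
    · exact P.a_ne h1.symm
    · exact P.c_ne h1.symm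

/-- `nb` is symmetric: `N st i k = N st k i` (`Fam.rot`, `Fam.comm`). -/
theorem Pie.nb_symm (P : Pie b) (h : Fam E b V) {i k : I} (hk : k ∈ P.nb i) : i ∈ P.nb k := by
  by_contra hn
  have h1 := P.N_not k i hn
  have h2 := P.N_mem i k hk
  have h3 : b.N P.st i k = b.N i k P.st := h.rot _ _ _
  have h4 : b.N i k P.st = b.N k i P.st := h.comm _ _ _
  have h5 : b.N P.st k i = b.N k i P.st := h.rot _ _ _
  rw [h3, h4, ← h5, h1] at h2
  exact zero_ne_one h2

open Classical in
private theorem pieA_pair (h : Fam E b V) (S T : Finset I) :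
    E ((∑ k ∈ S, V k) * (∑ l ∈ T, V l)) = ((S ∩ T).card : ℤ) := by
  rw [Finset.sum_mul_sum, map_sum, Finset.card_eq_sum_ones, ← Finset.filter_mem_eq_inter,
    Finset.sum_filter, Nat.cast_sum]
  refine Finset.sum_congr rfl fun k _ => ?_
  rw [map_sum]
  by_cases hk : k ∈ T
  · rw [if_pos hk, Finset.sum_eq_single k]
    · rw [h.mul_self]
      rfl
    · intro l _ hl
      exact h.mul_ne hl.symm
    · intro hn
      exact absurd hk hn
  · rw [if_neg hk]
    refine Finset.sum_eq_zero fun l hl => h.mul_ne ?_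
    rintro rfl
    exact hk hl

open Classical in
private theorem pieA_main (P : Pie b) (h : Fam E b V) (j l : I) :
    E (V j * V l) + b.N P.a j l + b.N P.c j l = ((P.nb j ∩ P.nb l).card : ℤ) := by
  rw [← pieA_pair h, ← P.mul_st h, ← P.mul_st h]
  have h1 : V P.st * V j * (V P.st * V l) = (V P.st * V P.st) * (V j * V l) := by ring
  have h2 : (1 + V P.a + V P.c) * (V j * V l) = V j * V l + V P.a * V j * V l
      + V P.c * V j * V l := by ring
  rw [h1, P.st_sq h, h2, map_add, map_add, h.triple, h.triple]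

/-- `E ((V st V i) ^ 2) = card (nb i)` (`mul_st`, orthonormality) and
`E (V st V st V i V i) = E ((1 + V a + V c) V i V i) = 1 + N i i a + N i i c` (`st_sq`,
`Fam.triple`). -/
theorem Pie.sum_ac (P : Pie b) (h : Fam E b V) (i : I) :
    1 + b.N i i P.a + b.N i i P.c = (P.nb i).card := by
  classical
  have h1 := pieA_main P h i i
  rw [h.mul_self, Finset.inter_self, h.rot P.a i i, h.rot P.c i i] at h1
  exact h1

/-- `E (V st V st V j V l) = E ((1 + V a + V c) V j V l) = [j = l] + N a j l + N c j l`, and it is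
`E ((V st V j) (V st V l)) = E (∑_{k ∈ nb j} V k ∑_{k' ∈ nb l} V k') = card (nb j ∩ nb l)`. So if
`k ∈ nb j` and `l ∈ nb k` (so `k ∈ nb l` by `nb_symm`), the left side is at least one. -/
theorem Pie.two_step (P : Pie b) (h : Fam E b V) {j k l : I} (hk : k ∈ P.nb j) (hl : l ∈ P.nb k) :
    l = j ∨ b.N P.a j l ≠ 0 ∨ b.N P.c j l ≠ 0 := by
  classical
  by_contra hn
  push Not at hn
  obtain ⟨h1, h2, h3⟩ := hn
  have h4 := pieA_main P h j l
  rw [h.mul_ne (Ne.symm h1), h2, h3] at h4
  have h5 : 0 < (P.nb j ∩ P.nb l).card :=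
    Finset.card_pos.2 ⟨k, Finset.mem_inter.2 ⟨hk, P.nb_symm h hl⟩⟩
  omega

/-- `two_step` for `j = a`, `k = st`, `l = c` (`nb_st`, `nb_symm`): `N a a c ≠ 0` or `N c a c ≠ 0`; by
`Fam.comm`, `Fam.rot` `N c a c = N c c a = N a a c` (`nac`). -/
theorem Pie.naac (P : Pie b) (h : Fam E b V) : b.N P.a P.a P.c ≠ 0 ∧ b.N P.c P.c P.a ≠ 0 := by
  have h1 : P.a ∈ P.nb P.st := (P.nb_st _).2 (Or.inr (Or.inl rfl))
  have h2 : P.c ∈ P.nb P.st := (P.nb_st _).2 (Or.inr (Or.inr rfl))
  have h3 : P.st ∈ P.nb P.a := P.nb_symm h h1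
  have h4 : b.N P.c P.a P.c = b.N P.a P.a P.c := by
    rw [h.rot P.c P.a P.c, h.rot P.a P.c P.c, P.nac]
  have h5 : b.N P.a P.a P.c ≠ 0 := by
    rcases P.two_step h h3 h2 with h6 | h6 | h6
    · exact absurd h6.symm P.ac_ne
    · exact h6
    · rwa [h4] at h6
  refine ⟨h5, ?_⟩
  rw [← P.nac]
  exact h5

/-- A set which contains `z`, a nontrivial element, and with `i`, `j` all constituents of `i ⊗ j`, is
everything. Proof: let `i ≠ z` be in `S`; by `sum_ac` and `card_nb` one of `N i i a`, `N i i c` is not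
zero, so `a ∈ S` or `c ∈ S`; by `naac` both are in `S`. By `two_step` all `l` with
`l ∈ nb k`, `k ∈ nb j`, `j ∈ S` are in `S`, so `st ∈ S` by `even`, and then everything by `reach` (with
`N_mem`). -/
theorem Pie.closed (P : Pie b) (h : Fam E b V) (S : Set I) (hz : b.z ∈ S)
    (hS : ∀ i ∈ S, ∀ j ∈ S, ∀ k, b.N i j k ≠ 0 → k ∈ S) (hne : ∃ i ∈ S, i ≠ b.z) (i : I) : i ∈ S := by
  obtain ⟨j, hj, hjz⟩ := hne
  have h1 := P.sum_ac h j
  have h2 := P.card_nb j hjz
  have hac : P.a ∈ S ∧ P.c ∈ S := by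
    by_cases ha : b.N j j P.a = 0
    · have hc : b.N j j P.c ≠ 0 := by
        intro hc
        rw [ha, hc] at h1
        omega
      have hcS := hS j hj j hj P.c hc
      exact ⟨hS _ hcS _ hcS _ (P.naac h).2, hcS⟩
    · have haS := hS j hj j hj P.a ha
      exact ⟨haS, hS _ haS _ haS _ (P.naac h).1⟩
  have hst : P.st ∈ S := by
    refine P.even S hz fun i hi k hk l hl => ?_
    rcases P.two_step h hk hl with h3 | h3 | h3
    · rw [h3]
      exact hi
    · exact hS _ hac.1 _ hi _ h3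
    · exact hS _ hac.2 _ hi _ h3
  refine P.reach S hz (fun i hi k hk => hS _ hst _ hi _ ?_) i
  rw [P.N_mem i k hk]
  exact one_ne_zero

open Classical in
private theorem pieA_sum_ge (f : I →₀ ℤ) (T : Finset I) :
    ∑ k ∈ T, f k ^ 2 ≤ f.sum fun _ a => a ^ 2 := by
  have h1 : (f.sum fun _ a => a ^ 2) = ∑ k ∈ f.support ∪ T, f k ^ 2 := by
    rw [Finsupp.sum]
    refine Finset.sum_subset Finset.subset_union_left fun k _ hk => ?_
    rw [Finsupp.notMem_support_iff.1 hk]
    ring
  rw [h1]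
  exact Finset.sum_le_sum_of_subset_of_nonneg Finset.subset_union_right
    fun k _ _ => sq_nonneg _

private theorem pieA_ac (P : Pie b) (h : Fam E b V) {i : I} (hi : i ≠ b.z) :
    3 ≤ b.N i i b.z ^ 2 + b.N i i P.a ^ 2 + b.N i i P.c ^ 2 := by
  have h1 := P.sum_ac h i
  have h2 := P.card_nb i hi
  have h3 : 2 ≤ b.N i i P.a + b.N i i P.c := by omega
  rw [b.orth_self]
  nlinarith [sq_nonneg (b.N i i P.a - b.N i i P.c)]

/-- Fourth moments. By `sum_ac` and `card_nb`: `N i i a + N i i c ≥ 2`, so the squares of the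
multiplicities of `z`, `a`, `c` in `i ⊗ i` have the sum at least `1 + 2`. -/
theorem Pie.four_ge (P : Pie b) (h : Fam E b V) {i : I} (hi : i ≠ b.z) :
    3 ≤ (b.N i i).sum fun _ a => a ^ 2 := by
  classical
  refine le_trans (pieA_ac P h hi) (le_trans (le_of_eq ?_) (pieA_sum_ge (b.N i i) {b.z, P.a, P.c}))
  rw [Finset.sum_insert, Finset.sum_insert, Finset.sum_singleton]
  · ring
  · rw [Finset.mem_singleton]
    exact P.ac_ne
  · rw [Finset.mem_insert, Finset.mem_singleton]
    rintro (h1 | h1)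
    · exact P.a_ne h1.symm
    · exact P.c_ne h1.symm

/-- If the sum is `3` then only `z`, `a`, `c` have nonzero multiplicities, so `dbl i` is one of them
(`N_dbl`) and `i = st` by `dbl_eq`. -/
theorem Pie.four_eq (P : Pie b) (h : Fam E b V) {i : I} (hi : i ≠ b.z)
    (h3 : ((b.N i i).sum fun _ a => a ^ 2) = 3) : i = P.st := by
  classical
  refine P.dbl_eq i hi ?_
  by_contra hn
  push Not at hn
  obtain ⟨h1, h2, h4⟩ := hn
  have h5 := pieA_sum_ge (b.N i i) {P.dbl i, b.z, P.a, P.c}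
  rw [h3, Finset.sum_insert, Finset.sum_insert, Finset.sum_insert, Finset.sum_singleton] at h5
  · have h6 := pieA_ac P h hi
    have h7 : 0 < b.N i i (P.dbl i) ^ 2 := by
      have := P.N_dbl i
      positivity
    omega
  · rw [Finset.mem_singleton]
    exact P.ac_ne
  · rw [Finset.mem_insert, Finset.mem_singleton]
    rintro (h1 | h1)
    · exact P.a_ne h1.symm
    · exact P.c_ne h1.symm
  · rw [Finset.mem_insert, Finset.mem_insert, Finset.mem_singleton]
    rintro (h6 | h6 | h6)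
    · exact h1 h6
    · exact h2 h6
    · exact h4 h6

/-- The multiplicities of `st ⊗ st` are `1` at `z`, `a`, `c`. -/
theorem Pie.four_st (P : Pie b) : ((b.N P.st P.st).sum fun _ a => a ^ 2) = 3 := by
  classical
  rw [Finsupp.sum_of_support_subset (s := P.nb P.st)]
  · have h1 : ∀ k ∈ P.nb P.st, (b.N P.st P.st k) ^ 2 = (1 : ℤ) := by
      intro k hk
      rw [P.N_mem _ k hk]
      norm_num
    rw [Finset.sum_congr rfl h1, pieA_nb_st P, Finset.sum_insert, Finset.sum_insert,
      Finset.sum_singleton]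
    · norm_num
    · rw [Finset.mem_singleton]
      exact P.ac_ne
    · rw [Finset.mem_insert, Finset.mem_singleton]
      rintro (h1 | h1)
      · exact P.a_ne h1.symm
      · exact P.c_ne h1.symm
  · intro k hk
    by_contra hn
    exact (Finsupp.mem_support_iff.1 hk) (P.N_not _ k hn)
  · intro k _
    norm_num

end Pool.Agent.EEAP
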