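import Pool.Agent.W_eea520p_h56.AbsB
import Pool.Agent.W_eea520_n.B3b
import Pool.Agent.W_eea520_n.B2a

/-!
# Characters of `SO_{2n+1}` (MP_eea520_nt, theorem P)

`IsIrr.top`, `irr_supp`, `span_level`, `alt_coeff`, `alt_act`, `alt_dom`, `top_mul` are in `W_eea520_n`
(`AlgX`, `AlgY`, `B1a`, `B2a`, `B3a`, `B3b`).
-/

set_option autoImplicit false

namespace Pool.Agent.EEAP

open Pool.Agent.EEA520 Pool.Agent.EEAN

variable {n : ℕ}

/-- Dominant weights of `SO_{2n+1}`. -/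
abbrev Dm (n : ℕ) : Type := {μ : Fin n → ℤ // Antitone μ ∧ ∀ i, 0 ≤ μ i}

/-- `μ + ρ`. -/
def shf (μ : Fin n → ℤ) : Fin n → ℤ := fun j => μ j + ((n : ℤ) - j)

/-- The alternating sum of `(1, μ + ρ)`. -/
noncomputable def al (μ : Fin n → ℤ) : R n := alt 1 (shf μ)

/-- The coefficient of `f * al 0` at `(1, μ + ρ)`. -/
noncomputable def mult (f : R n) (μ : Fin n → ℤ) : ℤ := (f * al 0).coeff (1, shf μ)

/-- Invariant elements, with the first coordinate of all weights zero. -/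
def Inv0 (f : R n) : Prop := IsCharacter f.coeff ∧ ∀ w, f.coeff w ≠ 0 → w.1 = 0

theorem shf_strictAnti (μ : Dm n) : StrictAnti (shf μ.1) := by
  intro i j hij
  have h1 := μ.2.1 hij.le
  have h2 : (i : ℕ) < (j : ℕ) := hij
  show μ.1 j + ((n : ℤ) - (j : ℕ)) < μ.1 i + ((n : ℤ) - (i : ℕ))
  omega

theorem shf_pos (μ : Dm n) (i : Fin n) : 1 < 2 * shf μ.1 i := by
  have h1 := μ.2.2 i
  have h2 := i.2
  show 1 < 2 * (μ.1 i + ((n : ℤ) - (i : ℕ)))
  omega

theorem shf_inj {μ ν : Fin n → ℤ} (h : shf μ = shf ν) : μ = ν := by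
  funext i
  have h1 : μ i + ((n : ℤ) - (i : ℕ)) = ν i + ((n : ℤ) - (i : ℕ)) := congrFun h i
  omega

/-- `alt_dom`. -/
theorem al_dom (μ ν : Dm n) : (al μ.1).coeff (1, shf ν.1) = if ν = μ then 1 else 0 := by
  rw [al, alt_dom (shf_strictAnti μ) (shf_pos μ) (shf_strictAnti ν) (shf_pos ν)]
  by_cases h : ν = μ
  · rw [if_pos h, if_pos (by rw [h])]
  · rw [if_neg h, if_neg fun h1 => h (Subtype.ext (shf_inj h1))]

/-- `exists_isIrr`. -/
theorem exists_chi (μ : Dm n) : ∃ f : R n, IsIrr 0 μ.1 f.coeff := by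
  obtain ⟨m, hm, -⟩ := exists_isIrr 0 μ.1 μ.2.1 fun i => mul_nonneg two_pos.le (μ.2.2 i)
  exact ⟨AddMonoidAlgebra.ofCoeff m, hm⟩

/-- The irreducible character with the highest weight `μ`. -/
noncomputable def chi (μ : Dm n) : R n := Classical.choose (exists_chi μ)

theorem chi_irr (μ : Dm n) : IsIrr 0 μ.1 (chi μ).coeff := Classical.choose_spec (exists_chi μ)

/-- The definition of `IsIrr`. -/
theorem chi_al (μ : Dm n) : chi μ * al 0 = al μ.1 := by
  have h := (chi_irr μ).2.2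
  have h0 : al (0 : Fin n → ℤ) = alt 1 (fun j : Fin n => (n : ℤ) - j) := by
    rw [al]
    congr 1
    funext j
    show (0 : ℤ) + ((n : ℤ) - (j : ℕ)) = (n : ℤ) - (j : ℕ)
    rw [zero_add]
  rw [h0]
  exact h

/-- `chi_al` and `al_dom`. -/
theorem mult_chi (μ ν : Dm n) : mult (chi μ) ν.1 = if ν = μ then 1 else 0 := by
  rw [mult, chi_al]
  exact al_dom μ ν

theorem mult_add (f g : R n) (μ : Fin n → ℤ) : mult (f + g) μ = mult f μ + mult g μ := by
  rw [mult, mult, mult, add_mul, AddMonoidAlgebra.coeff_add, Finsupp.add_apply]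

theorem mult_smul (a : ℤ) (f : R n) (μ : Fin n → ℤ) : mult (a • f) μ = a * mult f μ := by
  rw [mult, mult, smul_mul_assoc, AddMonoidAlgebra.coeff_smul_apply, smul_eq_mul]

theorem mult_sum {ι : Type} (s : Finset ι) (f : ι → R n) (μ : Fin n → ℤ) :
    mult (∑ i ∈ s, f i) μ = ∑ i ∈ s, mult (f i) μ := by
  rw [mult, Finset.sum_mul, AddMonoidAlgebra.coeff_sum, Finsupp.finsetSum_apply]
  rfl

/-- `IsIrr.isCharacter` and `irr_supp` (with `r = μ 0`, or any bound for the `μ i`). -/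
theorem chi_inv0 (μ : Dm n) : Inv0 (chi μ) := by
  refine ⟨(chi_irr μ).isCharacter, fun w hw => ?_⟩
  have hr : ∀ i, μ.1 i ≤ ((∑ i, μ.1 i).toNat : ℤ) := by
    intro i
    have h1 : μ.1 i ≤ ∑ i, μ.1 i := Finset.single_le_sum (fun j _ => μ.2.2 j) (Finset.mem_univ i)
    have h2 := Int.self_le_toNat (∑ i, μ.1 i)
    omega
  exact (irr_supp (chi_irr μ) hr hw).1

theorem Inv0.mul {f g : R n} (hf : Inv0 f) (hg : Inv0 g) : Inv0 (f * g) := by
  refine ⟨isCharacter_mul hf.1 hg.1, fun w hw => ?_⟩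
  obtain ⟨a, b, ha, hb, rfl⟩ := B3a_exists hw
  rw [Prod.fst_add, hf.2 a ha, hg.2 b hb, add_zero]

theorem Inv0.add {f g : R n} (hf : Inv0 f) (hg : Inv0 g) : Inv0 (f + g) := by
  refine ⟨isCharacter_add hf.1 hg.1, fun w hw => ?_⟩
  rw [AddMonoidAlgebra.coeff_add, Finsupp.add_apply] at hw
  by_cases h : f.coeff w = 0
  · rw [h, zero_add] at hw
    exact hg.2 w hw
  · exact hf.2 w h

theorem Inv0.smul {f : R n} (hf : Inv0 f) (a : ℤ) : Inv0 (a • f) := by
  refine ⟨isCharacter_zsmul hf.1 a, fun w hw => ?_⟩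
  rw [AddMonoidAlgebra.coeff_smul_apply, smul_eq_mul] at hw
  exact hf.2 w (right_ne_zero_of_mul hw)

private theorem RepA_al_ne : al (0 : Fin n → ℤ) ≠ 0 := by
  have h0 : al (0 : Fin n → ℤ) = alt 1 (fun j : Fin n => (n : ℤ) - j) := by
    rw [al]
    congr 1
    funext j
    show (0 : ℤ) + ((n : ℤ) - (j : ℕ)) = (n : ℤ) - (j : ℕ)
    rw [zero_add]
  rw [h0]
  exact alt_one_ne_zero

/-- The trivial representation (`IsIrr` for `0`, cancel `al 0` with `alt_one_ne_zero`). -/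
theorem chi_zero (z : Dm n) (hz : z.1 = 0) : chi z = 1 := by
  have h := chi_al z
  rw [hz] at h
  have h0 : al (0 : Fin n → ℤ) ≠ 0 := RepA_al_ne
  exact mul_right_cancel₀ h0 (by rw [h, one_mul])

/-- `span_level` for the subgroup of the finite `ℤ`-combinations; the coefficients are given by
`mult_chi`, `mult_sum`, `mult_smul`. -/
theorem span0 {f : R n} (hf : Inv0 f) :
    ∃ c : Dm n →₀ ℤ, f = c.sum (fun μ a => a • chi μ) ∧ ∀ μ : Dm n, c μ = mult f μ.1 := by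
  classical
  let φ : (Dm n →₀ ℤ) →+ R n :=
    Finsupp.liftAddHom fun μ => ((zmultiplesHom (R n)) (chi μ) : ℤ →+ R n)
  have hφ : ∀ c : Dm n →₀ ℤ, φ c = c.sum fun μ a => a • chi μ := fun c => by
    rw [show φ c = c.sum fun μ a => (zmultiplesHom (R n)) (chi μ) a from
      Finsupp.liftAddHom_apply _ _]
    rfl
  obtain ⟨r, hr⟩ : ∃ r : ℕ, ∀ w, f.coeff w ≠ 0 → ∀ i, |w.2 i| ≤ r := by
    refine ⟨(∑ w ∈ f.coeff.support, ∑ i, |w.2 i|).toNat, fun w hw i => ?_⟩
    have h1 : ∑ i, |w.2 i| ≤ ∑ w ∈ f.coeff.support, ∑ i, |w.2 i| :=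
      Finset.single_le_sum (f := fun w : Wt n => ∑ i, |w.2 i|)
        (fun v _ => Finset.sum_nonneg fun j _ => abs_nonneg _) (Finsupp.mem_support_iff.mpr hw)
    have h2 : |w.2 i| ≤ ∑ i, |w.2 i| :=
      Finset.single_le_sum (f := fun i => |w.2 i|) (fun j _ => abs_nonneg _) (Finset.mem_univ i)
    have h3 := Int.self_le_toNat (∑ w ∈ f.coeff.support, ∑ i, |w.2 i|)
    omega
  have hmem : f ∈ φ.range := by
    refine span_level (r := r) φ.range (fun μ m hm _ => ?_) f hf.1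
      fun w hw => ⟨hf.2 w hw, hr w hw⟩
    let ν : Dm n := ⟨μ, hm.1, fun i => by have := hm.2.1 i; omega⟩
    refine ⟨Finsupp.single ν 1, ?_⟩
    have h0 : ((Finsupp.single ν (1 : ℤ)).sum fun (μ : Dm n) (a : ℤ) => a • chi μ) =
        (1 : ℤ) • chi ν := Finsupp.sum_single_index (by rw [zero_smul])
    rw [hφ, h0, one_smul]
    have h1 : m = (chi ν).coeff := hm.unique (chi_irr ν)
    rw [h1]
  obtain ⟨c, hc⟩ := hmem
  rw [hφ] at hc
  refine ⟨c, hc.symm, fun μ => ?_⟩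
  rw [← hc, Finsupp.sum, mult_sum]
  simp only [mult_smul, mult_chi]
  rw [Finset.sum_eq_single μ]
  · rw [if_pos rfl, mul_one]
  · intro ν _ hν
    rw [if_neg (Ne.symm hν), mul_zero]
  · intro h
    rw [Finsupp.notMem_support_iff.1 h, zero_mul]

/-- Two elements with the same product with `al 0` are equal (`alt_one_ne_zero`, no zero divisors, as in
`IsIrr.unique`). -/
theorem eq_of_al {f g : R n} (h : f * al 0 = g * al 0) : f = g := by
  exact mul_right_cancel₀ RepA_al_ne h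

end Pool.Agent.EEAP
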