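import Pool.Agent.W_eea520p_h56.RepB

/-!
# Tensor products with the standard representation (MP_eea520_nt, theorem P)
-/

set_option autoImplicit false

namespace Pool.Agent.EEAP

open Pool.Agent.EEA520 Pool.Agent.EEAN

variable {n : ℕ}

/-- Exchange of two columns of the determinant (`Matrix.det_permute'`). -/
theorem alt_perm (K : ℤ) (M : Fin n → ℤ) (σ : Equiv.Perm (Fin n)) :
    alt K (M ∘ σ) = (Equiv.Perm.sign σ : ℤ) • alt K M := by
  unfold alt
  have h1 : (Matrix.of fun i j : Fin n =>
      (mon (0, Pi.single i ((M ∘ σ) j)) - mon (0, Pi.single i (K - (M ∘ σ) j)) : R n)) =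
      (Matrix.of fun i j : Fin n =>
        (mon (0, Pi.single i (M j)) - mon (0, Pi.single i (K - M j)) : R n)).submatrix id σ := rfl
  rw [h1, Matrix.det_permute', zsmul_eq_mul, mul_left_comm]

/-- The column `i` changes its sign (`Matrix.det_updateCol_...`, or from `alt_eq_sum`). -/
theorem alt_refl (K : ℤ) (M : Fin n → ℤ) (i : Fin n) :
    alt K (Function.update M i (K - M i)) = -alt K M := by
  unfold alt
  have h1 : (Matrix.of fun a j : Fin n =>
      (mon (0, Pi.single a (Function.update M i (K - M i) j)) -
        mon (0, Pi.single a (K - Function.update M i (K - M i) j)) : R n)) =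
      (Matrix.of fun a j : Fin n =>
        (mon (0, Pi.single a (M j)) - mon (0, Pi.single a (K - M j)) : R n)).updateCol i
        ((-1 : R n) • fun a => (mon (0, Pi.single a (M i)) - mon (0, Pi.single a (K - M i)))) := by
    ext1 a j
    by_cases hj : j = i
    · subst hj
      simp only [Matrix.of_apply, Function.update_self, Matrix.updateCol_self, Pi.smul_apply,
        smul_eq_mul, sub_sub_cancel]
      ring
    · rw [Matrix.updateCol_ne hj]
      simp only [Matrix.of_apply, Function.update_of_ne hj]
  rw [h1, Matrix.det_updateCol_smul]
  have h2 : (Matrix.of fun a j : Fin n =>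
        (mon (0, Pi.single a (M j)) - mon (0, Pi.single a (K - M j)) : R n)).updateCol i
        (fun a => (mon (0, Pi.single a (M i)) - mon (0, Pi.single a (K - M i)))) =
      (Matrix.of fun a j : Fin n =>
        (mon (0, Pi.single a (M j)) - mon (0, Pi.single a (K - M j)) : R n)) :=
    Matrix.updateCol_eq_self _ i
  rw [h2]
  ring

/-- Two equal columns. -/
theorem alt_zero (K : ℤ) (M : Fin n → ℤ) {i j : Fin n} (hij : i ≠ j) (h : M i = M j) :
    alt K M = 0 := by
  unfold alt
  rw [Matrix.det_zero_of_column_eq hij (fun a => by simp only [Matrix.of_apply, h]), mul_zero]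

/-- The character `1 + ∑ (x_i + x_i⁻¹)` of the standard representation. -/
noncomputable def stdR (n : ℕ) : R n :=
  1 + ∑ i : Fin n, (mon (0, Pi.single i 1) + mon (0, Pi.single i (-1)))

private theorem RepC_coeff (w : Wt n) : (stdR n).coeff w =
    (if (0 : Wt n) = w then 1 else 0) + ∑ i : Fin n,
      ((if ((0, Pi.single i 1) : Wt n) = w then 1 else 0) +
        if ((0, Pi.single i (-1)) : Wt n) = w then 1 else 0) := by
  classical
  rw [stdR, ← mon_zero, AddMonoidAlgebra.coeff_add, Finsupp.add_apply, coeff_mon,
    AddMonoidAlgebra.coeff_sum, Finsupp.finsetSum_apply]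
  congr 1
  refine Finset.sum_congr rfl fun i _ => ?_
  rw [AddMonoidAlgebra.coeff_add, Finsupp.add_apply, coeff_mon, coeff_mon]

private theorem RepC_single_comp (σ : Equiv.Perm (Fin n)) (i : Fin n) (a : ℤ) (μ : Fin n → ℤ) :
    Pi.single i a = μ ∘ σ ↔ Pi.single (σ i) a = μ := by
  have h1 : (Pi.single (σ i) a : Fin n → ℤ) ∘ σ = Pi.single i a := by
    funext j
    by_cases hj : j = i
    · subst hj
      simp
    · rw [Function.comp_apply, Pi.single_eq_of_ne hj,
        Pi.single_eq_of_ne (fun h => hj (σ.injective h))]
  rw [← h1]
  exact σ.surjective.injective_comp_right.eq_iff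

theorem stdR_inv0 (n : ℕ) : Inv0 (stdR n) := by
  classical
  refine ⟨⟨fun σ k μ => ?_, fun i k μ => ?_⟩, fun w hw => ?_⟩
  · rw [RepC_coeff, RepC_coeff]
    congr 1
    · refine if_congr ?_ rfl rfl
      constructor
      · intro h
        have h1 := congrArg Prod.fst h
        have h2 := congrArg Prod.snd h
        refine Prod.ext h1 ?_
        funext j
        have h3 := congrFun h2 (σ.symm j)
        simpa using h3
      · intro h
        have h1 := congrArg Prod.fst h
        have h2 := congrArg Prod.snd h
        refine Prod.ext h1 ?_
        funext j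
        exact congrFun h2 (σ j)
    · rw [← Equiv.sum_comp σ (fun i => (if ((0, Pi.single i 1) : Wt n) = (k, μ) then (1 : ℤ) else 0) +
        if ((0, Pi.single i (-1)) : Wt n) = (k, μ) then 1 else 0)]
      refine Finset.sum_congr rfl fun i _ => ?_
      simp only [Prod.mk.injEq, RepC_single_comp]
  · rw [RepC_coeff, RepC_coeff]
    by_cases hk : k = 0
    · subst hk
      have key : ∀ (j : Fin n) (a : ℤ),
          ((0 : ℤ), (Pi.single j a : Fin n → ℤ)) = (0, Function.update μ i (0 - μ i)) ↔
          ((0 : ℤ), (Pi.single j (if j = i then -a else a) : Fin n → ℤ)) = (0, μ) := by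
        intro j a
        simp only [Prod.mk.injEq, true_and]
        constructor
        · intro h
          funext l
          have h1 := congrFun h l
          by_cases hl : l = i
          · subst hl
            rw [Function.update_self] at h1
            by_cases hj : j = l
            · subst hj
              rw [Pi.single_eq_same] at h1 ⊢
              rw [if_pos rfl]
              omega
            · rw [Pi.single_eq_of_ne (Ne.symm hj)] at h1 ⊢
              omega
          · rw [Function.update_of_ne hl] at h1
            rw [← h1]
            by_cases hj : l = j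
            · subst hj
              rw [Pi.single_eq_same, Pi.single_eq_same, if_neg hl]
            · rw [Pi.single_eq_of_ne hj, Pi.single_eq_of_ne hj]
        · intro h
          funext l
          have h1 := congrFun h l
          by_cases hl : l = i
          · subst hl
            rw [Function.update_self]
            by_cases hj : j = l
            · subst hj
              rw [Pi.single_eq_same] at h1 ⊢
              rw [if_pos rfl] at h1
              omega
            · rw [Pi.single_eq_of_ne (Ne.symm hj)] at h1 ⊢
              omega
          · rw [Function.update_of_ne hl, ← h1]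
            by_cases hj : l = j
            · subst hj
              rw [Pi.single_eq_same, Pi.single_eq_same, if_neg hl]
            · rw [Pi.single_eq_of_ne hj, Pi.single_eq_of_ne hj]
      congr 1
      · refine if_congr ?_ rfl rfl
        constructor
        · intro h
          have h2 := congrArg Prod.snd h
          refine Prod.ext rfl ?_
          funext j
          have h3 := congrFun h2 j
          by_cases hj : j = i
          · subst hj
            simp only [Function.update_self, Prod.snd_zero, Pi.zero_apply] at h3 ⊢
            omega
          · simpa only [Function.update_of_ne hj] using h3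
        · intro h
          have h2 := congrArg Prod.snd h
          refine Prod.ext rfl ?_
          funext j
          have h3 := congrFun h2 j
          by_cases hj : j = i
          · subst hj
            simp only [Function.update_self, Prod.snd_zero, Pi.zero_apply] at h3 ⊢
            omega
          · simpa only [Function.update_of_ne hj] using h3
      · refine Finset.sum_congr rfl fun j _ => ?_
        simp only [key j 1, key j (-1)]
        by_cases hj : j = i
        · simp only [if_pos hj, neg_neg]
          rw [add_comm]
        · simp only [if_neg hj]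
    · have h0 : ∀ (x y : Fin n → ℤ), ((0 : ℤ), x) ≠ (k, y) := fun x y h =>
        hk (congrArg Prod.fst h).symm
      have h0' : ∀ (y : Fin n → ℤ), (0 : Wt n) ≠ (k, y) := fun y h =>
        hk (congrArg Prod.fst h).symm
      simp only [if_neg (h0 _ _), if_neg (h0' _)]
  · by_contra h
    apply hw
    rw [RepC_coeff]
    have h0 : ∀ (x : Fin n → ℤ), ((0 : ℤ), x) ≠ w := fun x hx => h (by rw [← hx])
    have h0' : (0 : Wt n) ≠ w := fun hx => h (by rw [← hx]; rfl)
    simp only [if_neg (h0 _), if_neg h0', add_zero, Finset.sum_const_zero]

private noncomputable def RepC_L (K : ℤ) (M : Fin n → ℤ) (f : R n) : R n :=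
  f.coeff.sum fun w a => a • alt K (M + w.2)

private theorem RepC_L_add (K : ℤ) (M : Fin n → ℤ) (f g : R n) :
    RepC_L K M (f + g) = RepC_L K M f + RepC_L K M g := by
  unfold RepC_L
  rw [AddMonoidAlgebra.coeff_add]
  exact Finsupp.sum_add_index' (fun w => zero_smul _ _) fun w a b => add_smul _ _ _

private theorem RepC_L_mon (K : ℤ) (M : Fin n → ℤ) (w : Wt n) :
    RepC_L K M (mon w) = alt K (M + w.2) := by
  unfold RepC_L
  rw [mon, AddMonoidAlgebra.coeff_single]
  refine (Finsupp.sum_single_index ?_).trans ?_
  · rw [zero_smul]
  · rw [one_smul]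

private theorem RepC_L_zero (K : ℤ) (M : Fin n → ℤ) : RepC_L K M (0 : R n) = 0 := by
  unfold RepC_L
  rw [AddMonoidAlgebra.coeff_zero, Finsupp.sum_zero_index]

private theorem RepC_L_sum (K : ℤ) (M : Fin n → ℤ) {ι : Type} (s : Finset ι) (f : ι → R n) :
    RepC_L K M (∑ i ∈ s, f i) = ∑ i ∈ s, RepC_L K M (f i) := by
  classical
  induction s using Finset.induction_on with
  | empty => rw [Finset.sum_empty, Finset.sum_empty, RepC_L_zero]
  | insert a s ha ih => rw [Finset.sum_insert ha, Finset.sum_insert ha, RepC_L_add, ih]

/-- `mul_alt`. (The map `f ↦ f.coeff.sum fun w a => a • alt K (M + w.2)` is additive, with the value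
`alt K (M + w.2)` at `mon w`.) -/
theorem stdR_alt (K : ℤ) (M : Fin n → ℤ) : stdR n * alt K M =
    alt K M + ∑ i : Fin n, (alt K (M + Pi.single i 1) + alt K (M - Pi.single i 1)) := by
  rw [mul_alt (stdR_inv0 n)]
  change RepC_L K M (stdR n) = _
  rw [stdR, RepC_L_add, RepC_L_sum, ← mon_zero, RepC_L_mon]
  congr 1
  · rw [Prod.snd_zero, add_zero]
  · refine Finset.sum_congr rfl fun i _ => ?_
    rw [RepC_L_add, RepC_L_mon, RepC_L_mon]
    simp only [Pi.single_neg, sub_eq_add_neg]

end Pool.Agent.EEAP
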