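import Pool.Agent.W_eea520p_h56.RepP

/-!
# The symmetric and the exterior square (MP_eea520_nt, theorem P)
-/

set_option autoImplicit false

namespace Pool.Agent.EEAP

open Pool.Agent.EEA520 Pool.Agent.EEAN

variable {n : ℕ}

/-- The highest weight of the exterior square of the standard representation (`(1)` if `n = 1`). -/
def da (n : ℕ) : Dm n := ⟨fun j => if (j : ℕ) ≤ 1 then 1 else 0, by
  refine ⟨fun i j hij => ?_, fun i => ?_⟩
  · have h : (i : ℕ) ≤ j := hij
    show (if (j : ℕ) ≤ 1 then (1 : ℤ) else 0) ≤ if (i : ℕ) ≤ 1 then 1 else 0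
    split_ifs <;> omega
  · show (0 : ℤ) ≤ if (i : ℕ) ≤ 1 then 1 else 0
    split_ifs <;> omega⟩

/-- The highest weight of the symmetric square of the standard representation. -/
def dc (n : ℕ) : Dm n := ⟨fun j => if (j : ℕ) = 0 then 2 else 0, by
  refine ⟨fun i j hij => ?_, fun i => ?_⟩
  · have h : (i : ℕ) ≤ j := hij
    show (if (j : ℕ) = 0 then (2 : ℤ) else 0) ≤ if (i : ℕ) = 0 then 2 else 0
    split_ifs <;> omega
  · show (0 : ℤ) ≤ if (i : ℕ) = 0 then 2 else 0
    split_ifs <;> omega⟩

/-- The character `1 + ∑ (x_i ^ 2 + x_i ^ (-2))`. -/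
noncomputable def p2R (n : ℕ) : R n :=
  1 + ∑ i : Fin n, (mon (0, Pi.single i 2) + mon (0, Pi.single i (-2)))

private theorem repD_mon (w v : Wt n) : (mon w : R n).coeff v = if w = v then 1 else 0 := by
  classical
  rw [mon, AddMonoidAlgebra.coeff_single, Finsupp.single_apply]

private theorem repD_coeff (n : ℕ) (v : Wt n) : (p2R n).coeff v =
    (if (0 : Wt n) = v then 1 else 0) + ∑ i : Fin n,
      ((if ((0, Pi.single i 2) : Wt n) = v then 1 else 0) +
        if ((0, Pi.single i (-2)) : Wt n) = v then 1 else 0) := by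
  classical
  have h1 : (1 : R n) = mon 0 := by rw [AddMonoidAlgebra.one_def, mon]
  rw [p2R, h1, AddMonoidAlgebra.coeff_add, Finsupp.add_apply, AddMonoidAlgebra.coeff_sum,
    Finsupp.finsetSum_apply, repD_mon]
  congr 1
  refine Finset.sum_congr rfl fun i _ => ?_
  rw [AddMonoidAlgebra.coeff_add, Finsupp.add_apply, repD_mon, repD_mon]

theorem p2R_inv0 (n : ℕ) : Inv0 (p2R n) := by
  classical
  refine ⟨(isCharacter_iff _).2 ⟨fun σ w => ?_, fun j w => ?_⟩, fun w hw => ?_⟩
  · rw [repD_coeff, repD_coeff, ← Equiv.sum_comp σ (fun i : Fin n =>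
      ((if ((0, Pi.single i 2) : Wt n) = w then (1 : ℤ) else 0) +
        if ((0, Pi.single i (-2)) : Wt n) = w then 1 else 0))]
    have h0 : ((0 : Wt n) = permW σ w) ↔ (0 : Wt n) = w := by
      rw [eq_comm, map_eq_zero_iff _ (permW σ).injective, eq_comm]
    have h1 : ∀ (i : Fin n) (e : ℤ), (((0, Pi.single i e) : Wt n) = permW σ w) ↔
        ((0, Pi.single (σ i) e) : Wt n) = w := by
      intro i e
      have h2 : permW σ ((0, Pi.single (σ i) e) : Wt n) = (0, Pi.single i e) := by
        show ((0 : ℤ), (Pi.single (σ i) e : Fin n → ℤ) ∘ σ) = _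
        refine Prod.ext rfl ?_
        funext k
        show (Pi.single (σ i) e : Fin n → ℤ) (σ k) = (Pi.single i e : Fin n → ℤ) k
        rw [Pi.single_apply, Pi.single_apply]
        simp only [EmbeddingLike.apply_eq_iff_eq]
      rw [← h2, (permW σ).injective.eq_iff]
    simp only [h0, h1]
  · rw [repD_coeff, repD_coeff]
    have h0 : ((0 : Wt n) = refW j w) ↔ (0 : Wt n) = w := by
      rw [eq_comm, map_eq_zero_iff _ (refW j).injective, eq_comm]
    have h1 : ∀ (i : Fin n) (e : ℤ), (((0, Pi.single i e) : Wt n) = refW j w) ↔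
        ((0, Pi.single i (if i = j then -e else e)) : Wt n) = w := by
      intro i e
      have h2 : refW j ((0, Pi.single i (if i = j then -e else e)) : Wt n) =
          (0, Pi.single i e) := by
        show ((0 : ℤ), Function.update (Pi.single i (if i = j then -e else e) : Fin n → ℤ) j
          (0 - (Pi.single i (if i = j then -e else e) : Fin n → ℤ) j)) = _
        refine Prod.ext rfl ?_
        funext k
        show Function.update (Pi.single i (if i = j then -e else e) : Fin n → ℤ) j
          (0 - (Pi.single i (if i = j then -e else e) : Fin n → ℤ) j) k =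
            (Pi.single i e : Fin n → ℤ) k
        by_cases hk : k = j
        · subst hk
          rw [Function.update_self]
          by_cases hi : i = k
          · subst hi
            simp
          · rw [Pi.single_eq_of_ne (Ne.symm hi), Pi.single_eq_of_ne (Ne.symm hi), sub_zero]
        · rw [Function.update_of_ne hk]
          by_cases hi : i = j
          · subst hi
            rw [Pi.single_eq_of_ne hk, Pi.single_eq_of_ne hk]
          · rw [if_neg hi]
      rw [← h2, (refW j).injective.eq_iff]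
    simp only [h0, h1]
    congr 1
    refine Finset.sum_congr rfl fun i _ => ?_
    by_cases hi : i = j
    · rw [if_pos hi, if_pos hi, neg_neg, add_comm]
    · rw [if_neg hi, if_neg hi]
  · rw [repD_coeff] at hw
    by_contra h
    apply hw
    rw [if_neg (fun h0 => h (by rw [← h0]; rfl)), zero_add]
    refine Finset.sum_eq_zero fun i _ => ?_
    rw [if_neg (fun h0 => h (by rw [← h0])), if_neg (fun h0 => h (by rw [← h0])), add_zero]

/-- As `stdR_alt`. -/
theorem p2R_alt (K : ℤ) (M : Fin n → ℤ) : p2R n * alt K M =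
    alt K M + ∑ i : Fin n, (alt K (M + Pi.single i 2) + alt K (M - Pi.single i 2)) := by
  classical
  rw [mul_alt (p2R_inv0 n)]
  have h1 : ∀ x : Wt n →₀ ℤ, (x.sum fun w a => a • (alt K (M + w.2) : R n)) =
      (Finsupp.lsum ℤ fun w : Wt n => LinearMap.toSpanSingleton ℤ (R n) (alt K (M + w.2))) x := by
    intro x
    rw [Finsupp.lsum_apply]
    rfl
  have h2 : ∀ w : Wt n, (Finsupp.lsum ℤ fun w : Wt n =>
      LinearMap.toSpanSingleton ℤ (R n) (alt K (M + w.2))) (mon w : R n).coeff =
        alt K (M + w.2) := by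
    intro w
    rw [← h1, mon, AddMonoidAlgebra.coeff_single, Finsupp.sum_single_index (by rw [zero_smul]),
      one_smul]
  have h3 : (1 : R n) = mon 0 := by rw [AddMonoidAlgebra.one_def, mon]
  rw [h1, p2R, h3, AddMonoidAlgebra.coeff_add, map_add, AddMonoidAlgebra.coeff_sum, map_sum, h2]
  congr 1
  · rw [Prod.snd_zero, add_zero]
  · refine Finset.sum_congr rfl fun i _ => ?_
    rw [AddMonoidAlgebra.coeff_add, map_add, h2, h2]
    congr 1
    show alt K (M + Pi.single i (-2)) = _
    rw [Pi.single_neg, ← sub_eq_add_neg]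

/-- Here `shf 0 = (n, …, 1)`. The term `+ 2 e_0` is `al (dc n)`; `+ 2 e_1` has the entries
`(n, n + 1, n - 2, …)`, exchange two columns: `-al (da n)` (for `n ≥ 2`); `+ 2 e_i` for `i ≥ 2` has two
equal entries; `- 2 e_i` for `i ≤ n - 3` has two equal entries, for `i = n - 2` the entry `0`, which is
reflected to `1`, and then two equal entries, and for `i = n - 1` the entry `-1`, which is reflected to
`2`: two equal entries if `n ≥ 2`, and `-al (da n)` if `n = 1`. (`alt_zero`, `alt_refl`, `alt_perm`.) -/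
theorem p2R_al (hn : 1 ≤ n) : p2R n * al 0 = al 0 + al (dc n).1 - al (da n).1 := by
  classical
  unfold al
  rw [p2R_alt, add_sub_assoc]
  congr 1
  have hs : ∀ j : Fin n, shf (0 : Fin n → ℤ) j = (n : ℤ) - (j : ℕ) := fun j => by
    show (0 : ℤ) + _ = _
    rw [zero_add]
  have hadd : ∀ (i j : Fin n), (shf (0 : Fin n → ℤ) + Pi.single i 2 : Fin n → ℤ) j =
      (n : ℤ) - (j : ℕ) + if j = i then 2 else 0 := by
    intro i j
    rw [Pi.add_apply, hs, Pi.single_apply]
  have hsub : ∀ (i j : Fin n), (shf (0 : Fin n → ℤ) - Pi.single i 2 : Fin n → ℤ) j =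
      (n : ℤ) - (j : ℕ) - if j = i then 2 else 0 := by
    intro i j
    rw [Pi.sub_apply, hs, Pi.single_apply]
  have h0 : (shf (0 : Fin n → ℤ) + Pi.single ⟨0, hn⟩ 2 : Fin n → ℤ) = shf (dc n).1 := by
    funext j
    rw [hadd]
    show _ = (if (j : ℕ) = 0 then (2 : ℤ) else 0) + ((n : ℤ) - (j : ℕ))
    have h1 : (j = ⟨0, hn⟩) ↔ (j : ℕ) = 0 := Fin.ext_iff
    simp only [h1]
    ring
  have hup : ∀ i : Fin n, 2 ≤ (i : ℕ) → alt 1 (shf (0 : Fin n → ℤ) + Pi.single i 2) = (0 : R n) := by
    intro i hi
    have hj : (i : ℕ) - 2 < n := by have := i.2; omega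
    refine alt_zero 1 _ (i := i) (j := ⟨(i : ℕ) - 2, hj⟩) (fun h => ?_) ?_
    · have := congrArg Fin.val h
      simp only at this
      omega
    · rw [hadd, hadd, if_pos rfl, if_neg (fun h => ?_)]
      · simp only
        omega
      · have := congrArg Fin.val h
        simp only at this
        omega
  by_cases h2 : n = 1
  · subst h2
    rw [Fin.sum_univ_one]
    have e0 : (0 : Fin 1) = ⟨0, hn⟩ := rfl
    rw [e0, h0]
    have h3 : (shf (0 : Fin 1 → ℤ) - Pi.single ⟨0, hn⟩ 2 : Fin 1 → ℤ) =
        Function.update (shf (da 1).1) ⟨0, hn⟩ (1 - shf (da 1).1 ⟨0, hn⟩) := by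
      funext j
      have hj : j = ⟨0, hn⟩ := Subsingleton.elim _ _
      subst hj
      rw [hsub, Function.update_self, if_pos rfl]
      show _ = (1 : ℤ) - ((if ((⟨0, hn⟩ : Fin 1) : ℕ) ≤ 1 then 1 else 0) + _)
      simp
    rw [h3, alt_refl, sub_eq_add_neg]
  · have hn2 : 2 ≤ n := by omega
    have hdn : ∀ i : Fin n, alt 1 (shf (0 : Fin n → ℤ) - Pi.single i 2) = (0 : R n) := by
      intro i
      have hi := i.2
      by_cases c1 : (i : ℕ) + 2 < n
      · refine alt_zero 1 _ (i := i) (j := ⟨(i : ℕ) + 2, c1⟩) (fun h => ?_) ?_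
        · have := congrArg Fin.val h
          simp only at this
          omega
        · rw [hsub, hsub, if_pos rfl, if_neg (fun h => ?_)]
          · simp only
            push_cast
            ring
          · have := congrArg Fin.val h
            simp only at this
            omega
      · have hkey : ∀ k : Fin n, k ≠ i → (n : ℤ) - (k : ℕ) = 1 - ((n : ℤ) - (i : ℕ) - 2) →
            alt 1 (shf (0 : Fin n → ℤ) - Pi.single i 2) = (0 : R n) := by
          intro k hk hv
          have h4 := alt_refl 1 (shf (0 : Fin n → ℤ) - Pi.single i 2) i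
          have h5 : alt 1 (Function.update (shf (0 : Fin n → ℤ) - Pi.single i 2) i
              (1 - (shf (0 : Fin n → ℤ) - Pi.single i 2 : Fin n → ℤ) i)) = (0 : R n) := by
            refine alt_zero 1 _ (i := i) (j := k) (Ne.symm hk) ?_
            rw [Function.update_self, Function.update_of_ne hk, hsub, hsub, if_pos rfl,
              if_neg hk]
            linarith
          rw [h5] at h4
          rw [← neg_eq_zero, ← h4]
        by_cases c2 : (i : ℕ) + 2 = n
        · refine hkey ⟨(i : ℕ) + 1, by omega⟩ (fun h => ?_) ?_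
          · have := congrArg Fin.val h
            simp only at this
            omega
          · simp only
            push_cast
            omega
        · refine hkey ⟨(i : ℕ) - 1, by omega⟩ (fun h => ?_) ?_
          · have := congrArg Fin.val h
            simp only at this
            omega
          · simp only
            omega
    have h1' : alt 1 (shf (0 : Fin n → ℤ) + Pi.single ⟨1, hn2⟩ 2) =
        -(alt 1 (shf (da n).1) : R n) := by
      have h6 := alt_perm 1 (shf (da n).1) (Equiv.swap (⟨0, hn⟩ : Fin n) ⟨1, hn2⟩)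
      have h7 : (shf (0 : Fin n → ℤ) + Pi.single ⟨1, hn2⟩ 2 : Fin n → ℤ) =
          shf (da n).1 ∘ (Equiv.swap (⟨0, hn⟩ : Fin n) ⟨1, hn2⟩) := by
        funext j
        rw [hadd, Function.comp_apply]
        by_cases hj0 : j = ⟨0, hn⟩
        · subst hj0
          rw [Equiv.swap_apply_left, if_neg (fun h => by
            have := congrArg Fin.val h
            simp at this)]
          show _ = (if (((⟨1, hn2⟩ : Fin n) : ℕ)) ≤ 1 then (1 : ℤ) else 0) + _
          simp
        · by_cases hj1 : j = ⟨1, hn2⟩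
          · subst hj1
            rw [Equiv.swap_apply_right, if_pos rfl]
            show _ = (if (((⟨0, hn⟩ : Fin n) : ℕ)) ≤ 1 then (1 : ℤ) else 0) + _
            simp
            ring
          · rw [Equiv.swap_apply_of_ne_of_ne hj0 hj1, if_neg hj1]
            show _ = (if ((j : ℕ)) ≤ 1 then (1 : ℤ) else 0) + ((n : ℤ) - (j : ℕ))
            rw [if_neg]
            · ring
            · intro hj
              rcases Nat.eq_zero_or_pos (j : ℕ) with h8 | h8
              · exact hj0 (Fin.ext h8)
              · exact hj1 (Fin.ext (by show (j : ℕ) = 1; omega))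
      rw [h7, h6, Equiv.Perm.sign_swap (fun h => by
        have := congrArg Fin.val h
        simp at this)]
      simp
    have hsum : ∑ i : Fin n, (alt 1 (shf (0 : Fin n → ℤ) + Pi.single i 2) +
        alt 1 (shf (0 : Fin n → ℤ) - Pi.single i 2) : R n) =
        ∑ i ∈ ({⟨0, hn⟩, ⟨1, hn2⟩} : Finset (Fin n)),
          alt 1 (shf (0 : Fin n → ℤ) + Pi.single i 2) := by
      rw [Finset.sum_congr rfl fun i _ => by rw [hdn i, add_zero]]
      symm
      refine Finset.sum_subset (Finset.subset_univ _) fun i _ hi => hup i ?_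
      rw [Finset.mem_insert, Finset.mem_singleton, not_or] at hi
      by_contra hc
      rcases Nat.eq_zero_or_pos (i : ℕ) with h8 | h8
      · exact hi.1 (Fin.ext h8)
      · exact hi.2 (Fin.ext (by show (i : ℕ) = 1; omega))
    rw [hsum, Finset.sum_pair (fun h => by
      have := congrArg Fin.val h
      simp at this), h0, h1', sub_eq_add_neg]

/-- `eq_of_al`, `chi_al`. -/
theorem p2R_eq (hn : 1 ≤ n) : p2R n = 1 + chi (dc n) - chi (da n) := by
  refine eq_of_al ?_
  rw [p2R_al hn, sub_mul, add_mul, one_mul, chi_al, chi_al]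

/-- `p2R_alt`: the entries of `shf (da n)` are `(n + 1, n, n - 2, …, 1)` (`(2)` if `n = 1`) and those of
`shf (dc n)` are `(n + 2, n - 1, n - 2, …, 1)` (`(3)` if `n = 1`). If `alt 1 M` has a nonzero coefficient
at `(1, M')` then `M'` is, up to a permutation and reflections `x ↦ 1 - x`, equal to `M` (`B3a_alt`), so
the sets of the numbers `max x (1 - x)` are equal. Changing one entry of `(n + 1, n, n - 2, …)` by `2`
leaves `n + 1` or `n` in the set. -/
theorem p2R_coeff (hn : 1 ≤ n) : (p2R n * al (da n).1).coeff (1, shf (dc n).1) = 0 := by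
  classical
  have hc : ∀ (M : Fin n → ℤ) (j : Fin n), (∀ i : Fin n, M j ≠ shf (dc n).1 i ∧
      1 - M j ≠ shf (dc n).1 i) → (alt 1 M : R n).coeff (1, shf (dc n).1) = 0 := by
    intro M j h
    by_contra hne
    obtain ⟨g, hg⟩ := B3a_alt hne
    rw [act_apply, Prod.mk.injEq] at hg
    have h1 := congrFun hg.2 (g.1.symm j)
    simp only [Equiv.apply_symm_apply] at h1
    have h2 := h (g.1.symm j)
    split_ifs at h1
    · exact h2.2 h1
    · exact h2.1 h1
  have hdc : ∀ i : Fin n, shf (dc n).1 i = (if (i : ℕ) = 0 then (2 : ℤ) else 0) + ((n : ℤ) - (i : ℕ)) :=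
    fun i => rfl
  have hda : ∀ i : Fin n, shf (da n).1 i = (if (i : ℕ) ≤ 1 then (1 : ℤ) else 0) + ((n : ℤ) - (i : ℕ)) :=
    fun i => rfl
  have v0 : ∀ M : Fin n → ℤ, M ⟨0, hn⟩ = (n : ℤ) + 1 →
      (alt 1 M : R n).coeff (1, shf (dc n).1) = 0 := by
    intro M hM
    refine hc M ⟨0, hn⟩ fun i => ?_
    rw [hM, hdc]
    have := i.2
    split_ifs <;> constructor <;> omega
  have v1 : ∀ (h2 : 1 < n) (M : Fin n → ℤ), M ⟨1, h2⟩ = (n : ℤ) →
      (alt 1 M : R n).coeff (1, shf (dc n).1) = 0 := by
    intro h2 M hM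
    refine hc M ⟨1, h2⟩ fun i => ?_
    rw [hM, hdc]
    have := i.2
    split_ifs <;> constructor <;> omega
  have hda0 : shf (da n).1 ⟨0, hn⟩ = (n : ℤ) + 1 := by
    rw [hda]
    simp
    ring
  have hall : ∀ (i : Fin n) (e : ℤ), e = 2 ∨ e = -2 →
      (alt 1 (shf (da n).1 + Pi.single i e) : R n).coeff (1, shf (dc n).1) = 0 := by
    intro i e he
    by_cases hi : i = ⟨0, hn⟩
    · by_cases h2 : 1 < n
      · refine v1 h2 _ ?_
        rw [Pi.add_apply, hda, hi, Pi.single_eq_of_ne (fun h => by
          have := congrArg Fin.val h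
          simp at this)]
        simp
      · have hn1 : n = 1 := by omega
        subst hn1
        refine hc _ ⟨0, hn⟩ fun k => ?_
        have hk : k = ⟨0, hn⟩ := Subsingleton.elim _ _
        rw [hk, Pi.add_apply, hda, hdc, hi, Pi.single_eq_same]
        rcases he with he | he
        · rw [he]
          simp
        · rw [he]
          simp
    · refine v0 _ ?_
      rw [Pi.add_apply, hda0, Pi.single_eq_of_ne (Ne.symm hi), add_zero]
  unfold al
  rw [p2R_alt, AddMonoidAlgebra.coeff_add, Finsupp.add_apply, AddMonoidAlgebra.coeff_sum,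
    Finsupp.finsetSum_apply, v0 _ hda0, zero_add]
  refine Finset.sum_eq_zero fun i _ => ?_
  rw [AddMonoidAlgebra.coeff_add, Finsupp.add_apply, hall i 2 (Or.inl rfl), zero_add,
    sub_eq_add_neg, ← Pi.single_neg]
  exact hall i (-2) (Or.inr rfl)

/-- `p2R_coeff` is `mult (p2R n * chi (da n)) (dc n)` (`chi_al`), which is `N c a c - N a a c` by `p2R_eq`
(and `mult_chi`, `da n ≠ dc n`). Use `basDm_comm`, `basDm_rot`. -/
theorem N_ac (hn : 1 ≤ n) : (basDm n).N (da n) (da n) (dc n) = (basDm n).N (dc n) (dc n) (da n) := by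
  have hne : dc n ≠ da n := by
    intro h
    have h1 := congrFun (congrArg Subtype.val h) ⟨0, hn⟩
    have h2 : (if (((⟨0, hn⟩ : Fin n)) : ℕ) = 0 then (2 : ℤ) else 0) =
      if (((⟨0, hn⟩ : Fin n)) : ℕ) ≤ 1 then 1 else 0 := h1
    simp at h2
  have h1 : mult (p2R n * chi (da n)) (dc n).1 = 0 := by
    unfold mult
    rw [mul_assoc, chi_al]
    exact p2R_coeff hn
  have h2 : p2R n * chi (da n) = chi (da n) + chi (dc n) * chi (da n) +
      (-1 : ℤ) • (chi (da n) * chi (da n)) := by
    rw [p2R_eq hn, neg_smul, one_smul]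
    ring
  rw [h2, mult_add, mult_add, mult_smul, mult_chi, if_neg hne, ← basDm_N, ← basDm_N] at h1
  have h3 : (basDm n).N (dc n) (da n) (dc n) = (basDm n).N (dc n) (dc n) (da n) := by
    rw [basDm_comm, basDm_rot]
  rw [h3] at h1
  omega

/-- The double of a weight. -/
def ddb (μ : Dm n) : Dm n := ⟨fun j => 2 * μ.1 j, by
  refine ⟨fun i j hij => ?_, fun i => ?_⟩
  · have h := μ.2.1 hij
    show 2 * μ.1 j ≤ 2 * μ.1 i
    omega
  · have h := μ.2.2 i
    show 0 ≤ 2 * μ.1 i
    omega⟩

/-- `mult (chi μ * chi μ) (2 μ) = (chi μ * al μ).coeff (1, shf (2 μ))`; by `IsIrr.top`, `top_alt` and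
`top_mul` the product has the highest weight `(0, μ) + (1, shf μ)`, with coefficient one. -/
theorem N_ddb (μ : Dm n) : (basDm n).N μ μ (ddb μ) = 1 := by
  rw [basDm_N]
  unfold mult
  rw [mul_assoc, chi_al]
  have h1 : Top ((0, μ.1) : Wt n) (chi μ) := (chi_irr μ).top
  have h2 : Top ((1, shf μ.1) : Wt n) (al μ.1) :=
    top_alt 1 (shf μ.1) (shf_strictAnti μ) (shf_pos μ)
  have h3 := (top_mul h1 h2).1
  have h4 : ((0, μ.1) : Wt n) + (1, shf μ.1) = (1, shf (ddb μ).1) := by
    refine Prod.ext ?_ ?_
    · show (0 : ℤ) + 1 = 1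
      norm_num
    · funext j
      show μ.1 j + (μ.1 j + ((n : ℤ) - (j : ℕ))) = 2 * μ.1 j + ((n : ℤ) - (j : ℕ))
      ring
  rwa [h4] at h3

end Pool.Agent.EEAP
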